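import Pool.Agent.Lib.MP_4a278a_an.Disc

set_option autoImplicit false

namespace Pool.Agent.Lib.MP_4a278a_an

open Finset

/-- the duality map `u ↦ |u|^(p-2) u` -/
noncomputable def jj (p u : ℝ) : ℝ := |u| ^ (p - 2) * u

lemma jj_zero (p : ℝ) : jj p 0 = 0 := by simp [jj]

lemma jj_neg (p u : ℝ) : jj p (-u) = - jj p u := by simp [jj]

lemma jj_of_nonneg {p u : ℝ} (hp : 1 < p) (hu : 0 ≤ u) : jj p u = u ^ (p - 1) := by
  rcases hu.eq_or_lt with h | h
  · rw [← h, jj_zero, Real.zero_rpow (by linarith)]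
  · unfold jj
    rw [abs_of_pos h, show p - 1 = (p - 2) + 1 by ring, Real.rpow_add_one h.ne']

lemma jj_of_nonpos {p u : ℝ} (hp : 1 < p) (hu : u ≤ 0) : jj p u = - (-u) ^ (p - 1) := by
  rw [← jj_of_nonneg hp (by linarith), jj_neg, neg_neg]

lemma abs_jj {p : ℝ} (hp : 1 < p) (u : ℝ) : |jj p u| = |u| ^ (p - 1) := by
  rcases le_total 0 u with h | h
  · rw [jj_of_nonneg hp h, abs_of_nonneg h, abs_of_nonneg (Real.rpow_nonneg h _)]
  · rw [jj_of_nonpos hp h, abs_neg, abs_of_nonpos h,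
      abs_of_nonneg (Real.rpow_nonneg (by linarith) _)]

lemma rpow_pred_mul {p a : ℝ} (hp : 1 < p) (ha : 0 ≤ a) : a ^ (p - 1) * a = a ^ p := by
  rcases ha.eq_or_lt with h | h
  · rw [← h, mul_zero, Real.zero_rpow (by linarith)]
  · rw [← Real.rpow_add_one h.ne']; congr 1; ring

lemma jj_mul_self {p : ℝ} (hp : 1 < p) (u : ℝ) : jj p u * u = |u| ^ p := by
  rcases le_total 0 u with h | h
  · rw [jj_of_nonneg hp h, abs_of_nonneg h, rpow_pred_mul hp h]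
  · rw [jj_of_nonpos hp h, abs_of_nonpos h, ← rpow_pred_mul hp (by linarith : 0 ≤ -u)]; ring

lemma jj_mul (p a b : ℝ) : jj p (a * b) = jj p a * jj p b := by
  unfold jj
  rw [abs_mul, Real.mul_rpow (abs_nonneg _) (abs_nonneg _)]; ring

lemma jj_holder_aux {q a b : ℝ} (hq0 : 0 ≤ q) (hq : q ≤ 1) (hb : 0 ≤ b) (hab : b ≤ a) :
    |a ^ q - b ^ q| ≤ 2 * |a - b| ^ q := by
  have h1 : b ^ q ≤ a ^ q := Real.rpow_le_rpow hb hab hq0
  have h2 : ((a - b) + b) ^ q ≤ (a - b) ^ q + b ^ q :=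
    Real.rpow_add_le_add_rpow (by linarith) hb hq0 hq
  rw [sub_add_cancel] at h2
  rw [abs_of_nonneg (by linarith), abs_of_nonneg (by linarith)]
  have : 0 ≤ (a - b) ^ q := Real.rpow_nonneg (by linarith) _
  linarith

lemma jj_holder {p : ℝ} (hp : 1 < p) (hp2 : p ≤ 2) (u v : ℝ) :
    |jj p u - jj p v| ≤ 2 * |u - v| ^ (p - 1) := by
  have hq0 : 0 ≤ p - 1 := by linarith
  have hq : p - 1 ≤ 1 := by linarith
  have mixed : ∀ a b : ℝ, 0 ≤ a → b ≤ 0 → |jj p a - jj p b| ≤ 2 * |a - b| ^ (p - 1) := by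
    intro a b ha hb
    rw [jj_of_nonneg hp ha, jj_of_nonpos hp hb]
    have h1 : a ^ (p - 1) ≤ (a - b) ^ (p - 1) := Real.rpow_le_rpow ha (by linarith) hq0
    have h2 : (-b) ^ (p - 1) ≤ (a - b) ^ (p - 1) :=
      Real.rpow_le_rpow (by linarith) (by linarith) hq0
    have h3 : 0 ≤ a ^ (p - 1) := Real.rpow_nonneg ha _
    have h4 : 0 ≤ (-b) ^ (p - 1) := Real.rpow_nonneg (by linarith) _
    rw [abs_of_nonneg (by linarith), abs_of_nonneg (by linarith)]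
    linarith
  have pos : ∀ a b : ℝ, 0 ≤ a → 0 ≤ b → |jj p a - jj p b| ≤ 2 * |a - b| ^ (p - 1) := by
    intro a b ha hb
    rw [jj_of_nonneg hp ha, jj_of_nonneg hp hb]
    rcases le_total b a with h | h
    · exact jj_holder_aux hq0 hq hb h
    · rw [abs_sub_comm, abs_sub_comm a b]
      exact jj_holder_aux hq0 hq ha h
  rcases le_total 0 u with hu | hu <;> rcases le_total 0 v with hv | hv
  · exact pos u v hu hv
  · exact mixed u v hu hv
  · rw [abs_sub_comm, abs_sub_comm u v]; exact mixed v u hv hu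
  · have := pos (-u) (-v) (by linarith) (by linarith)
    rw [jj_neg, jj_neg, show -jj p u - -jj p v = -(jj p u - jj p v) by ring, abs_neg,
      show -u - -v = -(u - v) by ring, abs_neg] at this
    exact this

lemma jj_conv {p : ℝ} (hp : 2 ≤ p) (u a : ℝ) :
    |u| ^ p ≤ (jj p (u + a) + jj p (u - a)) * u := by
  have hp1 : 1 < p := by linarith
  have key : ∀ u a : ℝ, 0 ≤ u → 0 ≤ a → u ^ (p - 1) ≤ jj p (u + a) + jj p (u - a) := by
    intro u a hu ha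
    rw [jj_of_nonneg hp1 (by linarith : 0 ≤ u + a)]
    rcases le_total a u with h | h
    · rw [jj_of_nonneg hp1 (by linarith : 0 ≤ u - a)]
      have h1 : u ^ (p - 1) ≤ (u + a) ^ (p - 1) := Real.rpow_le_rpow hu (by linarith) (by linarith)
      have h2 : 0 ≤ (u - a) ^ (p - 1) := Real.rpow_nonneg (by linarith) _
      linarith
    · rw [jj_of_nonpos hp1 (by linarith : u - a ≤ 0)]
      have h1 : (-(u - a)) ^ (p - 1) + (2 * u) ^ (p - 1) ≤ (-(u - a) + 2 * u) ^ (p - 1) :=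
        Real.add_rpow_le_rpow_add (by linarith) (by linarith) (by linarith)
      rw [show -(u - a) + 2 * u = u + a by ring] at h1
      have h2 : u ^ (p - 1) ≤ (2 * u) ^ (p - 1) := Real.rpow_le_rpow hu (by linarith) (by linarith)
      linarith
  have key2 : ∀ u a : ℝ, 0 ≤ u → u ^ (p - 1) ≤ jj p (u + a) + jj p (u - a) := by
    intro u a hu
    rcases le_total 0 a with ha | ha
    · exact key u a hu ha
    · have := key u (-a) hu (by linarith)
      rw [← sub_eq_add_neg, sub_neg_eq_add, add_comm] at this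
      exact this
  rcases le_total 0 u with hu | hu
  · rw [abs_of_nonneg hu, ← rpow_pred_mul hp1 hu]
    exact mul_le_mul_of_nonneg_right (key2 u a hu) hu
  · have h1 := key2 (-u) a (by linarith)
    rw [show -u + a = -(u - a) by ring, show -u - a = -(u + a) by ring, jj_neg, jj_neg] at h1
    rw [abs_of_nonpos hu, ← rpow_pred_mul hp1 (by linarith : 0 ≤ -u)]
    have := mul_le_mul_of_nonneg_right h1 (by linarith : 0 ≤ -u)
    linarith

/-- a family of independent signs, witnessed by average-preserving flips -/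
structure SignFam {d : ℕ} {ι : Type*} (K : ℕ) (A : Finset ι) (T : ι → Om d → Om d)
    (s : ι → Om d → ℝ) : Prop where
  inv : ∀ j ∈ A, Inv K (T j)
  sgn : ∀ j ∈ A, ∀ ω, s j ω = 1 ∨ s j ω = -1
  odd : ∀ j ∈ A, ∀ ω, s j (T j ω) = - s j ω
  even : ∀ i ∈ A, ∀ j ∈ A, i ≠ j → ∀ ω, s i (T j ω) = s i ω

section fam
variable {d K : ℕ} {ι : Type*} [DecidableEq ι] {A : Finset ι} {T : ι → Om d → Om d}
  {s : ι → Om d → ℝ}

omit [DecidableEq ι] in
lemma SignFam.mono (h : SignFam K A T s) {B : Finset ι} (hB : B ⊆ A) : SignFam K B T s :=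
  ⟨fun j hj => h.inv j (hB hj), fun j hj => h.sgn j (hB hj), fun j hj => h.odd j (hB hj),
    fun i hi j hj => h.even i (hB hi) j (hB hj)⟩

omit [DecidableEq ι] in
lemma SignFam.sq (h : SignFam K A T s) {j : ι} (hj : j ∈ A) (ω : Om d) : s j ω * s j ω = 1 := by
  rcases h.sgn j hj ω with h1 | h1 <;> rw [h1] <;> norm_num

omit [DecidableEq ι] in
lemma SignFam.second (h : SignFam K A T s) (θ : Om d → ℝ)
    (hθ : ∀ j ∈ A, ∀ ω, θ (T j ω) = θ ω) :
    Ex K (fun ω => θ ω * (∑ j ∈ A, s j ω) ^ 2) = A.card * Ex K θ := by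
  have e1 : ∀ ω, θ ω * (∑ j ∈ A, s j ω) ^ 2 = ∑ i ∈ A, ∑ j ∈ A, θ ω * (s i ω * s j ω) := by
    intro ω
    rw [pow_two, sum_mul_sum, mul_sum]
    apply sum_congr rfl
    intro i _
    rw [mul_sum]
  rw [Ex_congr K e1, Ex_sum]
  have e2 : ∀ i ∈ A, Ex K (fun ω => ∑ j ∈ A, θ ω * (s i ω * s j ω)) = Ex K θ := by
    intro i hi
    rw [Ex_sum, sum_eq_single_of_mem i hi]
    · apply Ex_congr
      intro ω
      rw [h.sq hi, mul_one]
    · intro j hj hji
      apply (h.inv j hj).odd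
      intro ω
      rw [hθ j hj, h.odd j hj, h.even i hi j hj (Ne.symm hji)]; ring
  rw [sum_congr rfl e2, sum_const, nsmul_eq_mul]

lemma SignFam.mgf (h : SignFam K A T s) (θ : Om d → ℝ)
    (hθ : ∀ j ∈ A, ∀ ω, θ (T j ω) = θ ω) (l : ℝ) :
    Ex K (fun ω => θ ω * Real.exp (l * ∑ j ∈ A, s j ω)) = Real.cosh l ^ A.card * Ex K θ := by
  induction A using Finset.induction_on with
  | empty => simp
  | insert j B hj ih =>
    have hB : SignFam K B T s := h.mono (subset_insert _ _)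
    have hjm : j ∈ insert j B := mem_insert_self _ _
    rw [card_insert_of_notMem hj, pow_succ', mul_assoc,
      ← ih hB (fun i hi => hθ i (mem_insert_of_mem hi)), (h.inv j hjm).symm', ← Ex_mul, ← Ex_mul]
    apply Ex_congr
    intro ω
    have e : ∑ i ∈ B, s i (T j ω) = ∑ i ∈ B, s i ω := by
      apply sum_congr rfl
      intro i hi
      exact h.even i (mem_insert_of_mem hi) j hjm (by rintro rfl; exact hj hi) ω
    rw [sum_insert hj, sum_insert hj, hθ j hjm, h.odd j hjm, e, Real.cosh_eq, mul_add l, mul_add l,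
      Real.exp_add, Real.exp_add]
    rcases h.sgn j hjm ω with h1 | h1 <;> rw [h1] <;> simp <;> ring

lemma exists_rpow_le_exp {r : ℝ} (hr : 0 ≤ r) :
    ∃ C : ℝ, 1 ≤ C ∧ ∀ t : ℝ, |t| ^ r ≤ C * (Real.exp t + Real.exp (-t)) := by
  refine ⟨1 + (⌈r⌉₊).factorial, by simp, fun t => ?_⟩
  have h1 : |t| ^ r ≤ 1 + |t| ^ ⌈r⌉₊ := by
    rcases le_total |t| 1 with h | h
    · have := Real.rpow_le_one (abs_nonneg t) h hr
      have : 0 ≤ |t| ^ ⌈r⌉₊ := by positivity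
      linarith
    · have := Real.rpow_le_rpow_of_exponent_le h (Nat.le_ceil r)
      rw [Real.rpow_natCast] at this
      linarith
  have h2 : |t| ^ ⌈r⌉₊ ≤ (⌈r⌉₊).factorial * Real.exp |t| := by
    have := Real.pow_div_factorial_le_exp (x := |t|) (abs_nonneg t) ⌈r⌉₊
    rw [div_le_iff₀ (by positivity)] at this
    linarith
  have h3 : 1 ≤ Real.exp |t| := Real.one_le_exp (abs_nonneg t)
  have h4 : Real.exp |t| ≤ Real.exp t + Real.exp (-t) := by
    have := Real.exp_pos t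
    have := Real.exp_pos (-t)
    rcases abs_choice t with h | h <;> rw [h] <;> linarith
  have h5 : (0 : ℝ) ≤ (⌈r⌉₊).factorial := by positivity
  nlinarith

end fam

lemma khin_upper {r : ℝ} (hr : 0 ≤ r) : ∃ B : ℝ, 2 ≤ B ∧
    ∀ (d K : ℕ) (A : Finset ℕ) (T : ℕ → Om d → Om d) (s : ℕ → Om d → ℝ), SignFam K A T s →
      A.Nonempty → ∀ θ : Om d → ℝ, (∀ ω, 0 ≤ θ ω) → (∀ j ∈ A, ∀ ω, θ (T j ω) = θ ω) →
      Ex K (fun ω => θ ω * |∑ j ∈ A, s j ω| ^ r) ≤ B * (A.card : ℝ) ^ (r / 2) * Ex K θ := by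
  obtain ⟨C, hC1, hC⟩ := exists_rpow_le_exp hr
  have he : 1 ≤ Real.exp (1 / 2) := Real.one_le_exp (by norm_num)
  refine ⟨2 * C * Real.exp (1 / 2), by nlinarith, ?_⟩
  intro d K A T s h hA θ hθ0 hθ
  have hM : (0 : ℝ) < A.card := by exact_mod_cast hA.card_pos
  set M : ℝ := (A.card : ℝ) with hMdef
  set l : ℝ := (Real.sqrt M)⁻¹ with hl
  have hsq : 0 < Real.sqrt M := Real.sqrt_pos.2 hM
  have hl2 : l ^ 2 = M⁻¹ := by rw [hl, inv_pow, Real.sq_sqrt hM.le]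
  have hcosh : ∀ x : ℝ, x ^ 2 = M⁻¹ → Real.cosh x ^ A.card ≤ Real.exp (1 / 2) := by
    intro x hx
    calc Real.cosh x ^ A.card ≤ Real.exp (x ^ 2 / 2) ^ A.card :=
          pow_le_pow_left₀ (Real.cosh_pos x).le (Real.cosh_le_exp_half_sq x) _
      _ = Real.exp (1 / 2) := by
          rw [← Real.exp_nat_mul, hx, ← hMdef]; congr 1; field_simp
  have hE : 0 ≤ Ex K θ := Ex_nonneg K hθ0
  have pw : ∀ ω, θ ω * |∑ j ∈ A, s j ω| ^ r ≤ (C * M ^ (r / 2)) *
      (θ ω * Real.exp (l * ∑ j ∈ A, s j ω) + θ ω * Real.exp ((-l) * ∑ j ∈ A, s j ω)) := by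
    intro ω
    set S := ∑ j ∈ A, s j ω
    have h1 : |S| ^ r = M ^ (r / 2) * |l * S| ^ r := by
      rw [abs_mul, abs_of_pos (inv_pos.2 hsq), Real.mul_rpow (by positivity) (abs_nonneg _),
        Real.inv_rpow hsq.le, Real.sqrt_eq_rpow, ← Real.rpow_mul hM.le, ← mul_assoc,
        show 1 / 2 * r = r / 2 by ring, mul_inv_cancel₀ (Real.rpow_pos_of_pos hM _).ne', one_mul]
    have h2 := hC (l * S)
    rw [h1, neg_mul]
    have h3 : 0 ≤ M ^ (r / 2) := Real.rpow_nonneg hM.le _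
    have h4 := mul_le_mul_of_nonneg_left h2 (mul_nonneg (hθ0 ω) h3)
    calc θ ω * (M ^ (r / 2) * |l * S| ^ r) = θ ω * M ^ (r / 2) * |l * S| ^ r := by ring
      _ ≤ _ := h4
      _ = _ := by ring
  refine (Ex_mono K pw).trans ?_
  rw [Ex_mul, Ex_add, h.mgf θ hθ, h.mgf θ hθ]
  have h1 := mul_le_mul_of_nonneg_right (hcosh l hl2) hE
  have h2 := mul_le_mul_of_nonneg_right (hcosh (-l) (by rw [neg_sq, hl2])) hE
  have h3 : 0 ≤ C * M ^ (r / 2) := mul_nonneg (by linarith) (Real.rpow_nonneg hM.le _)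
  calc _ ≤ C * M ^ (r / 2) * (Real.exp (1 / 2) * Ex K θ + Real.exp (1 / 2) * Ex K θ) :=
        mul_le_mul_of_nonneg_left (add_le_add h1 h2) h3
    _ = _ := by ring

lemma khin_lower : ∃ b : ℝ, 0 < b ∧ ∀ p : ℝ, 1 ≤ p → p ≤ 2 →
    ∀ (d K : ℕ) (A : Finset ℕ) (T : ℕ → Om d → Om d) (s : ℕ → Om d → ℝ), SignFam K A T s →
      A.Nonempty → ∀ θ : Om d → ℝ, (∀ ω, 0 ≤ θ ω) → (∀ j ∈ A, ∀ ω, θ (T j ω) = θ ω) →
      b * (A.card : ℝ) ^ (p / 2) * Ex K θ ≤ Ex K (fun ω => θ ω * |∑ j ∈ A, s j ω| ^ p) := by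
  obtain ⟨B, hB, hK⟩ := khin_upper (r := 4) (by norm_num)
  refine ⟨1 / (2 * B), by positivity, ?_⟩
  intro p hp1 hp2 d K A T s h hA θ hθ0 hθ
  have h4 := hK d K A T s h hA θ hθ0 hθ
  have h2 := h.second θ hθ
  have hM : (0 : ℝ) < A.card := by exact_mod_cast hA.card_pos
  set M : ℝ := (A.card : ℝ) with hMdef
  have hsq : 0 < Real.sqrt M := Real.sqrt_pos.2 hM
  have hB0 : 0 < B := by linarith
  have pt : ∀ t : ℝ, 0 ≤ t → t ^ 2 / B - t ^ 4 / (2 * B ^ 2) ≤ t ^ p := by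
    intro t ht
    rcases le_total t 1 with h1 | h1
    · have h3 : t ^ (2 : ℝ) ≤ t ^ p := Real.rpow_le_rpow_of_exponent_ge' ht h1 (by linarith) hp2
      rw [Real.rpow_two] at h3
      have h5 : t ^ 2 / B ≤ t ^ 2 := div_le_self (by positivity) (by linarith)
      have h6 : 0 ≤ t ^ 4 / (2 * B ^ 2) := by positivity
      linarith
    · have h3 : t ^ (1 : ℝ) ≤ t ^ p := Real.rpow_le_rpow_of_exponent_le h1 hp1
      rw [Real.rpow_one] at h3
      refine le_trans ?_ h3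
      rw [div_sub_div _ _ hB0.ne' (by positivity), div_le_iff₀ (by positivity)]
      rcases le_total t B with h5 | h5
      · have : t ^ 2 * (2 * B ^ 2) ≤ t * (B * (2 * B ^ 2)) := by
          have : t * t ≤ t * B := mul_le_mul_of_nonneg_left h5 ht
          nlinarith [sq_nonneg B]
        have : 0 ≤ B * t ^ 4 := by positivity
        linarith
      · have h6 : B ^ 2 ≤ t ^ 2 := pow_le_pow_left₀ hB0.le h5 2
        have h7 : t ^ 2 * B ^ 2 ≤ t ^ 2 * t ^ 2 := mul_le_mul_of_nonneg_left h6 (by positivity)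
        have h8 : 2 * t ^ 4 ≤ B * t ^ 4 := mul_le_mul_of_nonneg_right hB (by positivity)
        have h9 : 0 ≤ t * (B * (2 * B ^ 2)) := by positivity
        nlinarith
  have pw : ∀ ω, (M ^ (p / 2) / (B * M)) * (θ ω * (∑ j ∈ A, s j ω) ^ 2) -
      (M ^ (p / 2) / (2 * B ^ 2 * M ^ 2)) * (θ ω * |∑ j ∈ A, s j ω| ^ (4 : ℝ)) ≤
      θ ω * |∑ j ∈ A, s j ω| ^ p := by
    intro ω
    set S := ∑ j ∈ A, s j ω
    have h1 : |S| ^ p = M ^ (p / 2) * (|S| / Real.sqrt M) ^ p := by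
      rw [Real.div_rpow (abs_nonneg _) hsq.le, Real.sqrt_eq_rpow, ← Real.rpow_mul hM.le,
        show 1 / 2 * p = p / 2 by ring, mul_div_cancel₀ _ (Real.rpow_pos_of_pos hM _).ne']
    have h3 := pt (|S| / Real.sqrt M) (by positivity)
    have h5 : (|S| / Real.sqrt M) ^ 2 = S ^ 2 / M := by
      rw [div_pow, Real.sq_sqrt hM.le, sq_abs]
    have h6 : (|S| / Real.sqrt M) ^ 4 = |S| ^ (4 : ℝ) / M ^ 2 := by
      rw [show (4 : ℝ) = ((4 : ℕ) : ℝ) by norm_num, Real.rpow_natCast, div_pow,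
        show Real.sqrt M ^ 4 = (Real.sqrt M ^ 2) ^ 2 by ring, Real.sq_sqrt hM.le]
    rw [h5, h6] at h3
    rw [h1]
    have h7 : 0 ≤ θ ω * M ^ (p / 2) := mul_nonneg (hθ0 ω) (Real.rpow_nonneg hM.le _)
    have h8 := mul_le_mul_of_nonneg_left h3 h7
    calc _ = θ ω * M ^ (p / 2) * (S ^ 2 / M / B - |S| ^ (4 : ℝ) / M ^ 2 / (2 * B ^ 2)) := by
          field_simp
      _ ≤ _ := h8
      _ = _ := by ring
  refine le_trans ?_ (Ex_mono K pw)
  rw [Ex_sub, Ex_mul, Ex_mul, h2]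
  have h9 : 0 ≤ M ^ (p / 2) / (2 * B ^ 2 * M ^ 2) := by
    have := Real.rpow_nonneg hM.le (p / 2)
    positivity
  have h10 := mul_le_mul_of_nonneg_left h4 h9
  rw [show (4 : ℝ) / 2 = ((2 : ℕ) : ℝ) by norm_num, Real.rpow_natCast] at h10
  have e1 : M ^ (p / 2) / (2 * B ^ 2 * M ^ 2) * (B * M ^ 2 * Ex K θ) =
      1 / (2 * B) * M ^ (p / 2) * Ex K θ := by field_simp
  have e2 : M ^ (p / 2) / (B * M) * (M * Ex K θ) = 2 * (1 / (2 * B) * M ^ (p / 2) * Ex K θ) := by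
    field_simp
  rw [e1] at h10
  rw [e2]
  linarith

lemma SignFam.exch {d K : ℕ} {A : Finset ℕ} {T : ℕ → Om d → Om d} {s : ℕ → Om d → ℝ}
    (h : SignFam K A T s) {p : ℝ} (hp : 1 < p) (hp2 : p ≤ 2) (θ c : Om d → ℝ)
    (hθ : ∀ j ∈ A, ∀ ω, θ (T j ω) = θ ω) (hc : ∀ j ∈ A, ∀ ω, c (T j ω) = c ω)
    {j0 : ℕ} (hj0 : j0 ∈ A) :
    |Ex K (fun ω => θ ω * jj p (c ω + ∑ j ∈ A, s j ω) * s j0 ω)| ≤
      4 * (A.card : ℝ) ^ (p / 2 - 1) * Ex K (fun ω => |θ ω|) := by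
  have hM : (0 : ℝ) < A.card := by exact_mod_cast card_pos.2 ⟨j0, hj0⟩
  set M : ℝ := (A.card : ℝ) with hMdef
  have sumT : ∀ j ∈ A, ∀ ω, ∑ i ∈ A, s i (T j ω) = ∑ i ∈ A, s i ω - 2 * s j ω := by
    intro j hj ω
    rw [← add_sum_erase A _ hj, ← add_sum_erase A (fun i => s i ω) hj, h.odd j hj]
    have : ∑ i ∈ A.erase j, s i (T j ω) = ∑ i ∈ A.erase j, s i ω := by
      apply sum_congr rfl
      intro i hi
      exact h.even i (mem_of_mem_erase hi) j hj (ne_of_mem_erase hi) ω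
    rw [this]; ring
  have eq1 : ∀ j ∈ A, Ex K (fun ω => θ ω * jj p (c ω + ∑ i ∈ A, s i ω) * s j ω) =
      Ex K (fun ω => θ ω * jj p (c ω + ∑ i ∈ A, s i ω) * s j0 ω) := by
    intro j hj
    by_cases hjj : j = j0
    · rw [hjj]
    rw [← sub_eq_zero, ← Ex_sub]
    apply ((h.inv j hj).comp (h.inv j0 hj0)).odd
    intro ω
    rw [hθ j hj, hθ j0 hj0, hc j hj, hc j0 hj0, sumT j hj, sumT j0 hj0, h.odd j hj,
      h.even j hj j0 hj0 hjj, h.even j0 hj0 j hj (Ne.symm hjj), h.odd j0 hj0]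
    rcases h.sgn j hj ω with h1 | h1 <;> rcases h.sgn j0 hj0 ω with h2 | h2 <;> rw [h1, h2]
    · ring
    · rw [show ∑ i ∈ A, s i ω - 2 * -1 - 2 * 1 = ∑ i ∈ A, s i ω by ring]; ring
    · rw [show ∑ i ∈ A, s i ω - 2 * 1 - 2 * -1 = ∑ i ∈ A, s i ω by ring]; ring
    · ring
  have eq2 : M * Ex K (fun ω => θ ω * jj p (c ω + ∑ i ∈ A, s i ω) * s j0 ω) =
      Ex K (fun ω => θ ω * (jj p (c ω + ∑ i ∈ A, s i ω) - jj p (c ω)) * ∑ i ∈ A, s i ω) := by
    have e0 : Ex K (fun ω => θ ω * jj p (c ω) * ∑ i ∈ A, s i ω) = 0 := by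
      simp only [mul_sum]
      rw [Ex_sum]
      apply sum_eq_zero
      intro j hj
      apply (h.inv j hj).odd
      intro ω
      rw [hθ j hj, hc j hj, h.odd j hj]; ring
    have e1 : Ex K (fun ω => θ ω * jj p (c ω + ∑ i ∈ A, s i ω) * ∑ j ∈ A, s j ω) =
        M * Ex K (fun ω => θ ω * jj p (c ω + ∑ i ∈ A, s i ω) * s j0 ω) := by
      have : ∀ ω, θ ω * jj p (c ω + ∑ i ∈ A, s i ω) * ∑ j ∈ A, s j ω =
          ∑ j ∈ A, θ ω * jj p (c ω + ∑ i ∈ A, s i ω) * s j ω := fun ω => by rw [mul_sum]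
      rw [Ex_congr K this, Ex_sum, sum_congr rfl eq1, sum_const, nsmul_eq_mul]
    rw [← e1, ← sub_zero (Ex K _), ← e0, ← Ex_sub]
    apply Ex_congr
    intro ω; ring
  have pw : ∀ ω, |θ ω * (jj p (c ω + ∑ i ∈ A, s i ω) - jj p (c ω)) * ∑ i ∈ A, s i ω| ≤
      2 * M ^ (p / 2) * |θ ω| + (2 * M ^ (p / 2) / M) * (|θ ω| * (∑ i ∈ A, s i ω) ^ 2) := by
    intro ω
    set S := ∑ j ∈ A, s j ω
    have h1 := jj_holder hp hp2 (c ω + S) (c ω)
    rw [add_sub_cancel_left] at h1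
    have hsq : 0 < Real.sqrt M := Real.sqrt_pos.2 hM
    have h2 : |S| ^ p ≤ M ^ (p / 2) * (1 + S ^ 2 / M) := by
      have h3 : |S| ^ p = M ^ (p / 2) * (|S| / Real.sqrt M) ^ p := by
        rw [Real.div_rpow (abs_nonneg _) hsq.le, Real.sqrt_eq_rpow, ← Real.rpow_mul hM.le,
          show 1 / 2 * p = p / 2 by ring, mul_div_cancel₀ _ (Real.rpow_pos_of_pos hM _).ne']
      have h5 : (|S| / Real.sqrt M) ^ 2 = S ^ 2 / M := by
        rw [div_pow, Real.sq_sqrt hM.le, sq_abs]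
      rw [h3, ← h5]
      apply mul_le_mul_of_nonneg_left _ (Real.rpow_nonneg hM.le _)
      set t := |S| / Real.sqrt M
      have ht : 0 ≤ t := by positivity
      rcases le_total t 1 with h6 | h6
      · have := Real.rpow_le_one ht h6 (by linarith : 0 ≤ p)
        have : 0 ≤ t ^ 2 := by positivity
        linarith
      · have := Real.rpow_le_rpow_of_exponent_le h6 hp2
        rw [Real.rpow_two] at this
        linarith
    rw [abs_mul, abs_mul]
    have h7 : |jj p (c ω + S) - jj p (c ω)| * |S| ≤ 2 * |S| ^ p := by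
      rw [← rpow_pred_mul hp (abs_nonneg S), ← mul_assoc]
      exact mul_le_mul_of_nonneg_right h1 (abs_nonneg _)
    have h8 : |jj p (c ω + S) - jj p (c ω)| * |S| ≤ 2 * (M ^ (p / 2) * (1 + S ^ 2 / M)) := by
      linarith
    have h9 := mul_le_mul_of_nonneg_left h8 (abs_nonneg (θ ω))
    calc _ = |θ ω| * (|jj p (c ω + S) - jj p (c ω)| * |S|) := by ring
      _ ≤ _ := h9
      _ = _ := by ring
  have h10 := abs_Ex_le K pw
  rw [← eq2, Ex_add, Ex_mul, Ex_mul, h.second (fun ω => |θ ω|) (fun j hj ω => by rw [hθ j hj]),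
    abs_mul, abs_of_pos hM, ← hMdef] at h10
  rw [Real.rpow_sub_one hM.ne']
  rw [← le_div_iff₀' hM] at h10
  refine h10.trans (le_of_eq ?_)
  field_simp
  ring

end Pool.Agent.Lib.MP_4a278a_an
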