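import Pool.Agent.Lib.MP_4a278a_an.Defs
import Pool.Agent.Lib.MP_4a278a_an.Khin

set_option autoImplicit false

open MeasureTheory Set
open scoped ENNReal

namespace Pool.Agent.Lib.MP_4a278a_an

instance cube_finite (d : ℕ) : IsFiniteMeasure (cube d) :=
  isFiniteMeasure_restrict.2 (isCompact_Icc.measure_lt_top.ne)

/-- binary digits of a real number -/
noncomputable def digit (x : ℝ) (j : ℕ) : Bool := decide (⌊2 ^ (j + 1) * x⌋₊ % 2 = 1)

/-- first `K` digits of each coordinate -/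
noncomputable def bK {d : ℕ} (K : ℕ) (x : Fin d → ℝ) : Fin d → Fin K → Bool :=
  fun c j => digit (x c) j

lemma num_digit {x : ℝ} (_h0 : 0 ≤ x) (h1 : x < 1) (a : ℕ) : num (digit x) a = ⌊2 ^ a * x⌋₊ := by
  induction a with
  | zero => simp [num, Nat.floor_eq_zero.2 h1]
  | succ a ih =>
    rw [num, ih]
    have : ⌊2 ^ a * x⌋₊ = ⌊2 ^ (a + 1) * x⌋₊ / 2 := by
      rw [← Nat.floor_div_ofNat]; congr 1; ring
    rw [this]
    unfold digit
    by_cases h : ⌊2 ^ (a + 1) * x⌋₊ % 2 = 1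
    · simp only [h, decide_true, if_true]; omega
    · simp only [h, decide_false, Bool.false_eq_true, if_false]; omega

lemma measurable_digit (j : ℕ) : Measurable (fun x : ℝ => digit x j) := by
  unfold digit
  exact (measurable_from_top (f := fun n : ℕ => decide (n % 2 = 1))).comp
    (Nat.measurable_floor.comp (measurable_id.const_mul _))

lemma measurable_bK {d : ℕ} (K : ℕ) : Measurable (bK (d := d) K) := by
  unfold bK
  exact measurable_pi_lambda _ fun c => measurable_pi_lambda _ fun j =>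
    (measurable_digit j).comp (measurable_pi_apply c)

lemma cube_eq (d : ℕ) :
    cube d = (volume : Measure (Fin d → ℝ)).restrict (univ.pi fun _ => Ico 0 1) := by
  apply Measure.restrict_congr_set
  exact (Measure.univ_pi_Ico_ae_eq_Icc (f := fun _ => (0 : ℝ)) (g := fun _ => (1 : ℝ))).symm

lemma ae_cube (d : ℕ) : ∀ᵐ x ∂(cube d), ∀ c, 0 ≤ x c ∧ x c < 1 := by
  rw [cube_eq]
  filter_upwards [ae_restrict_mem (MeasurableSet.univ_pi fun _ => measurableSet_Ico)] with x hx c
  exact hx c (mem_univ c)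

lemma ext_bK {d : ℕ} (K : ℕ) (x : Fin d → ℝ) (c : Fin d) {j : ℕ} (hj : j < K) :
    ext (bK K x) c j = digit (x c) j := by
  simp [ext, bK, hj]

lemma floor_eq_iff_Ico {x : ℝ} (h0 : 0 ≤ x) (a i : ℕ) :
    ⌊2 ^ a * x⌋₊ = i ↔ x ∈ Ico ((i : ℝ) / 2 ^ a) (((i : ℝ) + 1) / 2 ^ a) := by
  rw [Nat.floor_eq_iff (by positivity), mem_Ico, div_le_iff₀' (by positivity),
    lt_div_iff₀' (by positivity)]

lemma fiber_measure {d : ℕ} (K : ℕ) (w : Fin d → Fin K → Bool) :
    ((cube d).map (bK K)).real {w} = 1 / (Fintype.card (Fin d → Fin K → Bool) : ℝ) := by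
  rw [measureReal_def, Measure.map_apply (measurable_bK K) (measurableSet_singleton w), cube_eq,
    Measure.restrict_apply (measurable_bK K (measurableSet_singleton w))]
  have : bK K ⁻¹' {w} ∩ (univ.pi fun _ => Ico 0 1) =
      univ.pi fun c => Ico ((num (ext w c) K : ℝ) / 2 ^ K) (((num (ext w c) K : ℝ) + 1) / 2 ^ K) := by
    ext x
    simp only [mem_inter_iff, mem_preimage, mem_singleton_iff, mem_pi, mem_univ, forall_true_left]
    constructor
    · rintro ⟨h1, h2⟩ c
      rw [← floor_eq_iff_Ico (h2 c).1, ← num_digit (h2 c).1 (h2 c).2, ← h1]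
      exact num_congr fun j hj => (ext_bK K x c hj).symm
    · intro h
      have h2 : ∀ c, x c ∈ Ico (0 : ℝ) 1 := by
        intro c
        refine ⟨le_trans (by positivity) (h c).1, lt_of_lt_of_le (h c).2 ?_⟩
        rw [div_le_one (by positivity)]
        exact_mod_cast num_lt (ext w c) K
      refine ⟨?_, h2⟩
      funext c j
      have h3 := h c
      rw [← floor_eq_iff_Ico (h2 c).1, ← num_digit (h2 c).1 (h2 c).2] at h3
      have := num_inj h3 j j.2
      simpa [ext, bK] using this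
  rw [this, Real.volume_pi_Ico_toReal]
  · have e : ∀ c : Fin d, ((num (ext w c) K : ℝ) + 1) / 2 ^ K - (num (ext w c) K : ℝ) / 2 ^ K =
        1 / 2 ^ K := fun c => by ring
    simp [e]
  · intro c
    exact div_le_div_of_nonneg_right (by linarith) (by positivity)

lemma integral_bK {d : ℕ} (K : ℕ) (v : Om d → ℝ) :
    ∫ x, v (ext (bK K x)) ∂(cube d) = Ex K v := by
  have h1 : ∫ x, v (ext (bK K x)) ∂(cube d) = ∫ w, v (ext w) ∂((cube d).map (bK K)) := by
    rw [integral_map (measurable_bK K).aemeasurable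
      (measurable_of_finite _).aestronglyMeasurable]
  rw [h1, integral_fintype Integrable.of_finite, Ex, Finset.sum_div]
  apply Finset.sum_congr rfl
  intro w _
  rw [fiber_measure, smul_eq_mul]; ring

lemma memLp_bK {d : ℕ} (p : ℝ≥0∞) (K : ℕ) (v : Om d → ℝ) :
    MemLp (fun x => v (ext (bK K x))) p (cube d) := by
  apply MemLp.of_bound (C := ∑ w : Fin d → Fin K → Bool, ‖v (ext w)‖)
  · exact ((measurable_of_finite (fun w : Fin d → Fin K → Bool => v (ext w))).comp
      (measurable_bK K)).aestronglyMeasurable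
  · apply Filter.Eventually.of_forall
    intro x
    exact Finset.single_le_sum (f := fun w : Fin d → Fin K → Bool => ‖v (ext w)‖)
      (fun _ _ => norm_nonneg _) (Finset.mem_univ _)

/-- step function attached to a function of digits -/
noncomputable def emb {d : ℕ} (p : ℝ≥0∞) (K : ℕ) (v : Om d → ℝ) : Lp ℝ p (cube d) :=
  (memLp_bK p K v).toLp _

lemma coe_emb {d : ℕ} (p : ℝ≥0∞) (K : ℕ) (v : Om d → ℝ) :
    emb p K v =ᵐ[cube d] fun x => v (ext (bK K x)) := MemLp.coeFn_toLp _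

lemma emb_add {d : ℕ} (p : ℝ≥0∞) (K : ℕ) (u v : Om d → ℝ) :
    emb p K (fun ω => u ω + v ω) = emb p K u + emb p K v := by
  unfold emb; rw [← MemLp.toLp_add]; rfl

lemma emb_sub {d : ℕ} (p : ℝ≥0∞) (K : ℕ) (u v : Om d → ℝ) :
    emb p K (fun ω => u ω - v ω) = emb p K u - emb p K v := by
  unfold emb; rw [← MemLp.toLp_sub]; rfl

lemma emb_smul {d : ℕ} (p : ℝ≥0∞) (K : ℕ) (c : ℝ) (u : Om d → ℝ) :
    emb p K (fun ω => c * u ω) = c • emb p K u := by
  unfold emb; rw [← MemLp.toLp_const_smul]; rfl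

lemma emb_zero {d : ℕ} (p : ℝ≥0∞) (K : ℕ) : emb (d := d) p K (fun _ => 0) = 0 := by
  have := emb_smul (d := d) p K 0 (fun _ => 0)
  simpa using this

lemma emb_sum {d : ℕ} (p : ℝ≥0∞) (K : ℕ) {ι : Type*} (S : Finset ι) (u : ι → Om d → ℝ) :
    emb p K (fun ω => ∑ i ∈ S, u i ω) = ∑ i ∈ S, emb p K (u i) := by
  classical
  induction S using Finset.induction_on with
  | empty => simpa using emb_zero p K
  | insert i S hi ih =>
    simp only [Finset.sum_insert hi]
    rw [emb_add, ih]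

lemma norm_emb {d : ℕ} {p : ℝ≥0∞} (hp0 : p ≠ 0) (hp : p ≠ ⊤) (K : ℕ) (v : Om d → ℝ) :
    ‖emb p K v‖ = (Ex K (fun ω => |v ω| ^ p.toReal)) ^ (p.toReal)⁻¹ := by
  unfold emb
  rw [Lp.norm_toLp, (memLp_bK p K v).eLpNorm_eq_integral_rpow_norm hp0 hp,
    ENNReal.toReal_ofReal (Real.rpow_nonneg (integral_nonneg fun _ => by positivity) _)]
  congr 1
  exact integral_bK K (fun ω => |v ω| ^ p.toReal)

lemma haarFun_eq (p : ℝ) (a i : ℕ) {x : ℝ} (h0 : 0 ≤ x) (hx1 : x < 1) :
    haarFun p a i x = h1 p (some (a, i)) (digit x) := by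
  unfold haarFun
  simp only [h1]
  have e0 : ((1 : ℝ) / 2 ^ a) ^ (-(1 / p)) = ((2 : ℝ) ^ a) ^ (1 / p) := by
    rw [Real.rpow_neg (by positivity), one_div ((2 : ℝ) ^ a), Real.inv_rpow (by positivity),
      inv_inv]
  have e1 : x ∈ Ico ((i : ℝ) / 2 ^ a) (((i : ℝ) + 1 / 2) / 2 ^ a) ↔
      num (digit x) (a + 1) = 2 * i := by
    rw [num_digit h0 hx1, floor_eq_iff_Ico h0]
    have : (i : ℝ) / 2 ^ a = ((2 * i : ℕ) : ℝ) / 2 ^ (a + 1) := by push_cast; field_simp; ring
    have h2 : ((i : ℝ) + 1 / 2) / 2 ^ a = (((2 * i : ℕ) : ℝ) + 1) / 2 ^ (a + 1) := by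
      push_cast; field_simp; ring
    rw [this, h2]
  have e2 : x ∈ Ico (((i : ℝ) + 1 / 2) / 2 ^ a) (((i : ℝ) + 1) / 2 ^ a) ↔
      num (digit x) (a + 1) = 2 * i + 1 := by
    rw [num_digit h0 hx1, floor_eq_iff_Ico h0]
    have : ((i : ℝ) + 1 / 2) / 2 ^ a = ((2 * i + 1 : ℕ) : ℝ) / 2 ^ (a + 1) := by
      push_cast; field_simp; ring
    have h2 : ((i : ℝ) + 1) / 2 ^ a = (((2 * i + 1 : ℕ) : ℝ) + 1) / 2 ^ (a + 1) := by
      push_cast; field_simp; ring
    rw [this, h2]
  rw [e0, indicator_apply, indicator_apply]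
  simp only [e1, e2, num]
  by_cases h : num (digit x) a = i
  · rw [ind_pos h, h]
    cases digit x a <;> simp [sg]
  · rw [ind_neg h, if_neg, if_neg]
    · simp
    · split_ifs <;> omega
    · split_ifs <;> omega

lemma psi_bK {d K : ℕ} (p : ℝ) {ι : Idx d} (hι : Valid K ι) (x : Fin d → ℝ) :
    psi p ι (ext (bK K x)) = ∏ c, h1 p (ι c) (digit (x c)) := by
  unfold psi
  apply Finset.prod_congr rfl
  intro c _
  apply h1_congr
  intro a i h j hj
  exact ext_bK K x c (lt_of_le_of_lt hj (hι c a i h).1)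

lemma emb_psi_mem {d K : ℕ} (p : ℝ≥0∞) {ι : Idx d} (hι : Valid K ι) :
    emb p K (psi p.toReal ι) ∈ haarDict d p := by
  refine ⟨fun c => match ι c with
    | none => fun _ => 1
    | some (a, i) => haarFun p.toReal a i, ?_, ?_⟩
  · intro c
    rcases h : ι c with _ | ⟨a, i⟩
    · left; simp only [h]
    · right; exact ⟨a, i, (hι c a i h).2, by simp only [h]⟩
  · filter_upwards [coe_emb p K (psi p.toReal ι), ae_cube d] with x hx hc
    rw [hx, psi_bK _ hι]
    apply Finset.prod_congr rfl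
    intro c _
    rcases h : ι c with _ | ⟨a, i⟩
    · simp only [h1]
    · simp only
      rw [haarFun_eq _ a i (hc c).1 (hc c).2]

lemma mem_dict {d : ℕ} {p : ℝ≥0∞} {g : Lp ℝ p (cube d)} (hg : g ∈ haarDict d p) :
    ∃ (ι : Idx d) (K0 : ℕ), Valid K0 ι ∧ ∀ K, Valid K ι → g = emb p K (psi p.toReal ι) := by
  obtain ⟨h, hh, hg⟩ := hg
  have : ∀ c, ∃ o : Option (ℕ × ℕ), (∀ a i, o = some (a, i) → i < 2 ^ a) ∧
      ∀ x : ℝ, 0 ≤ x → x < 1 → h c x = h1 p.toReal o (digit x) := by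
    intro c
    rcases hh c with h2 | ⟨a, i, hi, h2⟩
    · exact ⟨none, by simp, fun x _ _ => by rw [h2]; rfl⟩
    · refine ⟨some (a, i), ?_, fun x h0 hx1 => by rw [h2, haarFun_eq _ a i h0 hx1]⟩
      intro a' i' h3
      simp only [Option.some.injEq, Prod.mk.injEq] at h3
      rw [← h3.1, ← h3.2]; exact hi
  choose ι hι1 hι2 using this
  refine ⟨ι, (∑ c, ((ι c).getD (0, 0)).1) + 1, ?_, ?_⟩
  · intro c a i hc
    refine ⟨?_, hι1 c a i hc⟩
    have := Finset.single_le_sum (f := fun c => ((ι c).getD (0, 0)).1)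
      (fun _ _ => Nat.zero_le _) (Finset.mem_univ c)
    simp only [hc, Option.getD_some] at this
    omega
  · intro K hK
    apply Lp.ext
    filter_upwards [hg, coe_emb p K (psi p.toReal ι), ae_cube d] with x hx1 hx2 hc
    rw [hx1, hx2, psi_bK _ hK]
    exact Finset.prod_congr rfl fun c _ => hι2 c (x c) (hc c).1 (hc c).2

lemma Valid.mono {d K K' : ℕ} {ι : Idx d} (h : Valid K ι) (hK : K ≤ K') : Valid K' ι :=
  fun c a i hc => ⟨lt_of_lt_of_le (h c a i hc).1 hK, (h c a i hc).2⟩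

/-- truncation of digit arrays -/
def trunc {d : ℕ} (K : ℕ) (ω : Om d) : Om d := fun c j => if j < K then ω c j else false

lemma trunc_bK {d K K' : ℕ} (h : K ≤ K') (x : Fin d → ℝ) :
    trunc K (ext (bK K' x)) = ext (bK K x) := by
  funext c j
  by_cases hj : j < K
  · simp [trunc, ext, bK, hj, lt_of_lt_of_le hj h]
  · simp [trunc, ext, hj]

lemma trunc_f1 {d K : ℕ} (c : Fin d) {a : ℕ} (h : K ≤ a) (ω : Om d) :
    trunc K (f1 c a ω) = trunc K ω := by
  funext c' j
  by_cases hj : j < K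
  · simp only [trunc, hj, if_true]
    exact f1_ne c (by omega) ω c'
  · simp [trunc, hj]

section pairing
variable {d : ℕ} (p : ℝ≥0∞) [Fact (1 ≤ p)]

instance conj_fact : Fact (1 ≤ ENNReal.conjExponent p) := ⟨by
  unfold ENNReal.conjExponent; exact le_self_add⟩

/-- the functional `g ↦ ∫ w g` -/
noncomputable def Phi (K : ℕ) (w : Om d → ℝ) : Lp ℝ p (cube d) →L[ℝ] ℝ :=
  ((ContinuousLinearMap.mul ℝ ℝ).lpPairing (cube d) p (ENNReal.conjExponent p)).flip
    (emb (ENNReal.conjExponent p) K w)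

lemma Phi_apply (K : ℕ) (w : Om d → ℝ) (g : Lp ℝ p (cube d)) :
    Phi p K w g = ∫ x, w (ext (bK K x)) * g x ∂(cube d) := by
  unfold Phi
  rw [ContinuousLinearMap.flip_apply, ContinuousLinearMap.lpPairing_eq_integral]
  apply integral_congr_ae
  filter_upwards [coe_emb (ENNReal.conjExponent p) K w] with x hx
  rw [hx, ContinuousLinearMap.mul_apply', mul_comm]

lemma Phi_emb' {K K' : ℕ} (h : K ≤ K') (w v : Om d → ℝ) :
    Phi p K w (emb p K' v) = Ex K' (fun ω => w (trunc K ω) * v ω) := by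
  rw [Phi_apply, ← integral_bK]
  apply integral_congr_ae
  filter_upwards [coe_emb p K' v] with x hx
  rw [hx, trunc_bK h]

lemma Phi_emb (K : ℕ) (w v : Om d → ℝ) :
    Phi p K w (emb p K v) = Ex K (fun ω => w ω * v ω) := by
  rw [Phi_apply, ← integral_bK]
  apply integral_congr_ae
  filter_upwards [coe_emb p K v] with x hx
  rw [hx]

lemma Phi_le (K : ℕ) (w : Om d → ℝ) (g : Lp ℝ p (cube d)) :
    |Phi p K w g| ≤ ‖emb (ENNReal.conjExponent p) K w‖ * ‖g‖ := by
  have h1 := (ContinuousLinearMap.mul ℝ ℝ).norm_holder_apply_apply_le (r := 1) g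
    (emb (ENNReal.conjExponent p) K w)
  have h2 := L1.norm_integral_le ((ContinuousLinearMap.mul ℝ ℝ).holder 1 g
    (emb (ENNReal.conjExponent p) K w))
  rw [L1.integral_eq_integral, integral_congr_ae (ContinuousLinearMap.coeFn_holder _ _ _)] at h2
  unfold Phi
  rw [ContinuousLinearMap.flip_apply, ContinuousLinearMap.lpPairing_eq_integral,
    ← Real.norm_eq_abs]
  refine h2.trans (h1.trans ?_)
  have h3 : ‖ContinuousLinearMap.mul ℝ ℝ‖ ≤ 1 := ContinuousLinearMap.opNorm_mul_le ℝ ℝ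
  have h4 := mul_nonneg (norm_nonneg g) (norm_nonneg (emb (ENNReal.conjExponent p) K w))
  nlinarith

/-- value of the functional on a dictionary element -/
lemma Phi_dict (K : ℕ) (w : Om d → ℝ) {g : Lp ℝ p (cube d)} (hg : g ∈ haarDict d p) :
    Phi p K w g = 0 ∨ ∃ ι : Idx d, Valid K ι ∧ g = emb p K (psi p.toReal ι) := by
  obtain ⟨ι, K0, h0, h⟩ := mem_dict hg
  by_cases hv : Valid K ι
  · exact Or.inr ⟨ι, hv, h K hv⟩
  · left
    have h1 : Valid (max K K0) ι := h0.mono (le_max_right _ _)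
    rw [h _ h1, Phi_emb' p (le_max_left _ _)]
    unfold Valid at hv
    push Not at hv
    obtain ⟨c, a, i, hc, h2⟩ := hv
    have h3 : K ≤ a := by
      by_contra h4
      have := h2 (by omega)
      have := (h0 c a i hc).2
      omega
    apply (inv_f1 c (h1 c a i hc).1).odd
    intro ω
    rw [trunc_f1 c h3, psi_f1_odd _ ι c hc]; ring

end pairing

end Pool.Agent.Lib.MP_4a278a_an
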