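import Mathlib

set_option autoImplicit false

open MeasureTheory Set
open scoped ENNReal

namespace Pool.Agent.Lib.MP_4a278a_an

/-- The Haar function of the dyadic interval `I = [i/2^a, (i+1)/2^a]`, normalised in `L_p`:
`|I|^(-1/p) (1_{left half} - 1_{right half})`. -/
noncomputable def haarFun (p : ℝ) (a i : ℕ) (x : ℝ) : ℝ :=
  ((1 : ℝ) / 2 ^ a) ^ (-(1 / p)) *
    ((Ico ((i : ℝ) / 2 ^ a) (((i : ℝ) + 1 / 2) / 2 ^ a)).indicator (fun _ => (1 : ℝ)) x -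
      (Ico (((i : ℝ) + 1 / 2) / 2 ^ a) (((i : ℝ) + 1) / 2 ^ a)).indicator (fun _ => (1 : ℝ)) x)

/-- The univariate Haar system: the constant `1` and all Haar functions of dyadic
subintervals of `[0,1]`. -/
def haarSystem (p : ℝ) : Set (ℝ → ℝ) :=
  {h | h = (fun _ => 1) ∨ ∃ a i : ℕ, i < 2 ^ a ∧ h = haarFun p a i}

/-- Lebesgue measure on the unit cube `[0,1]^d`. -/
noncomputable def cube (d : ℕ) : Measure (Fin d → ℝ) := volume.restrict (Icc 0 1)

/-- The multivariate Haar system as a subset of `L_p([0,1]^d)`: all classes of products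
`h_1(x_1) ... h_d(x_d)` with every `h_j` in the univariate system. -/
def haarDict (d : ℕ) (p : ℝ≥0∞) : Set (Lp ℝ p (cube d)) :=
  {g | ∃ h : Fin d → ℝ → ℝ, (∀ j, h j ∈ haarSystem p.toReal) ∧
    g =ᵐ[cube d] fun x => ∏ j, h j (x j)}

/-- Error of best `m`-term approximation of `f` from the dictionary `D`. -/
noncomputable def bestErr {X : Type*} [NormedAddCommGroup X] [NormedSpace ℝ X]
    (D : Set X) (m : ℕ) (f : X) : ℝ :=
  sInf {r : ℝ | ∃ (A : Finset X) (c : X → ℝ), (A : Set X) ⊆ D ∧ A.card ≤ m ∧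
    r = ‖f - ∑ g ∈ A, c g • g‖}

/-- `f 0, f 1, ...` are the residuals and `φ 0, φ 1, ...` the chosen elements of a run of the
Weak Chebyshev Greedy Algorithm with weakness parameter `t` and dictionary `D`
(`φ m` is chosen at step `m + 1`). -/
def IsRun {X : Type*} [NormedAddCommGroup X] [NormedSpace ℝ X]
    (D : Set X) (t : ℝ) (φ f : ℕ → X) : Prop :=
  ∀ m : ℕ, (f m = 0 → f (m + 1) = 0) ∧ (f m ≠ 0 →
    φ m ∈ D ∧
    (∃ F : X →L[ℝ] ℝ, ‖F‖ = 1 ∧ F (f m) = ‖f m‖ ∧ ∀ g ∈ D, t * |F g| ≤ |F (φ m)|) ∧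
    f 0 - f (m + 1) ∈ Submodule.span ℝ (φ '' Iic m) ∧
    ∀ G ∈ Submodule.span ℝ (φ '' Iic m), ‖f (m + 1)‖ ≤ ‖f 0 - G‖)

/-- The Lebesgue-type inequality in the definition of an almost greedy basis, for one value of
the weakness parameter `t`. -/
def LebesgueIneq {X : Type*} [NormedAddCommGroup X] [NormedSpace ℝ X]
    (D : Set X) (t : ℝ) : Prop :=
  ∃ C₁ C₂ : ℝ, ∀ φ f : ℕ → X, IsRun D t φ f →
    ∀ m : ℕ, 1 ≤ m → ‖f ⌈C₁ * m⌉₊‖ ≤ C₂ * bestErr D m (f 0)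

end Pool.Agent.Lib.MP_4a278a_an
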