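import Mathlib

set_option autoImplicit false

namespace Pool.Agent.Lib.MP_4a278a_an

open Finset

/-- binary digit arrays -/
abbrev Om (d : ℕ) := Fin d → ℕ → Bool

/-- extension by `false` of a finite digit array -/
def ext {d K : ℕ} (w : Fin d → Fin K → Bool) : Om d :=
  fun c j => if h : j < K then w c ⟨j, h⟩ else false

/-- average over digit arrays of depth `K` -/
noncomputable def Ex {d : ℕ} (K : ℕ) (v : Om d → ℝ) : ℝ :=
  (∑ w : Fin d → Fin K → Bool, v (ext w)) / (Fintype.card (Fin d → Fin K → Bool) : ℝ)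

section basic
variable {d : ℕ} (K : ℕ)

lemma card_pos' : (0 : ℝ) < (Fintype.card (Fin d → Fin K → Bool) : ℝ) := by
  exact_mod_cast Fintype.card_pos

lemma Ex_add (u v : Om d → ℝ) : Ex K (fun ω => u ω + v ω) = Ex K u + Ex K v := by
  simp only [Ex, sum_add_distrib, add_div]

lemma Ex_sub (u v : Om d → ℝ) : Ex K (fun ω => u ω - v ω) = Ex K u - Ex K v := by
  simp only [Ex, sum_sub_distrib, sub_div]

lemma Ex_neg (u : Om d → ℝ) : Ex K (fun ω => - u ω) = - Ex K u := by
  simp only [Ex, sum_neg_distrib, neg_div]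

lemma Ex_mul (c : ℝ) (u : Om d → ℝ) : Ex K (fun ω => c * u ω) = c * Ex K u := by
  simp only [Ex, ← mul_sum, mul_div_assoc]

lemma Ex_mul' (c : ℝ) (u : Om d → ℝ) : Ex K (fun ω => u ω * c) = Ex K u * c := by
  rw [mul_comm, ← Ex_mul]; simp only [mul_comm]

lemma Ex_const (c : ℝ) : Ex (d := d) K (fun _ => c) = c := by
  have := card_pos' (d := d) K
  simp only [Ex, sum_const, card_univ, nsmul_eq_mul]
  field_simp

lemma Ex_zero : Ex (d := d) K (fun _ => 0) = 0 := Ex_const K 0

lemma Ex_sum {ι : Type*} (S : Finset ι) (u : ι → Om d → ℝ) :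
    Ex K (fun ω => ∑ i ∈ S, u i ω) = ∑ i ∈ S, Ex K (u i) := by
  simp only [Ex]
  rw [sum_comm, sum_div]

lemma Ex_mono {u v : Om d → ℝ} (h : ∀ ω, u ω ≤ v ω) : Ex K u ≤ Ex K v := by
  unfold Ex
  exact div_le_div_of_nonneg_right (sum_le_sum fun w _ => h _) (card_pos' K).le

lemma Ex_nonneg {u : Om d → ℝ} (h : ∀ ω, 0 ≤ u ω) : 0 ≤ Ex K u := by
  have := Ex_mono K (u := fun _ => 0) (v := u) h
  rwa [Ex_zero] at this

lemma Ex_congr {u v : Om d → ℝ} (h : ∀ ω, u ω = v ω) : Ex K u = Ex K v := by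
  have : u = v := funext h
  rw [this]

lemma abs_Ex_le {u v : Om d → ℝ} (h : ∀ ω, |u ω| ≤ v ω) : |Ex K u| ≤ Ex K v := by
  rw [abs_le]
  constructor
  · rw [← Ex_neg]
    exact Ex_mono K fun ω => (abs_le.1 (h ω)).1
  · exact Ex_mono K fun ω => (abs_le.1 (h ω)).2

end basic

/-- xor with a mask -/
def fl {d : ℕ} (M ω : Om d) : Om d := fun c j => xor (M c j) (ω c j)

/-- `T` preserves averages -/
def Inv {d : ℕ} (K : ℕ) (T : Om d → Om d) : Prop :=
  ∀ v : Om d → ℝ, Ex K (fun ω => v (T ω)) = Ex K v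

lemma inv_fl {d K : ℕ} (M : Om d) (hM : ∀ c j, M c j = true → j < K) : Inv K (fl M) := by
  intro v
  let e : (Fin d → Fin K → Bool) ≃ (Fin d → Fin K → Bool) :=
    Function.Involutive.toPerm (fun w c j => xor (M c j) (w c j)) (by
      intro w; funext c j; simp)
  have he : ∀ w, fl M (ext w) = ext (e w) := by
    intro w
    funext c j
    by_cases h : j < K
    · simp [fl, ext, h, e, Function.Involutive.toPerm]
    · have : M c j = false := by
        cases hh : M c j
        · rfl
        · exact absurd (hM c j hh) h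
      simp [fl, ext, h, this]
  unfold Ex
  congr 1
  simp only [he]
  exact Equiv.sum_comp e (fun w => v (ext w))

lemma Inv.comp {d K : ℕ} {T S : Om d → Om d} (hT : Inv K T) (hS : Inv K S) :
    Inv K (fun ω => T (S ω)) := by
  intro v
  rw [hS (fun ω => v (T ω)), hT v]

lemma Inv.odd {d K : ℕ} {T : Om d → Om d} (hT : Inv K T) {v : Om d → ℝ}
    (h : ∀ ω, v (T ω) = - v ω) : Ex K v = 0 := by
  have h1 := hT v
  rw [Ex_congr K h, Ex_neg] at h1
  linarith

lemma Inv.symm' {d K : ℕ} {T : Om d → Om d} (hT : Inv K T) (v : Om d → ℝ) :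
    Ex K v = (1 / 2) * Ex K (fun ω => v ω + v (T ω)) := by
  rw [Ex_add, hT v]; ring

/-- flip one digit -/
def f1 {d : ℕ} (c : Fin d) (j : ℕ) : Om d → Om d :=
  fl (fun c' j' => decide (c' = c ∧ j' = j))

lemma inv_f1 {d K : ℕ} (c : Fin d) {j : ℕ} (hj : j < K) : Inv K (f1 c j) := by
  apply inv_fl
  intro c' j' h
  simp only [decide_eq_true_eq] at h
  rw [h.2]; exact hj

lemma f1_same {d : ℕ} (c : Fin d) (j : ℕ) (ω : Om d) : f1 c j ω c j = !(ω c j) := by
  simp [f1, fl]

lemma f1_ne {d : ℕ} (c : Fin d) {j j' : ℕ} (h : j' ≠ j) (ω : Om d) (c' : Fin d) :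
    f1 c j ω c' j' = ω c' j' := by
  simp [f1, fl, h]

lemma f1_other {d : ℕ} {c c' : Fin d} (h : c' ≠ c) (j : ℕ) (ω : Om d) :
    f1 c j ω c' = ω c' := by
  funext j'
  simp [f1, fl, h]

/-- sign of a digit -/
def sg (b : Bool) : ℝ := if b then -1 else 1

@[simp] lemma sg_not (b : Bool) : sg (!b) = - sg b := by cases b <;> simp [sg]

lemma sg_sq (b : Bool) : sg b * sg b = 1 := by cases b <;> simp [sg]

lemma abs_sg (b : Bool) : |sg b| = 1 := by cases b <;> simp [sg]

lemma sg_cases (b : Bool) : sg b = 1 ∨ sg b = -1 := by cases b <;> simp [sg]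

/-- number formed by the first `a` digits -/
def num (z : ℕ → Bool) : ℕ → ℕ
  | 0 => 0
  | a + 1 => 2 * num z a + (if z a then 1 else 0)

lemma num_lt (z : ℕ → Bool) (a : ℕ) : num z a < 2 ^ a := by
  induction a with
  | zero => simp [num]
  | succ a ih => rw [num, pow_succ]; split_ifs <;> omega

lemma num_congr {z z' : ℕ → Bool} {a : ℕ} (h : ∀ j < a, z j = z' j) : num z a = num z' a := by
  induction a with
  | zero => rfl
  | succ a ih =>
    rw [num, num, ih (fun j hj => h j (by omega)), h a (by omega)]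

lemma num_inj {z z' : ℕ → Bool} {a : ℕ} (h : num z a = num z' a) : ∀ j < a, z j = z' j := by
  induction a with
  | zero => intro j hj; omega
  | succ a ih =>
    rw [num, num] at h
    have h1 : num z a = num z' a := by split_ifs at h <;> omega
    have h2 : z a = z' a := by
      cases h3 : z a <;> cases h4 : z' a <;> simp [h3, h4] at h ⊢ <;> omega
    intro j hj
    rcases Nat.lt_succ_iff_lt_or_eq.1 hj with h5 | h5
    · exact ih h1 j h5
    · rw [h5]; exact h2

lemma num_div (z : ℕ → Bool) (a s : ℕ) : num z (a + s) / 2 ^ s = num z a := by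
  induction s with
  | zero => simp
  | succ s ih =>
    rw [← add_assoc, num, pow_succ', ← Nat.div_div_eq_div_mul]
    have : (2 * num z (a + s) + if z (a + s) = true then 1 else 0) / 2 = num z (a + s) := by
      split_ifs <;> omega
    rw [this, ih]

lemma num_first (z : ℕ → Bool) (a : ℕ) : z 0 = true ↔ 2 ^ a ≤ num z (a + 1) := by
  have h1 := num_div z 1 a
  have h2 : num z 1 = if z 0 then 1 else 0 := by simp [num]
  rw [add_comm 1 a] at h1
  have hp : 0 < 2 ^ a := by positivity
  constructor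
  · intro h
    rw [h2, if_pos h] at h1
    have := Nat.div_mul_le_self (num z (a + 1)) (2 ^ a)
    rw [h1] at this; omega
  · intro h
    by_contra hz
    rw [h2, if_neg hz] at h1
    have := (Nat.div_eq_zero_iff).1 h1
    omega

lemma num_f1 {d : ℕ} (c : Fin d) {j a : ℕ} (h : a ≤ j) (ω : Om d) (c' : Fin d) :
    num (f1 c j ω c') a = num (ω c') a :=
  num_congr fun j' hj' => f1_ne c (by omega) ω c'

/-- indicator of a proposition -/
noncomputable def ind (P : Prop) : ℝ := by classical exact if P then 1 else 0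

lemma ind_pos {P : Prop} (h : P) : ind P = 1 := by simp [ind, h]
lemma ind_neg {P : Prop} (h : ¬ P) : ind P = 0 := by simp [ind, h]
lemma ind_nonneg (P : Prop) : 0 ≤ ind P := by unfold ind; split_ifs <;> norm_num
lemma ind_le_one (P : Prop) : ind P ≤ 1 := by unfold ind; split_ifs <;> norm_num
lemma ind_congr {P Q : Prop} (h : P ↔ Q) : ind P = ind Q := by rw [propext h]

lemma half_step {d K : ℕ} (c : Fin d) {a : ℕ} (ha : a < K) (i : ℕ) (w : Om d → ℝ)
    (hw : ∀ ω, w (f1 c a ω) = w ω) :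
    Ex K (fun ω => ind (num (ω c) (a + 1) = i) * w ω) =
      (1 / 2) * Ex K (fun ω => ind (num (ω c) a = i / 2) * w ω) := by
  rw [(inv_f1 c ha).symm']
  congr 1
  apply Ex_congr
  intro ω
  rw [hw, ← add_mul]
  congr 1
  rw [num, num, num_f1 c le_rfl, f1_same]
  by_cases h : num (ω c) a = i / 2
  · rw [ind_pos h]
    cases hz : ω c a
    · simp only [Bool.false_eq_true, if_false, Bool.not_false, if_true]
      rcases Nat.mod_two_eq_zero_or_one i with h2 | h2
      · rw [ind_pos (by omega), ind_neg (by omega)]; norm_num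
      · rw [ind_neg (by omega), ind_pos (by omega)]; norm_num
    · simp only [Bool.false_eq_true, if_false, Bool.not_true, if_true]
      rcases Nat.mod_two_eq_zero_or_one i with h2 | h2
      · rw [ind_neg (by omega), ind_pos (by omega)]; norm_num
      · rw [ind_pos (by omega), ind_neg (by omega)]; norm_num
  · rw [ind_neg h, ind_neg, ind_neg]
    · norm_num
    · split_ifs <;> omega
    · split_ifs <;> omega

lemma half_iter {d K : ℕ} (c : Fin d) (a s : ℕ) (ha : a + s ≤ K) (i : ℕ) (w : Om d → ℝ)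
    (hw : ∀ r, a ≤ r → r < a + s → ∀ ω, w (f1 c r ω) = w ω) :
    Ex K (fun ω => ind (num (ω c) (a + s) = i) * w ω) =
      (1 / 2) ^ s * Ex K (fun ω => ind (num (ω c) a = i / 2 ^ s) * w ω) := by
  induction s generalizing i with
  | zero => simp
  | succ s ih =>
    rw [← add_assoc, half_step c (by omega) i w (hw (a + s) (by omega) (by omega)),
      ih (by omega) (i / 2) (fun r h1 h2 => hw r h1 (by omega)), Nat.div_div_eq_div_mul,
      pow_succ' 2 s, pow_succ']
    ring

lemma half_full {d K : ℕ} (c : Fin d) {a : ℕ} (ha : a ≤ K) {i : ℕ} (hi : i < 2 ^ a)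
    (w : Om d → ℝ) (hw : ∀ r, r < a → ∀ ω, w (f1 c r ω) = w ω) :
    Ex K (fun ω => ind (num (ω c) a = i) * w ω) = (1 / 2) ^ a * Ex K w := by
  have := half_iter (K := K) c 0 a (by omega) i w (fun r _ h => hw r (by omega))
  rw [zero_add] at this
  rw [this]
  congr 1
  apply Ex_congr
  intro ω
  rw [ind_pos, one_mul]
  rw [Nat.div_eq_of_lt hi]; rfl

lemma half_le {d K : ℕ} (c : Fin d) (a s : ℕ) (ha : a + s ≤ K) (i : ℕ) (w : Om d → ℝ)
    (hw0 : ∀ ω, 0 ≤ w ω)
    (hw : ∀ r, a ≤ r → r < a + s → ∀ ω, w (f1 c r ω) = w ω) :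
    Ex K (fun ω => ind (num (ω c) (a + s) = i) * w ω) ≤ (1 / 2) ^ s * Ex K w := by
  rw [half_iter c a s ha i w hw]
  apply mul_le_mul_of_nonneg_left _ (by positivity)
  apply Ex_mono
  intro ω
  have := ind_le_one (num (ω c) a = i / 2 ^ s)
  have := hw0 ω
  nlinarith

/-- index of a tensor Haar function -/
abbrev Idx (d : ℕ) := Fin d → Option (ℕ × ℕ)

/-- univariate Haar function on digits -/
noncomputable def h1 (p : ℝ) : Option (ℕ × ℕ) → (ℕ → Bool) → ℝ
  | none, _ => 1
  | some (a, i), z => ind (num z a = i) * (((2 : ℝ) ^ a) ^ (1 / p) * sg (z a))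

/-- tensor Haar function on digits -/
noncomputable def psi {d : ℕ} (p : ℝ) (ι : Idx d) (ω : Om d) : ℝ := ∏ c, h1 p (ι c) (ω c)

/-- index with all levels below `K` -/
def Valid {d : ℕ} (K : ℕ) (ι : Idx d) : Prop :=
  ∀ c a i, ι c = some (a, i) → a < K ∧ i < 2 ^ a

lemma h1_congr (p : ℝ) (o : Option (ℕ × ℕ)) {z z' : ℕ → Bool}
    (h : ∀ a i, o = some (a, i) → ∀ j ≤ a, z j = z' j) : h1 p o z = h1 p o z' := by
  rcases o with _ | ⟨a, i⟩
  · rfl
  · simp only [h1]
    rw [num_congr (fun j hj => h a i rfl j hj.le), h a i rfl a le_rfl]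

/-- flipping a digit finer than the level leaves `psi` unchanged -/
lemma psi_f1_even {d : ℕ} (p : ℝ) (ι : Idx d) (c : Fin d) (j : ℕ)
    (h : ∀ a i, ι c = some (a, i) → a < j) (ω : Om d) : psi p ι (f1 c j ω) = psi p ι ω := by
  unfold psi
  apply prod_congr rfl
  intro c' _
  by_cases hc : c' = c
  · subst hc
    apply h1_congr
    intro a i hι j' hj'
    have := h a i hι
    exact f1_ne c' (by omega) ω c'
  · rw [f1_other hc]

/-- flipping the digit at the level negates `psi` -/
lemma psi_f1_odd {d : ℕ} (p : ℝ) (ι : Idx d) (c : Fin d) {a i : ℕ}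
    (h : ι c = some (a, i)) (ω : Om d) : psi p ι (f1 c a ω) = - psi p ι ω := by
  unfold psi
  rw [← mul_prod_erase univ _ (mem_univ c), ← mul_prod_erase univ (fun c => h1 p (ι c) (ω c))
    (mem_univ c), ← neg_mul]
  congr 1
  · rw [h]
    simp only [h1]
    rw [num_f1 c le_rfl, f1_same, sg_not]; ring
  · apply prod_congr rfl
    intro c' hc'
    rw [f1_other (ne_of_mem_erase hc')]

lemma psi_eq_zero {d : ℕ} (p : ℝ) (ι : Idx d) (c : Fin d) {a i : ℕ}
    (h : ι c = some (a, i)) (ω : Om d) (hn : num (ω c) a ≠ i) : psi p ι ω = 0 := by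
  unfold psi
  apply prod_eq_zero (mem_univ c)
  rw [h]; simp only [h1]; rw [ind_neg hn, zero_mul]

lemma psi_orth {d K : ℕ} (p q : ℝ) {ι ι' : Idx d} (hι : Valid K ι) (hι' : Valid K ι')
    (hne : ι ≠ ι') : Ex K (fun ω => psi p ι ω * psi q ι' ω) = 0 := by
  obtain ⟨c, hc⟩ := Function.ne_iff.1 hne
  rcases h1' : ι c with _ | ⟨a, i⟩ <;> rcases h2' : ι' c with _ | ⟨a', i'⟩
  · exact absurd (h1'.trans h2'.symm) hc
  · apply (inv_f1 c (hι' c a' i' h2').1).odd
    intro ω
    rw [psi_f1_odd q ι' c h2', psi_f1_even p ι c a' (by simp [h1'])]; ring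
  · apply (inv_f1 c (hι c a i h1').1).odd
    intro ω
    rw [psi_f1_odd p ι c h1', psi_f1_even q ι' c a (by simp [h2'])]; ring
  · rcases lt_trichotomy a a' with h | h | h
    · apply (inv_f1 c (hι' c a' i' h2').1).odd
      intro ω
      rw [psi_f1_odd q ι' c h2', psi_f1_even p ι c a' (by
        intro a1 i1 h3; rw [h1'] at h3; simp only [Option.some.injEq, Prod.mk.injEq] at h3
        omega)]; ring
    · subst h
      have hii : i ≠ i' := by
        intro h; subst h; exact hc (h1'.trans h2'.symm)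
      rw [← Ex_zero (d := d) K]
      apply Ex_congr
      intro ω
      by_cases h3 : num (ω c) a = i
      · rw [psi_eq_zero q ι' c h2' ω (by omega), mul_zero]
      · rw [psi_eq_zero p ι c h1' ω h3, zero_mul]
    · apply (inv_f1 c (hι c a i h1').1).odd
      intro ω
      rw [psi_f1_odd p ι c h1', psi_f1_even q ι' c a (by
        intro a1 i1 h3; rw [h2'] at h3; simp only [Option.some.injEq, Prod.mk.injEq] at h3
        omega)]; ring

lemma abs_h1_rpow {p : ℝ} (hp : 0 < p) (a i : ℕ) (z : ℕ → Bool) :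
    |h1 p (some (a, i)) z| ^ p = ind (num z a = i) * 2 ^ a := by
  simp only [h1]
  by_cases h : num z a = i
  · rw [ind_pos h, one_mul, one_mul, abs_mul, abs_sg, mul_one, abs_of_nonneg (by positivity),
      ← Real.rpow_mul (by positivity), one_div_mul_cancel hp.ne', Real.rpow_one]
  · rw [ind_neg h, zero_mul, zero_mul, abs_zero, Real.zero_rpow hp.ne']

lemma psi_norm {d K : ℕ} {p : ℝ} (hp : 0 < p) {ι : Idx d} (hι : Valid K ι) :
    Ex K (fun ω => |psi p ι ω| ^ p) = 1 := by
  have key : ∀ S : Finset (Fin d),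
      Ex K (fun ω : Om d => ∏ c ∈ S, |h1 p (ι c) (ω c)| ^ p) = 1 := by
    intro S
    induction S using Finset.induction_on with
    | empty => simp [Ex_const]
    | insert c S hc ih =>
      simp only [prod_insert hc]
      rcases h : ι c with _ | ⟨a, i⟩
      · simp only [h1, abs_one, Real.one_rpow, one_mul]
        exact ih
      · simp only [abs_h1_rpow hp, mul_assoc]
        rw [half_full c (hι c a i h).1.le (hι c a i h).2, Ex_mul, ih]
        · simp
        · intro r _ ω
          congr 1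
          apply prod_congr rfl
          intro c' hc'
          rw [f1_other (by rintro rfl; exact hc hc')]
  rw [← key univ]
  apply Ex_congr
  intro ω
  unfold psi
  rw [abs_prod, Real.finsetProd_rpow _ _ (fun _ _ => abs_nonneg _)]

lemma valid_finite (d K : ℕ) : {ι : Idx d | Valid K ι}.Finite := by
  have h : (Set.univ.pi (fun _ : Fin d =>
      (insert none (some '' (Set.Iio K ×ˢ Set.Iio (2 ^ K))) : Set (Option (ℕ × ℕ))))).Finite := by
    apply Set.Finite.pi
    intro _
    exact Set.Finite.insert _ (Set.Finite.image _ ((Set.finite_Iio K).prod (Set.finite_Iio _)))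
  apply h.subset
  intro ι hι c _
  rcases h : ι c with _ | ⟨a, i⟩
  · simp
  · right
    refine ⟨(a, i), ⟨(hι c a i h).1, ?_⟩, rfl⟩
    have h1 := hι c a i h
    exact lt_of_lt_of_le h1.2 (Nat.pow_le_pow_right (by norm_num) h1.1.le)

end Pool.Agent.Lib.MP_4a278a_an
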