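import Pool.Agent.Lib.MP_4a278a_an.Defs

set_option autoImplicit false

open Set
open scoped RealInnerProductSpace

namespace Pool.Agent.Lib.MP_4a278a_an

section general
variable {X : Type*} [NormedAddCommGroup X] [NormedSpace ℝ X]

lemma bestErr_nonneg (D : Set X) (m : ℕ) (f : X) : 0 ≤ bestErr D m f := by
  apply Real.sInf_nonneg
  rintro r ⟨A, c, -, -, rfl⟩
  exact norm_nonneg _

lemma bestErr_le (D : Set X) (m : ℕ) (f : X) (A : Finset X) (hA : (A : Set X) ⊆ D)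
    (hm : A.card ≤ m) (G : X) (hG : G ∈ Submodule.span ℝ (A : Set X)) :
    bestErr D m f ≤ ‖f - G‖ := by
  obtain ⟨c, -, hc⟩ := Submodule.mem_span_finset.1 hG
  apply csInf_le
  · refine ⟨0, ?_⟩
    rintro r ⟨A, c, -, -, rfl⟩
    exact norm_nonneg _
  · exact ⟨A, c, hA, hm, by rw [hc]⟩

lemma le_mul_bestErr (D : Set X) (m : ℕ) (f : X) (x C : ℝ) (hC : 0 < C)
    (h : ∀ (A : Finset X) (c : X → ℝ), (A : Set X) ⊆ D → A.card ≤ m →
      x ≤ C * ‖f - ∑ g ∈ A, c g • g‖) : x ≤ C * bestErr D m f := by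
  rw [← div_le_iff₀' hC]
  apply le_csInf
  · exact ⟨_, ∅, fun _ => 0, by simp, by simp, rfl⟩
  · rintro r ⟨A, c, hA, hm, rfl⟩
    rw [div_le_iff₀' hC]
    exact h A c hA hm

end general

section hilbert
variable {X : Type*} [NormedAddCommGroup X] [InnerProductSpace ℝ X]

lemma inner_sum_dict {D : Set X} (hn : ∀ g ∈ D, ‖g‖ = 1)
    (ho : ∀ g ∈ D, ∀ g' ∈ D, g ≠ g' → ⟪g, g'⟫ = 0) (S : Finset X) (hS : (S : Set X) ⊆ D)
    (a : X → ℝ) {g : X} (hg : g ∈ S) : ⟪∑ x ∈ S, a x • x, g⟫ = a g := by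
  rw [sum_inner, Finset.sum_eq_single_of_mem g hg]
  · rw [real_inner_smul_left, real_inner_self_eq_norm_sq, hn g (hS hg)]; ring
  · intro x hx hne
    rw [real_inner_smul_left, ho x (hS hx) g (hS hg) hne, mul_zero]

lemma inner_sum_dict' {D : Set X}
    (ho : ∀ g ∈ D, ∀ g' ∈ D, g ≠ g' → ⟪g, g'⟫ = 0) (S : Finset X) (hS : (S : Set X) ⊆ D)
    (a : X → ℝ) {g : X} (hgD : g ∈ D) (hg : g ∉ S) : ⟪∑ x ∈ S, a x • x, g⟫ = 0 := by
  rw [sum_inner]
  apply Finset.sum_eq_zero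
  intro x hx
  rw [real_inner_smul_left, ho x (hS hx) g hgD (by rintro rfl; exact hg hx), mul_zero]

lemma norm_sq_sum_dict {D : Set X} (hn : ∀ g ∈ D, ‖g‖ = 1)
    (ho : ∀ g ∈ D, ∀ g' ∈ D, g ≠ g' → ⟪g, g'⟫ = 0) (S : Finset X) (hS : (S : Set X) ⊆ D)
    (a : X → ℝ) : ‖∑ x ∈ S, a x • x‖ ^ 2 = ∑ x ∈ S, a x ^ 2 := by
  rw [← real_inner_self_eq_norm_sq]
  conv_lhs => rw [inner_sum]
  apply Finset.sum_congr rfl
  intro g hg
  rw [real_inner_smul_right, inner_sum_dict hn ho S hS a hg]; ring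

lemma bessel_dict {D : Set X} (hn : ∀ g ∈ D, ‖g‖ = 1)
    (ho : ∀ g ∈ D, ∀ g' ∈ D, g ≠ g' → ⟪g, g'⟫ = 0) (S : Finset X) (hS : (S : Set X) ⊆ D)
    (e : X) : ∑ x ∈ S, ⟪e, x⟫ ^ 2 ≤ ‖e‖ ^ 2 := by
  have h1 := norm_sq_sum_dict hn ho S hS (fun x => ⟪e, x⟫)
  have h2 : ⟪e, ∑ x ∈ S, ⟪e, x⟫ • x⟫ = ∑ x ∈ S, ⟪e, x⟫ ^ 2 := by
    rw [inner_sum]
    apply Finset.sum_congr rfl
    intro g _
    rw [real_inner_smul_right]; ring
  have h3 := norm_sub_sq_real e (∑ x ∈ S, ⟪e, x⟫ • x)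
  have h4 := sq_nonneg ‖e - ∑ x ∈ S, ⟪e, x⟫ • x‖
  rw [h1, h2] at h3
  linarith

lemma inner_eq_zero_of_min (f v : X) (h : ∀ s : ℝ, ‖f‖ ≤ ‖f - s • v‖) : ⟪f, v⟫ = 0 := by
  set a := ⟪f, v⟫ with ha
  set b := ‖v‖ ^ 2 with hb
  have hb0 : 0 ≤ b := by positivity
  have h1 : ∀ s : ℝ, 0 ≤ -2 * s * a + s ^ 2 * b := by
    intro s
    have h2 := pow_le_pow_left₀ (norm_nonneg _) (h s) 2
    rw [norm_sub_sq_real, real_inner_smul_right, norm_smul, mul_pow, Real.norm_eq_abs,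
      sq_abs] at h2
    linarith
  have h3 := h1 (a / (b + 1))
  have h4 : -2 * (a / (b + 1)) * a + (a / (b + 1)) ^ 2 * b = - (a ^ 2 * (b + 2) / (b + 1) ^ 2) := by
    field_simp; ring
  rw [h4, neg_nonneg, div_nonpos_iff] at h3
  have h5 : 0 < (b + 1) ^ 2 := by positivity
  rcases h3 with h3 | h3
  · linarith [h3.2]
  · have : a ^ 2 ≤ 0 := by nlinarith [h3.1, sq_nonneg a]
    exact pow_eq_zero_iff (two_ne_zero) |>.1 (le_antisymm this (sq_nonneg a))

lemma norming_eq [CompleteSpace X] (F : X →L[ℝ] ℝ) (f : X) (hf : f ≠ 0) (h1 : ‖F‖ = 1)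
    (h2 : F f = ‖f‖) (g : X) : F g * ‖f‖ = ⟪f, g⟫ := by
  set y := (InnerProductSpace.toDual ℝ X).symm F with hy
  have e1 : ∀ x, ⟪y, x⟫ = F x := fun x => InnerProductSpace.toDual_symm_apply
  have e2 : ‖y‖ = 1 := by rw [hy, LinearIsometryEquiv.norm_map]; exact h1
  have e3 : ‖f‖ • y = f := by
    rw [← sub_eq_zero, ← norm_eq_zero, ← pow_eq_zero_iff two_ne_zero, norm_sub_sq_real,
      real_inner_smul_left, e1, h2, norm_smul, e2, norm_norm]
    ring
  have _ := hf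
  rw [← e1, mul_comm, ← real_inner_smul_left, e3]

theorem hilbert_run [CompleteSpace X] (D : Set X) (hn : ∀ g ∈ D, ‖g‖ = 1)
    (ho : ∀ g ∈ D, ∀ g' ∈ D, g ≠ g' → ⟪g, g'⟫ = 0) (t : ℝ) (ht0 : 0 < t) (ht1 : t ≤ 1)
    (φ f : ℕ → X) (hrun : IsRun D t φ f) (m : ℕ) :
    ‖f m‖ ≤ (1 + 2 / t) * bestErr D m (f 0) := by
  classical
  have hC : 0 < 1 + 2 / t := by positivity
  by_cases hz : ∃ k < m, f k = 0
  · obtain ⟨k, hk, h0⟩ := hz
    have : ∀ j, f (k + j) = 0 := by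
      intro j
      induction j with
      | zero => exact h0
      | succ j ih => exact (hrun (k + j)).1 ih
    have h1 := this (m - k)
    rw [show k + (m - k) = m by omega] at h1
    rw [h1, norm_zero]
    exact mul_nonneg hC.le (bestErr_nonneg _ _ _)
  push Not at hz
  have hD : ∀ k < m, φ k ∈ D := fun k hk => ((hrun k).2 (hz k hk)).1
  have hP : ∀ k ≤ m, f 0 - f k ∈ Submodule.span ℝ (φ '' Iio k) ∧
      ∀ G ∈ Submodule.span ℝ (φ '' Iio k), ‖f k‖ ≤ ‖f 0 - G‖ := by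
    intro k hk
    rcases k with _ | k
    · constructor
      · simp
      · intro G hG
        have : G = 0 := by simpa using hG
        simp [this]
    · have : Iio (k + 1) = Iic k := by ext j; simp
      rw [this]
      exact ((hrun k).2 (hz k (by omega))).2.2
  have horth : ∀ k ≤ m, ∀ v ∈ Submodule.span ℝ (φ '' Iio k), ⟪f k, v⟫ = 0 := by
    intro k hk v hv
    apply inner_eq_zero_of_min
    intro s
    have := (hP k hk).2 (f 0 - f k + s • v)
      (Submodule.add_mem _ (hP k hk).1 (Submodule.smul_mem _ s hv))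
    rwa [show f 0 - (f 0 - f k + s • v) = f k - s • v by abel] at this
  have hkeep : ∀ k ≤ m, ∀ g ∈ D, g ∉ φ '' Iio k → ⟪f k, g⟫ = ⟪f 0, g⟫ := by
    intro k hk g hg hng
    have : ∀ v ∈ Submodule.span ℝ (φ '' Iio k), ⟪v, g⟫ = 0 := by
      intro v hv
      induction hv using Submodule.span_induction with
      | mem x hx =>
        obtain ⟨j, hj, rfl⟩ := hx
        exact ho _ (hD j (lt_of_lt_of_le hj hk)) g hg (by rintro rfl; exact hng ⟨j, hj, rfl⟩)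
      | zero => simp
      | add x y _ _ hx hy => rw [inner_add_left, hx, hy, add_zero]
      | smul a x _ hx => rw [real_inner_smul_left, hx, mul_zero]
    have h1 := this _ (hP k hk).1
    rw [inner_sub_left] at h1
    linarith
  have hsel : ∀ k < m, ∀ g ∈ D, t * |⟪f k, g⟫| ≤ |⟪f k, φ k⟫| := by
    intro k hk g hg
    obtain ⟨F, h1, h2, h3⟩ := ((hrun k).2 (hz k hk)).2.1
    rw [← norming_eq F _ (hz k hk) h1 h2, ← norming_eq F _ (hz k hk) h1 h2, abs_mul, abs_mul,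
      ← mul_assoc]
    exact mul_le_mul_of_nonneg_right (h3 g hg) (abs_nonneg _)
  apply le_mul_bestErr D m (f 0) _ _ hC
  intro L c hL hLm
  set e := f 0 - ∑ g ∈ L, c g • g with he
  set A : Finset X := (Finset.range m).image φ with hA
  have hAc : (A : Set X) = φ '' Iio m := by
    rw [hA, Finset.coe_image, Finset.coe_range]
  have hAD : (A : Set X) ⊆ D := by
    rw [hAc]; rintro _ ⟨j, hj, rfl⟩; exact hD j hj
  have hR : ((L \ A : Finset X) : Set X) ⊆ D := fun x hx => hL (Finset.mem_sdiff.1 hx).1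
  have hR' : ((A \ L : Finset X) : Set X) ⊆ D := fun x hx => hAD (Finset.mem_sdiff.1 hx).1
  -- main estimate
  have key : t ^ 2 * ∑ g ∈ L \ A, ⟪f 0, g⟫ ^ 2 ≤ ‖e‖ ^ 2 := by
    rcases (L \ A).eq_empty_or_nonempty with h0 | hne
    · rw [h0]; simp
    obtain ⟨g0, hg0, hmax⟩ := Finset.exists_max_image (L \ A) (fun g => |⟪f 0, g⟫|) hne
    set M := |⟪f 0, g0⟫| with hM
    have hsum : ∑ g ∈ L \ A, ⟪f 0, g⟫ ^ 2 ≤ (L \ A).card * M ^ 2 := by
      rw [← nsmul_eq_mul]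
      apply Finset.sum_le_card_nsmul
      intro g hg
      rw [← sq_abs]
      exact pow_le_pow_left₀ (abs_nonneg _) (hmax g hg) 2
    rcases (abs_nonneg ⟪f 0, g0⟫).eq_or_lt with hM0 | hM0
    · rw [← hM] at hM0
      rw [← hM0] at hsum
      have := mul_le_mul_of_nonneg_left hsum (sq_nonneg t)
      have h2 := sq_nonneg ‖e‖
      simp only [ne_eq, OfNat.ofNat_ne_zero, not_false_eq_true, zero_pow, mul_zero] at this
      linarith
    rw [← hM] at hM0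
    have hg0A : ∀ k ≤ m, g0 ∉ φ '' Iio k := by
      rintro k hk ⟨j, hj, h⟩
      apply (Finset.mem_sdiff.1 hg0).2
      rw [← Finset.mem_coe, hAc]
      exact ⟨j, lt_of_lt_of_le hj hk, h⟩
    have hbig : ∀ k < m, t * M ≤ |⟪f k, φ k⟫| := by
      intro k hk
      have := hsel k hk g0 (hR hg0)
      rwa [hkeep k hk.le g0 (hR hg0) (hg0A k hk.le)] at this
    have hnew : ∀ k < m, φ k ∉ φ '' Iio k := by
      intro k hk hmem
      have h1 := hbig k hk
      rw [horth k hk.le _ (Submodule.subset_span hmem), abs_zero] at h1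
      have := mul_pos ht0 hM0
      linarith
    have hinj : Set.InjOn φ (Finset.range m : Set ℕ) := by
      intro i hi j hj hij
      simp only [Finset.coe_range, mem_Iio] at hi hj
      rcases lt_trichotomy i j with h | h | h
      · exact absurd ⟨i, h, hij⟩ (hnew j hj)
      · exact h
      · exact absurd ⟨j, h, hij.symm⟩ (hnew i hi)
    have hcard : A.card = m := by rw [hA, Finset.card_image_of_injOn hinj, Finset.card_range]
    have hcard2 : (L \ A).card ≤ (A \ L).card := by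
      have h1 := Finset.card_sdiff_add_card_inter L A
      have h2 := Finset.card_sdiff_add_card_inter A L
      rw [Finset.inter_comm] at h2
      omega
    have hlow : (A \ L).card * (t * M) ^ 2 ≤ ∑ g ∈ A \ L, ⟪e, g⟫ ^ 2 := by
      rw [← nsmul_eq_mul]
      apply Finset.card_nsmul_le_sum
      intro g hg
      have hg1 := (Finset.mem_sdiff.1 hg).1
      rw [← Finset.mem_coe, hAc] at hg1
      obtain ⟨k, hk, rfl⟩ := hg1
      have h1 := hbig k hk
      rw [hkeep k (le_of_lt hk) _ (hD k hk) (hnew k hk)] at h1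
      rw [he, inner_sub_left, inner_sum_dict' ho L hL c (hD k hk) (Finset.mem_sdiff.1 hg).2,
        sub_zero, ← sq_abs ⟪f 0, φ k⟫]
      exact pow_le_pow_left₀ (mul_pos ht0 hM0).le h1 2
    have hb := bessel_dict hn ho (A \ L) hR' e
    have hc3 : ((L \ A).card : ℝ) ≤ (A \ L).card := by exact_mod_cast hcard2
    calc _ ≤ t ^ 2 * ((L \ A).card * M ^ 2) := mul_le_mul_of_nonneg_left hsum (sq_nonneg t)
      _ = (L \ A).card * (t * M) ^ 2 := by ring
      _ ≤ (A \ L).card * (t * M) ^ 2 := mul_le_mul_of_nonneg_right hc3 (sq_nonneg _)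
      _ ≤ _ := hlow.trans hb
  have hG : ∑ g ∈ L ∩ A, c g • g ∈ Submodule.span ℝ (φ '' Iio m) := by
    apply Submodule.sum_mem
    intro g hg
    apply Submodule.smul_mem
    apply Submodule.subset_span
    rw [← hAc]
    exact (Finset.mem_inter.1 hg).2
  have h1 := (hP m le_rfl).2 _ hG
  have h2 : f 0 - ∑ g ∈ L ∩ A, c g • g = e + ∑ g ∈ L \ A, c g • g := by
    rw [he, ← Finset.sum_inter_add_sum_sdiff L A]; abel
  rw [h2] at h1
  have h3 : ‖∑ g ∈ L \ A, c g • g‖ ≤ 2 / t * ‖e‖ := by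
    apply le_of_sq_le_sq _ (by positivity)
    rw [norm_sq_sum_dict hn ho _ hR]
    have h4 : ∑ g ∈ L \ A, c g ^ 2 ≤ ∑ g ∈ L \ A, (2 * ⟪f 0, g⟫ ^ 2 + 2 * ⟪e, g⟫ ^ 2) := by
      apply Finset.sum_le_sum
      intro g hg
      have : ⟪e, g⟫ = ⟪f 0, g⟫ - c g := by
        rw [he, inner_sub_left, inner_sum_dict hn ho L hL c (Finset.mem_sdiff.1 hg).1]
      rw [this]
      nlinarith [sq_nonneg (2 * ⟪f 0, g⟫ - c g)]
    rw [Finset.sum_add_distrib, ← Finset.mul_sum, ← Finset.mul_sum] at h4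
    have h5 := bessel_dict hn ho _ hR e
    have h6 : ∑ g ∈ L \ A, ⟪f 0, g⟫ ^ 2 ≤ ‖e‖ ^ 2 / t ^ 2 := by
      rw [le_div_iff₀' (by positivity)]; exact key
    have h7 : ‖e‖ ^ 2 ≤ ‖e‖ ^ 2 / t ^ 2 := by
      rw [le_div_iff₀ (by positivity)]
      have : t ^ 2 ≤ 1 := pow_le_one₀ ht0.le ht1
      nlinarith [sq_nonneg ‖e‖]
    have h8 : (2 / t * ‖e‖) ^ 2 = 4 * (‖e‖ ^ 2 / t ^ 2) := by ring
    linarith
  calc ‖f m‖ ≤ ‖e‖ + ‖∑ g ∈ L \ A, c g • g‖ := h1.trans (norm_add_le _ _)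
    _ ≤ ‖e‖ + 2 / t * ‖e‖ := by linarith
    _ = _ := by ring

end hilbert

end Pool.Agent.Lib.MP_4a278a_an
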