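import Pool.Agent.Lib.MP_4a278a_an.Layer

set_option autoImplicit false

namespace Pool.Agent.Lib.MP_4a278a_an

open Finset

lemma add_rpow_le_two {p a b : ℝ} (hp : 0 ≤ p) (ha : 0 ≤ a) (hb : 0 ≤ b) :
    (a + b) ^ p ≤ 2 ^ p * (a ^ p + b ^ p) := by
  have h1 := Real.rpow_nonneg ha p
  have h2 := Real.rpow_nonneg hb p
  have h3 : (0 : ℝ) ≤ 2 ^ p := by positivity
  rcases le_total a b with h | h
  · have : (a + b) ^ p ≤ (2 * b) ^ p := Real.rpow_le_rpow (by linarith) (by linarith) hp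
    rw [Real.mul_rpow (by norm_num) hb] at this
    nlinarith
  · have : (a + b) ^ p ≤ (2 * a) ^ p := Real.rpow_le_rpow (by linarith) (by linarith) hp
    rw [Real.mul_rpow (by norm_num) ha] at this
    nlinarith

lemma young_crude {p w z e : ℝ} (hp : 1 < p) (hw : 0 ≤ w) (hz : 0 ≤ z) (he : 0 < e) :
    w ^ (p - 1) * z ≤ e ^ (p - 1) * z ^ p + w ^ p / e := by
  have h1 : 0 ≤ e ^ (p - 1) * z ^ p := by positivity
  have h2 : 0 ≤ w ^ p / e := by positivity
  rcases le_total w (e * z) with h | h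
  · have h3 : w ^ (p - 1) ≤ (e * z) ^ (p - 1) := Real.rpow_le_rpow hw h (by linarith)
    rw [Real.mul_rpow he.le hz] at h3
    have h4 := mul_le_mul_of_nonneg_right h3 hz
    rw [mul_assoc, rpow_pred_mul hp hz] at h4
    linarith
  · have h3 : z ≤ w / e := by rw [le_div_iff₀ he]; linarith
    have h4 := mul_le_mul_of_nonneg_left h3 (Real.rpow_nonneg hw (p - 1))
    rw [← mul_div_assoc, rpow_pred_mul hp hw] at h4
    linarith

lemma rpow_le_pair {p u g w : ℝ} (hp : 0 ≤ p) (h : 2 * |w| ≤ |u + g| + |u - g|) :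
    |w| ^ p ≤ |u + g| ^ p + |u - g| ^ p := by
  have h1 := Real.rpow_nonneg (abs_nonneg (u + g)) p
  have h2 := Real.rpow_nonneg (abs_nonneg (u - g)) p
  rcases le_total |u + g| |u - g| with h3 | h3
  · have := Real.rpow_le_rpow (abs_nonneg w) (by linarith : |w| ≤ |u - g|) hp
    linarith
  · have := Real.rpow_le_rpow (abs_nonneg w) (by linarith : |w| ≤ |u + g|) hp
    linarith

lemma rpow_ge_sq {p l u : ℝ} (hp : 2 ≤ p) (hl : 0 < l) :
    l ^ (p / 2 - 1) * (u ^ 2 - l) ≤ |u| ^ p := by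
  have h0 : 0 ≤ l ^ (p / 2 - 1) := Real.rpow_nonneg hl.le _
  rcases le_total (u ^ 2) l with h | h
  · have : l ^ (p / 2 - 1) * (u ^ 2 - l) ≤ 0 := mul_nonpos_of_nonneg_of_nonpos h0 (by linarith)
    exact this.trans (by positivity)
  · have hu : 0 < u ^ 2 := lt_of_lt_of_le hl h
    have h1 : l ^ (p / 2 - 1) ≤ (u ^ 2) ^ (p / 2 - 1) := Real.rpow_le_rpow hl.le h (by linarith)
    have h2 : |u| ^ p = (u ^ 2) ^ (p / 2 - 1) * u ^ 2 := by
      rw [← Real.rpow_add_one hu.ne', ← sq_abs, ← Real.rpow_two, ← Real.rpow_mul (abs_nonneg _)]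
      congr 1; ring
    rw [h2]
    nlinarith

section
variable {d : ℕ} {x y : Fin d}

/-- level in the first coordinate is small -/
def Coarse (x : Fin d) (k0 : ℕ) (ι : Idx d) : Prop := ∀ a i, ι x = some (a, i) → a < k0 + 1

lemma thin_odd (p : ℝ) (k0 s N : ℕ) (e : ℝ) (ω : Om d) :
    ∑ ι ∈ BB x y k0 s N, e * psi p ι (f1 x (k0 + 1 + s) ω) =
      - ∑ ι ∈ BB x y k0 s N, e * psi p ι ω := by
  rw [← sum_neg_distrib]
  apply sum_congr rfl
  intro ι hι
  obtain ⟨j, -, hj⟩ := BB_x hι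
  rw [psi_f1_odd p ι x hj]; ring

lemma thin_struct (hxy : x ≠ y) (p : ℝ) (k0 s N : ℕ) {e : ℝ} (he : 0 ≤ e) (ω : Om d) :
    ∑ ι ∈ BB x y k0 s N, e * psi p ι ω = 0 ∨
      (num (ω x) (k0 + 1 + s) = num (ω x) (k0 + 1) * 2 ^ s ∧
        |∑ ι ∈ BB x y k0 s N, e * psi p ι ω| ≤ e * ((2 : ℝ) ^ (k0 + 1 + s)) ^ (1 / p)) := by
  by_cases h : ∃ ι ∈ BB x y k0 s N, psi p ι ω ≠ 0
  · obtain ⟨ι, hι, hne⟩ := h
    right
    refine ⟨(BB_supp p hι ω hne).2.2, ?_⟩
    rw [sum_eq_single_of_mem ι hι, abs_mul, abs_of_nonneg he, abs_psi_BB hxy p hι ω hne]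
    intro κ hκ hκι
    rcases BB_disj p k0 s N (fun _ => 1) ω κ hκ ι hι hκι with h1 | h1
    · rw [one_mul] at h1; rw [h1, mul_zero]
    · rw [one_mul] at h1; exact absurd h1 hne
  · left
    push Not at h
    exact sum_eq_zero fun ι hι => by rw [h ι hι, mul_zero]

lemma fine_bound (hxy : x ≠ y) {p : ℝ} (hp : 1 < p) {k0 s N K : ℕ} (hK : k0 + 1 + s < K)
    {e : ℝ} (he : 0 < e) (u : Om d → ℝ) (hu : ∀ r, k0 + 1 ≤ r → ∀ ω, u (f1 x r ω) = u ω)
    (hsmall : (1 / 2) ^ s * Ex K (fun ω => |u ω| ^ p) ≤ e ^ p) {ι : Idx d} (hι : Valid K ι)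
    (hfine : ¬ Coarse x k0 ι) :
    |Ex K (fun ω => jj p (u ω + ∑ κ ∈ BB x y k0 s N, e * psi p κ ω) * psi p ι ω)| ≤
      (2 + 4 * 2 ^ p) * e ^ (p - 1) := by
  unfold Coarse at hfine
  push Not at hfine
  obtain ⟨a, i, hx, ha⟩ := hfine
  obtain ⟨r, rfl⟩ : ∃ r, a = k0 + 1 + r := ⟨a - (k0 + 1), by omega⟩
  set g : Om d → ℝ := fun ω => ∑ κ ∈ BB x y k0 s N, e * psi p κ ω with hg
  set A := e * ((2 : ℝ) ^ (k0 + 1 + s)) ^ (1 / p) with hA
  have hA0 : 0 ≤ A := by positivity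
  have h0 : Ex K (fun ω => jj p (u ω) * psi p ι ω) = 0 := by
    apply (inv_f1 x (hι x _ i hx).1).odd
    intro ω
    rw [hu _ ha, psi_f1_odd p ι x hx]; ring
  have h1 : Ex K (fun ω => jj p (u ω + g ω) * psi p ι ω) =
      Ex K (fun ω => (jj p (u ω + g ω) - jj p (u ω)) * psi p ι ω) := by
    simp only [sub_mul]
    rw [Ex_sub, h0, sub_zero]
  have pw : ∀ ω, |(jj p (u ω + g ω) - jj p (u ω)) * psi p ι ω| ≤
      2 * e ^ (p - 1) * |psi p ι ω| ^ p + (2 * 2 ^ p / e) *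
        (A ^ p * (ind (num (ω x) (0 + (k0 + 1 + s)) = i / 2 ^ r * 2 ^ s) * 1) +
          ind (num (ω x) (k0 + 1 + s) = i / 2 ^ r * 2 ^ s) * |u ω| ^ p) := by
    intro ω
    have hr0 : 0 ≤ 2 * e ^ (p - 1) * |psi p ι ω| ^ p + (2 * 2 ^ p / e) *
        (A ^ p * (ind (num (ω x) (0 + (k0 + 1 + s)) = i / 2 ^ r * 2 ^ s) * 1) +
          ind (num (ω x) (k0 + 1 + s) = i / 2 ^ r * 2 ^ s) * |u ω| ^ p) := by
      have := ind_nonneg (num (ω x) (0 + (k0 + 1 + s)) = i / 2 ^ r * 2 ^ s)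
      have := ind_nonneg (num (ω x) (k0 + 1 + s) = i / 2 ^ r * 2 ^ s)
      positivity
    by_cases hn : num (ω x) (k0 + 1 + r) = i
    swap
    · rw [psi_eq_zero p ι x hx ω hn, mul_zero, abs_zero]
      rw [psi_eq_zero p ι x hx ω hn, abs_zero] at hr0
      exact hr0
    rcases thin_struct hxy p k0 s N he.le ω with h2 | ⟨h2, h3⟩
    · have : g ω = 0 := h2
      rw [this, add_zero, sub_self, zero_mul, abs_zero]; exact hr0
    have h4 := num_div (ω x) (k0 + 1) r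
    rw [hn] at h4
    rw [← h4] at h2
    rw [zero_add, ind_pos h2, mul_one, mul_one, one_mul, abs_mul]
    have h3' : |g ω| ≤ A := h3
    have h5 : |jj p (u ω + g ω) - jj p (u ω)| ≤ 2 * (A + |u ω|) ^ (p - 1) := by
      have h6 : |u ω + g ω| ^ (p - 1) ≤ (A + |u ω|) ^ (p - 1) :=
        Real.rpow_le_rpow (abs_nonneg _) ((abs_add_le _ _).trans (by linarith)) (by linarith)
      have h7 : |u ω| ^ (p - 1) ≤ (A + |u ω|) ^ (p - 1) :=
        Real.rpow_le_rpow (abs_nonneg _) (by linarith) (by linarith)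
      refine (abs_sub _ _).trans ?_
      rw [abs_jj hp, abs_jj hp]; linarith
    have h8 := young_crude hp (add_nonneg hA0 (abs_nonneg (u ω))) (abs_nonneg (psi p ι ω)) he
    have h9 := add_rpow_le_two (by linarith : 0 ≤ p) hA0 (abs_nonneg (u ω))
    have h10 := div_le_div_of_nonneg_right h9 he.le
    calc _ ≤ 2 * (A + |u ω|) ^ (p - 1) * |psi p ι ω| :=
          mul_le_mul_of_nonneg_right h5 (abs_nonneg _)
      _ ≤ 2 * (e ^ (p - 1) * |psi p ι ω| ^ p + 2 ^ p * (A ^ p + |u ω| ^ p) / e) := by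
          rw [mul_assoc]; linarith
      _ = _ := by ring
  show |Ex K (fun ω => jj p (u ω + g ω) * psi p ι ω)| ≤ _
  rw [h1]
  refine (abs_Ex_le K pw).trans ?_
  rw [Ex_add, Ex_mul, Ex_mul, Ex_add, Ex_mul, psi_norm (by linarith) hι]
  have h11 := half_le (K := K) x 0 (k0 + 1 + s) (by omega) (i / 2 ^ r * 2 ^ s) (fun _ => 1)
    (fun _ => zero_le_one) (fun _ _ _ _ => rfl)
  rw [Ex_const, mul_one] at h11
  have h12 := half_le (K := K) x (k0 + 1) s (by omega) (i / 2 ^ r * 2 ^ s) (fun ω => |u ω| ^ p)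
    (fun _ => by positivity) (fun r' h _ ω => by rw [hu r' h])
  have h13 : A ^ p * (1 / 2) ^ (k0 + 1 + s) = e ^ p := by
    rw [hA, Real.mul_rpow he.le (by positivity), ← Real.rpow_mul (by positivity),
      one_div_mul_cancel (by linarith), Real.rpow_one, mul_assoc, ← mul_pow]
    simp
  have h14 := mul_le_mul_of_nonneg_left h11 (Real.rpow_nonneg hA0 p)
  rw [h13] at h14
  have h15 : e ^ p = e ^ (p - 1) * e := (rpow_pred_mul hp he.le).symm
  have h16 : (0 : ℝ) ≤ 2 * 2 ^ p / e := by positivity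
  calc _ ≤ 2 * e ^ (p - 1) * 1 + (2 * 2 ^ p / e) * (e ^ p + e ^ p) := by
        have := mul_le_mul_of_nonneg_left (add_le_add h14 (h12.trans hsmall)) h16
        linarith
    _ = _ := by rw [h15]; field_simp; ring

lemma Ex_hat (hxy : x ≠ y) (p : ℝ) {n K : ℕ} (hK : n < K) {ι κ : Idx d} (hι : ι ∈ LL x y n)
    (hκ : Valid K κ) :
    Ex K (fun ω => (kap p n * psi p κ ω) * (kap p n * psi p ι ω)) =
      if κ = ι then (1 / 2) ^ n else 0 := by
  split_ifs with h
  · subst h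
    obtain ⟨q, hq, rfl⟩ := mem_image.1 hι
    have h1 := mem_PP hq
    have : ∀ ω, (kap p n * psi p (lam x y n q) ω) * (kap p n * psi p (lam x y n q) ω) =
        ind (num (ω x) q.1 = q.2.1) * ind (num (ω y) (n - q.1) = q.2.2) := by
      intro ω
      rw [kap_psi_lam hxy p h1.2.1]
      rcases sL_cases (x := x) (y := y) n q.1 ω with h2 | h2 <;> rw [h2] <;>
        by_cases h3 : num (ω x) q.1 = q.2.1 <;> by_cases h4 : num (ω y) (n - q.1) = q.2.2 <;>
        simp [ind, h3, h4]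
    rw [Ex_congr K this, Ex_ind2 hxy (by omega) (by omega) h1.2.2.1 h1.2.2.2, ← pow_add]
    congr 1; omega
  · have : ∀ ω, (kap p n * psi p κ ω) * (kap p n * psi p ι ω) =
        (kap p n * kap p n) * (psi p κ ω * psi p ι ω) := fun ω => by ring
    rw [Ex_congr K this, Ex_mul, psi_orth p p hκ (valid_LL hK hι) h, mul_zero]

lemma l2_lower (hxy : x ≠ y) (p : ℝ) {n K : ℕ} (hn : 1 ≤ n) (hK : n < K) (T : Finset (Idx d))
    (hT : ∀ ι ∈ T, Valid K ι) (hcard : 2 * T.card ≤ n * 2 ^ (n - 1)) (a : Idx d → ℝ) :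
    (n : ℝ) / 4 ≤ Ex K (fun ω => (GG x y n ω - ∑ ι ∈ T, a ι * psi p ι ω) ^ 2) := by
  set R := LL x y n \ T with hR
  set G' : Om d → ℝ := fun ω => ∑ ι ∈ R, kap p n * psi p ι ω with hG'
  have hRL : ∀ ι ∈ R, ι ∈ LL x y n := fun ι h => (mem_sdiff.1 h).1
  have pair : ∀ S : Finset (Idx d), S ⊆ LL x y n → R ⊆ S →
      Ex K (fun ω => (∑ κ ∈ S, kap p n * psi p κ ω) * G' ω) = R.card * (1 / 2) ^ n := by
    intro S hS hRS
    simp only [hG', mul_sum, sum_mul]
    rw [Ex_sum, ← nsmul_eq_mul, ← sum_const]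
    apply sum_congr rfl
    intro ι hι
    rw [Ex_sum, sum_congr rfl (fun κ hκ => Ex_hat hxy p hK (hRL ι hι) (valid_LL hK (hS hκ))),
      sum_ite_eq', if_pos (hRS hι)]
  have h1 : Ex K (fun ω => (∑ κ ∈ T, a κ * psi p κ ω) * G' ω) = 0 := by
    simp only [hG', mul_sum, sum_mul]
    rw [Ex_sum]
    apply sum_eq_zero
    intro ι hι
    rw [Ex_sum]
    apply sum_eq_zero
    intro κ hκ
    have : ∀ ω, a κ * psi p κ ω * (kap p n * psi p ι ω) =
        (a κ * kap p n) * (psi p κ ω * psi p ι ω) := fun ω => by ring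
    rw [Ex_congr K this, Ex_mul, psi_orth p p (hT κ hκ) (valid_LL hK (hRL ι hι))
      (by rintro rfl; exact (mem_sdiff.1 hι).2 hκ), mul_zero]
  have h2 := pair (LL x y n) subset_rfl sdiff_subset
  simp only [← GG_eq hxy p n] at h2
  have h3 : Ex K (fun ω => G' ω * G' ω) = R.card * (1 / 2) ^ n :=
    pair R sdiff_subset subset_rfl
  have pw : ∀ ω, 2 * (GG x y n ω * G' ω) - 2 * ((∑ κ ∈ T, a κ * psi p κ ω) * G' ω) -
      G' ω * G' ω ≤ (GG x y n ω - ∑ ι ∈ T, a ι * psi p ι ω) ^ 2 := by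
    intro ω
    nlinarith [sq_nonneg (GG x y n ω - ∑ ι ∈ T, a ι * psi p ι ω - G' ω)]
  refine le_trans ?_ (Ex_mono K pw)
  rw [Ex_sub, Ex_sub, Ex_mul, Ex_mul, h1, h2, h3]
  have h4 : n * 2 ^ (n - 1) ≤ 2 * R.card := by
    have := le_card_sdiff T (LL x y n)
    rw [card_LL hxy, ← hR] at this
    omega
  have h5 : ((n * 2 ^ (n - 1) : ℕ) : ℝ) ≤ 2 * R.card := by exact_mod_cast h4
  have h6 := mul_le_mul_of_nonneg_right h5 (by positivity : (0 : ℝ) ≤ (1 / 2) ^ n)
  rw [card_half hn] at h6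
  linarith

lemma large_run (hxy : x ≠ y) {p : ℝ} (hp : 2 ≤ p) {n k0 s m K : ℕ} (hn : 1 ≤ n)
    (hnk : n ≤ k0) (hm : m ≤ 2 ^ k0) (hK : k0 + 1 + s < K) {e : ℝ} (he : 0 < e)
    (hs : (1 / 2) ^ s * (2 * ((n : ℝ) ^ p + m * e ^ p)) ≤ e ^ p)
    (hΔ : (2 + 4 * 2 ^ p) * e ^ (p - 1) < ((n : ℝ) / 8) ^ (p / 2) / n * tau p ^ n)
    {idx : ℕ → Idx d} {v : ℕ → Om d → ℝ}
    (h : SRun p K (fun ω => GG x y n ω + ∑ ι ∈ BB x y k0 s m, e * psi p ι ω) idx v) :
    ∀ k, 2 * k ≤ n * 2 ^ (n - 1) → m * e ^ p / 2 ≤ Ex K (fun ω => |v k ω| ^ p) := by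
  have hp1 : 1 < p := by linarith
  have hn0 : (0 : ℝ) < n := by exact_mod_cast hn
  have hnK : n < K := by omega
  set g : Om d → ℝ := fun ω => ∑ κ ∈ BB x y k0 s m, e * psi p κ ω with hg
  have form : ∀ k, (∀ j < k, Coarse x k0 (idx j)) → ∃ a : Idx d → ℝ,
      (∀ ω, v k ω = (GG x y n ω - ∑ ι ∈ (range k).image idx, a ι * psi p ι ω) + g ω) ∧
      ∀ r, k0 + 1 ≤ r → ∀ ω,
        GG x y n (f1 x r ω) - ∑ ι ∈ (range k).image idx, a ι * psi p ι (f1 x r ω) =
          GG x y n ω - ∑ ι ∈ (range k).image idx, a ι * psi p ι ω := by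
    intro k hk
    obtain ⟨a, ha⟩ := h.span k
    refine ⟨a, fun ω => by rw [ha]; ring, fun r hr ω => ?_⟩
    rw [GG_congr n (ω' := ω) (fun j hj => f1_ne x (by omega) ω x)
      (fun j _ => by rw [f1_other hxy.symm])]
    congr 1
    apply sum_congr rfl
    intro ι hι
    obtain ⟨j, hj, rfl⟩ := mem_image.1 hι
    rw [psi_f1_even p _ x r (fun a' i' h' => lt_of_lt_of_le (hk j (mem_range.1 hj) a' i' h') hr)]
  have godd : ∀ ω, g (f1 x (k0 + 1 + s) ω) = - g ω := thin_odd p k0 s m e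
  have sym : ∀ (u w : Om d → ℝ), (∀ ω, u (f1 x (k0 + 1 + s) ω) = u ω) →
      (∀ ω, 2 * |w ω| ≤ |u ω + g ω| + |u ω - g ω|) →
      Ex K (fun ω => |w ω| ^ p) ≤ 2 * Ex K (fun ω => |u ω + g ω| ^ p) := by
    intro u w hu hw
    rw [(inv_f1 x hK).symm' (fun ω => |u ω + g ω| ^ p), ← mul_assoc, mul_one_div_cancel two_ne_zero,
      one_mul]
    apply Ex_mono
    intro ω
    rw [hu, godd, ← sub_eq_add_neg]
    exact rpow_le_pair (by linarith) (hw ω)
  have hv0 : Ex K (fun ω => |GG x y n ω + g ω| ^ p) ≤ (n : ℝ) ^ p + m * e ^ p := by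
    rw [Ex_thin (by linarith) hm hK n (fun _ => e), sum_const, card_BB, nsmul_eq_mul,
      abs_of_pos he]
    have : Ex K (fun ω => |GG x y n ω| ^ p) ≤ Ex (d := d) K (fun _ => (n : ℝ) ^ p) :=
      Ex_mono K fun ω => Real.rpow_le_rpow (abs_nonneg _) (abs_GG_le n ω) (by linarith)
    rw [Ex_const] at this
    linarith
  have chosen : ∀ k, 2 * k ≤ n * 2 ^ (n - 1) → ∀ j < k, Coarse x k0 (idx j) := by
    intro k
    induction k with
    | zero => intro _ j hj; omega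
    | succ k ih =>
      intro hk j hj
      have ih' := ih (by omega)
      rcases Nat.lt_succ_iff_lt_or_eq.1 hj with h1 | h1
      · exact ih' j h1
      subst h1
      obtain ⟨a, ha1, ha2⟩ := form j ih'
      set T := (range j).image idx with hT
      set u : Om d → ℝ := fun ω => GG x y n ω - ∑ ι ∈ T, a ι * psi p ι ω with hu
      have hvu : ∀ ω, v j ω = u ω + g ω := ha1
      have hui : ∀ r, k0 + 1 ≤ r → ∀ ω, u (f1 x r ω) = u ω := ha2
      have hTv : ∀ ι ∈ T, Valid K ι := by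
        intro ι hι
        obtain ⟨j', -, rfl⟩ := mem_image.1 hι
        exact h.valid j'
      have hTc : 2 * T.card ≤ n * 2 ^ (n - 1) := by
        have : T.card ≤ j := card_image_le.trans (card_range j).le
        omega
      by_contra hfine
      have hup : Ex K (fun ω => |u ω| ^ p) ≤ 2 * ((n : ℝ) ^ p + m * e ^ p) := by
        have h1 := sym u u (hui _ (by omega)) (fun ω => by
          have := abs_add_le (u ω + g ω) (u ω - g ω)
          rw [show u ω + g ω + (u ω - g ω) = 2 * u ω by ring, abs_mul, abs_two] at this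
          exact this)
        have h2 := h.dec j
        simp only [hvu] at h2
        linarith
      have hfb := fine_bound (N := m) hxy hp1 hK he u hui
        ((mul_le_mul_of_nonneg_left hup (by positivity)).trans hs) (h.valid j) hfine
      set V := |Ex K (fun ω => jj p (v j ω) * psi p (idx j) ω)| with hV
      have hV1 : V ≤ (2 + 4 * 2 ^ p) * e ^ (p - 1) := by
        rw [hV]; simp only [hvu]; exact hfb
      have hl2 := l2_lower hxy p hn hnK T hTv hTc a
      have hlp : ((n : ℝ) / 8) ^ (p / 2) ≤ Ex K (fun ω => |u ω| ^ p) := by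
        have h8 : (0 : ℝ) < n / 8 := by positivity
        refine le_trans ?_ (Ex_mono K (fun ω => rpow_ge_sq (u := u ω) hp h8))
        rw [Ex_mul, Ex_sub, Ex_const, show p / 2 = (p / 2 - 1) + 1 by ring,
          Real.rpow_add_one h8.ne', add_sub_cancel_right]
        apply mul_le_mul_of_nonneg_left _ (Real.rpow_nonneg h8.le _)
        have : (n : ℝ) / 4 ≤ Ex K (fun ω => u ω ^ 2) := hl2
        linarith
      have hconv : (1 / 2) * Ex K (fun ω => |u ω| ^ p) ≤ Ex K (fun ω => jj p (v j ω) * u ω) := by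
        rw [(inv_f1 x hK).symm' (fun ω => jj p (v j ω) * u ω)]
        apply mul_le_mul_of_nonneg_left _ (by norm_num)
        apply Ex_mono
        intro ω
        rw [hvu, hvu, hui _ (by omega), godd, ← sub_eq_add_neg, ← add_mul]
        exact jj_conv hp _ _
      have hupper : Ex K (fun ω => jj p (v j ω) * u ω) ≤
          ((n * 2 ^ (n - 1) : ℕ) : ℝ) * (kap p n * V) := by
        have e1 : ∀ ω, jj p (v j ω) * u ω =
            ∑ ι ∈ LL x y n, kap p n * (jj p (v j ω) * psi p ι ω) -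
              ∑ ι ∈ T, a ι * (jj p (v j ω) * psi p ι ω) := by
          intro ω
          simp only [hu]
          rw [GG_eq hxy p n, mul_sub, mul_sum, mul_sum]
          congr 1 <;> exact sum_congr rfl fun _ _ => by ring
        rw [Ex_congr K e1, Ex_sub, Ex_sum, Ex_sum, sum_eq_zero (s := T), sub_zero,
          ← card_LL hxy n, ← nsmul_eq_mul]
        · apply sum_le_card_nsmul
          intro ι hι
          rw [Ex_mul]
          exact mul_le_mul_of_nonneg_left ((le_abs_self _).trans (h.max j ι (valid_LL hnK hι)))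
            (kap_pos p n).le
        · intro ι hι
          obtain ⟨j', hj', rfl⟩ := mem_image.1 hι
          rw [Ex_mul, h.orth j j' (mem_range.1 hj'), mul_zero]
      have hτ : ((n * 2 ^ (n - 1) : ℕ) : ℝ) * kap p n * tau p ^ n = n / 2 := by
        rw [← tau_pow, kap, ← card_half hn]
        field_simp
      have hV2 : V < ((n : ℝ) / 8) ^ (p / 2) / n * tau p ^ n := lt_of_le_of_lt hV1 hΔ
      have hpos : 0 < ((n * 2 ^ (n - 1) : ℕ) : ℝ) * kap p n := by
        have := kap_pos p n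
        have : (0 : ℝ) < ((n * 2 ^ (n - 1) : ℕ) : ℝ) := by
          exact_mod_cast Nat.mul_pos hn (by positivity)
        positivity
      have h9 := mul_lt_mul_of_pos_left hV2 hpos
      have h10 : ((n * 2 ^ (n - 1) : ℕ) : ℝ) * kap p n * (((n : ℝ) / 8) ^ (p / 2) / n * tau p ^ n) =
          (1 / 2) * ((n : ℝ) / 8) ^ (p / 2) := by
        calc _ = (((n * 2 ^ (n - 1) : ℕ) : ℝ) * kap p n * tau p ^ n) *
              (((n : ℝ) / 8) ^ (p / 2) / n) := by ring
          _ = _ := by rw [hτ]; field_simp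
      rw [h10, mul_assoc] at h9
      linarith
  intro k hk
  obtain ⟨a, ha1, ha2⟩ := form k (chosen k hk)
  have h1 := sym (fun ω => GG x y n ω - ∑ ι ∈ (range k).image idx, a ι * psi p ι ω) g
    (ha2 _ (by omega)) (fun ω => by
      set u := GG x y n ω - ∑ ι ∈ (range k).image idx, a ι * psi p ι ω
      have := abs_sub (u + g ω) (u - g ω)
      rw [show u + g ω - (u - g ω) = 2 * g ω by ring, abs_mul, abs_two] at this
      exact this)
  rw [Ex_thin0 (by linarith) hm hK e he.le] at h1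
  simp only [ha1]
  linarith

lemma large_main (hxy : x ≠ y) {p : ℝ} (hp : 2 < p) (c : ℕ) (C : ℝ) (hc : 1 ≤ c) (hC : 0 ≤ C) :
    ∃ (K m : ℕ) (v0 : Om d → ℝ) (S : Finset (Idx d))
      (a : Idx d → ℝ), 1 ≤ m ∧ S.card ≤ m ∧ (∀ ι ∈ S, Valid K ι) ∧
      ∀ idx v, SRun p K v0 idx v → ∀ N ≤ c * m,
        C * Ex K (fun ω => |v0 ω - ∑ ι ∈ S, a ι * psi p ι ω| ^ p) <
          Ex K (fun ω => |v N ω| ^ p) := by
  obtain ⟨B, hB, hku⟩ := khin_upper (r := p) (by linarith)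
  have hτ0 := tau_pos p
  have hp' : 1 < p := by linarith
  have hp1 : 0 < p - 1 := by linarith
  set q := p / (p - 1) with hq
  have hq1 : 1 < q := by rw [hq, one_lt_div hp1]; linarith
  set D : ℝ := 2 + 4 * 2 ^ p with hD
  have hD0 : 0 < D := by positivity
  set E : ℝ := ((8 : ℝ) ^ (p / 2))⁻¹ / (2 * D) with hE
  have hE0 : 0 < E := by positivity
  have hc0 : (0 : ℝ) < c := by exact_mod_cast hc
  have hex : 0 < (p / 2 - 1) * (q - 1) := mul_pos (by linarith) (by linarith)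
  obtain ⟨L, hL, hbig⟩ := exists_nat_rpow_gt hex (C * B * (4 * c) / E ^ q)
  set n := 4 * c * L with hn
  have hn1 : 1 ≤ n := Nat.mul_pos (by omega) hL
  have hLn : L ≤ n := Nat.le_mul_of_pos_left _ (by omega)
  have hn0 : (0 : ℝ) < n := by exact_mod_cast hn1
  have hL0 : (0 : ℝ) < L := by exact_mod_cast hL
  set m := L * 2 ^ n with hm
  set e := (E * (n : ℝ) ^ (p / 2 - 1) * tau p ^ n) ^ (1 / (p - 1)) with he
  have he0 : 0 < e := by positivity
  obtain ⟨s, hs⟩ := exists_pow_lt_of_lt_one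
    (x := e ^ p / (2 * ((n : ℝ) ^ p + m * e ^ p))) (y := (1 / 2 : ℝ)) (by positivity) (by norm_num)
  rw [lt_div_iff₀ (by positivity)] at hs
  have hm2 : m ≤ 2 ^ (m + n) :=
    Nat.lt_two_pow_self.le.trans (Nat.pow_le_pow_right (by norm_num) (by omega))
  have hK : m + n + 1 + s < m + n + 1 + s + 1 := by omega
  have hnK : n < m + n + 1 + s + 1 := by omega
  refine ⟨m + n + 1 + s + 1, m,
    fun ω => GG x y n ω + ∑ ι ∈ BB x y (m + n) s m, e * psi p ι ω, BB x y (m + n) s m,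
    fun _ => e, Nat.mul_pos hL (by positivity), (card_BB _ _ _).le,
    fun ι hι => valid_BB hm2 hK hι, ?_⟩
  intro idx v hrun k hk
  have hje : e ^ (p - 1) = E * (n : ℝ) ^ (p / 2 - 1) * tau p ^ n := by
    rw [he, ← Real.rpow_mul (by positivity), one_div_mul_cancel hp1.ne', Real.rpow_one]
  have hΔ : D * e ^ (p - 1) < ((n : ℝ) / 8) ^ (p / 2) / n * tau p ^ n := by
    rw [hje, Real.div_rpow hn0.le (by norm_num), Real.rpow_sub_one hn0.ne', hE]
    have h1 : 0 < (n : ℝ) ^ (p / 2) / 8 ^ (p / 2) / n * tau p ^ n := by positivity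
    have h2 : D * (((8 : ℝ) ^ (p / 2))⁻¹ / (2 * D) * ((n : ℝ) ^ (p / 2) / n) * tau p ^ n) =
        (1 / 2) * ((n : ℝ) ^ (p / 2) / 8 ^ (p / 2) / n * tau p ^ n) := by field_simp
    rw [h2]; linarith
  have hk2 : 2 * k ≤ n * 2 ^ (n - 1) := by
    have h1 : 2 ^ n = 2 * 2 ^ (n - 1) := by
      rw [← pow_succ']; congr 1; omega
    calc 2 * k ≤ 2 * (c * m) := by omega
      _ = n * 2 ^ (n - 1) := by
        rw [hm, h1]
        generalize 2 ^ (n - 1) = z
        rw [hn]; ring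
  refine lt_of_lt_of_le ?_ (large_run hxy hp.le hn1 (by omega) hm2 hK he0 hs.le hΔ hrun k hk2)
  simp only [add_sub_cancel_right]
  have hup := hku d _ _ _ _ (signFam_x hxy hnK) (nonempty_Icc.2 hn1)
    (fun ω => ind (ω x 0 = true)) (fun _ => ind_nonneg _) (fun j hj ω => by
      rw [f1_ne x (by have := (mem_Icc.1 hj).1; omega)])
  rw [Ex_first (by omega), Nat.card_Icc, Nat.add_sub_cancel] at hup
  simp only [abs_GG_rpow (by linarith : 0 < p)]
  refine lt_of_le_of_lt (mul_le_mul_of_nonneg_left hup hC) ?_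
  have hep : e ^ p = E ^ q * (n : ℝ) ^ ((p / 2 - 1) * q) * (1 / 2) ^ n := by
    rw [he, ← Real.rpow_mul (by positivity), show 1 / (p - 1) * p = q by rw [hq]; ring,
      Real.mul_rpow (by positivity) (by positivity), Real.mul_rpow (by positivity) (by positivity),
      ← Real.rpow_mul hn0.le, tau_pow_conj hp']
  have hmc : (m : ℝ) * (1 / 2) ^ n = n / (4 * c) := by
    rw [hm, one_div, inv_pow]
    push_cast
    have : (n : ℝ) = 4 * c * L := by rw [hn]; push_cast; ring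
    rw [this]
    field_simp
  have hsplit : (n : ℝ) ^ ((p / 2 - 1) * q) * n =
      (n : ℝ) ^ ((p / 2 - 1) * (q - 1)) * (n : ℝ) ^ (p / 2) := by
    rw [← Real.rpow_add_one hn0.ne', ← Real.rpow_add hn0]
    congr 1; ring
  have hbig2 : C * B * (4 * c) / E ^ q < (n : ℝ) ^ ((p / 2 - 1) * (q - 1)) :=
    lt_of_lt_of_le hbig (Real.rpow_le_rpow hL0.le (by exact_mod_cast hLn) hex.le)
  rw [div_lt_iff₀ (by positivity)] at hbig2
  have hpos : 0 < (n : ℝ) ^ (p / 2) / (8 * c) := by positivity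
  calc C * (B * (n : ℝ) ^ (p / 2) * (1 / 2))
      = (C * B * (4 * c)) * ((n : ℝ) ^ (p / 2) / (8 * c)) := by field_simp; ring
    _ < ((n : ℝ) ^ ((p / 2 - 1) * (q - 1)) * E ^ q) * ((n : ℝ) ^ (p / 2) / (8 * c)) :=
        mul_lt_mul_of_pos_right hbig2 hpos
    _ = E ^ q * ((n : ℝ) ^ ((p / 2 - 1) * q) * n) / (8 * c) := by rw [hsplit]; ring
    _ = E ^ q * (n : ℝ) ^ ((p / 2 - 1) * q) * ((m : ℝ) * (1 / 2) ^ n) / 2 := by
        rw [hmc]; field_simp; ring
    _ = _ := by rw [hep]; ring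

end

end Pool.Agent.Lib.MP_4a278a_an
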