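import Pool.Agent.Lib.MP_4a278a_an.Run

set_option autoImplicit false

namespace Pool.Agent.Lib.MP_4a278a_an

open Finset

lemma disj_sum {ι : Type*} (S : Finset ι) (u : ι → ℝ) (g : ℝ) (F : ℝ → ℝ) (hF : F 0 = 0)
    (h1 : ∀ i ∈ S, ∀ j ∈ S, i ≠ j → u i = 0 ∨ u j = 0) (h2 : ∀ i ∈ S, u i = 0 ∨ g = 0) :
    F (g + ∑ i ∈ S, u i) = F g + ∑ i ∈ S, F (u i) := by
  by_cases h : ∃ i ∈ S, u i ≠ 0
  · obtain ⟨i, hi, hu⟩ := h
    have hg : g = 0 := (h2 i hi).resolve_left hu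
    have hz : ∀ j ∈ S, j ≠ i → u j = 0 := fun j hj hne => (h1 j hj i hi hne).resolve_right hu
    rw [sum_eq_single_of_mem i hi hz, sum_eq_single_of_mem i hi (fun j hj hne => by
      rw [hz j hj hne, hF]), hg, hF, zero_add, zero_add]
  · push Not at h
    rw [sum_eq_zero h, sum_eq_zero (fun i hi => by rw [h i hi, hF]), add_zero, add_zero]

lemma exists_nat_rpow_gt {e : ℝ} (he : 0 < e) (D : ℝ) : ∃ n : ℕ, 1 ≤ n ∧ D < (n : ℝ) ^ e := by
  have h := (tendsto_rpow_atTop he).comp tendsto_natCast_atTop_atTop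
  obtain ⟨n, hn⟩ := ((h.eventually_gt_atTop D).and (Filter.eventually_ge_atTop 1)).exists
  exact ⟨n, hn.2, hn.1⟩

/-- the ratio `2^(1/p) / 2` -/
noncomputable def tau (p : ℝ) : ℝ := (2 : ℝ) ^ (1 / p) / 2

lemma tau_pos (p : ℝ) : 0 < tau p := by unfold tau; positivity

lemma tau_lt_one {p : ℝ} (hp : 1 < p) : tau p < 1 := by
  unfold tau
  rw [div_lt_one (by norm_num)]
  have : (2 : ℝ) ^ (1 / p) < 2 ^ (1 : ℝ) := by
    apply Real.rpow_lt_rpow_of_exponent_lt (by norm_num)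
    rw [div_lt_one (by linarith)]; exact hp
  simpa using this

lemma tau_pow (p : ℝ) (a : ℕ) : ((2 : ℝ) ^ a) ^ (1 / p) * (1 / 2) ^ a = tau p ^ a := by
  unfold tau
  rw [div_pow, div_pow, one_pow, ← Real.rpow_natCast, ← Real.rpow_mul (by norm_num), mul_comm (a : ℝ),
    Real.rpow_mul (by norm_num), Real.rpow_natCast]
  ring

lemma tau_pow_conj {p : ℝ} (hp : 1 < p) (n : ℕ) :
    (tau p ^ n) ^ (p / (p - 1)) = (1 / 2) ^ n := by
  have h : tau p = (2 : ℝ) ^ (1 / p - 1) := by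
    unfold tau
    rw [Real.rpow_sub_one (by norm_num)]
  have hp1 : p - 1 ≠ 0 := by linarith
  have hp0 : p ≠ 0 := by linarith
  rw [h, ← Real.rpow_natCast, ← Real.rpow_mul (by positivity), ← Real.rpow_mul (by norm_num),
    show (1 / p - 1) * ((n : ℝ) * (p / (p - 1))) = (-1) * n by field_simp; ring,
    Real.rpow_mul (by norm_num), Real.rpow_natCast, Real.rpow_neg_one, one_div]

lemma succ_mul_pow_le {τ : ℝ} (h0 : 0 ≤ τ) (h1 : τ < 1) (k : ℕ) :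
    ((k : ℝ) + 1) * τ ^ k ≤ 1 / (1 - τ) := by
  have key : ∀ k : ℕ, ((k : ℝ) + 1) * τ ^ k * (1 - τ) ≤ 1 - τ ^ (k + 1) := by
    intro k
    induction k with
    | zero => simp
    | succ k ih =>
      have h2 := mul_le_mul_of_nonneg_left ih h0
      have h3 : τ ^ (k + 1) ≤ 1 := pow_le_one₀ h0 h1.le
      have h4 : τ ^ (k + 1) * (1 - τ) ≤ 1 * (1 - τ) :=
        mul_le_mul_of_nonneg_right h3 (by linarith)
      have h5 : 0 ≤ τ ^ (k + 1 + 1) := by positivity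
      push_cast
      have e1 : ((k : ℝ) + 1 + 1) * τ ^ (k + 1) * (1 - τ) =
          τ * (((k : ℝ) + 1) * τ ^ k * (1 - τ)) + τ ^ (k + 1) * (1 - τ) := by ring
      have e2 : τ * (1 - τ ^ (k + 1)) = τ - τ ^ (k + 1 + 1) := by ring
      rw [e1]; linarith
  rw [le_div_iff₀ (by linarith)]
  have := key k
  have h5 : 0 ≤ τ ^ (k + 1) := by positivity
  linarith

lemma card_half {n : ℕ} (hn : 1 ≤ n) : ((n * 2 ^ (n - 1) : ℕ) : ℝ) * (1 / 2) ^ n = n / 2 := by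
  obtain ⟨n', rfl⟩ : ∃ n', n = n' + 1 := ⟨n - 1, by omega⟩
  rw [Nat.add_sub_cancel, one_div, inv_pow]
  push_cast
  field_simp
  ring

section two
variable {d : ℕ} (x y : Fin d)

/-- index supported on two coordinates -/
def ix2 (o1 o2 : Option (ℕ × ℕ)) : Idx d :=
  fun c => if c = x then o1 else if c = y then o2 else none

lemma ix2_x (o1 o2 : Option (ℕ × ℕ)) : ix2 x y o1 o2 x = o1 := by simp [ix2]

variable {x y}

lemma ix2_y (hxy : x ≠ y) (o1 o2 : Option (ℕ × ℕ)) : ix2 x y o1 o2 y = o2 := by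
  simp [ix2, hxy.symm]

lemma psi_two (hxy : x ≠ y) (p : ℝ) (ι : Idx d) (h : ∀ c, c ≠ x → c ≠ y → ι c = none)
    (ω : Om d) : psi p ι ω = h1 p (ι x) (ω x) * h1 p (ι y) (ω y) := by
  unfold psi
  apply prod_eq_mul_of_mem x y (mem_univ _) (mem_univ _) hxy
  intro c _ hc
  rw [h c hc.1 hc.2]; rfl

lemma psi_ix2 (hxy : x ≠ y) (p : ℝ) (o1 o2 : Option (ℕ × ℕ)) (ω : Om d) :
    psi p (ix2 x y o1 o2) ω = h1 p o1 (ω x) * h1 p o2 (ω y) := by
  rw [psi_two hxy p _ (fun c h1 h2 => by simp [ix2, h1, h2]), ix2_x, ix2_y hxy]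

lemma valid_ix2 {K : ℕ} {o1 o2 : Option (ℕ × ℕ)}
    (h1 : ∀ a i, o1 = some (a, i) → a < K ∧ i < 2 ^ a)
    (h2 : ∀ a i, o2 = some (a, i) → a < K ∧ i < 2 ^ a) : Valid K (ix2 x y o1 o2) := by
  intro c a i h
  unfold ix2 at h
  split_ifs at h
  · exact h1 a i h
  · exact h2 a i h

lemma Ex_ind2 (hxy : x ≠ y) {K a b i i' : ℕ} (ha : a ≤ K) (hb : b ≤ K) (hi : i < 2 ^ a)
    (hi' : i' < 2 ^ b) :
    Ex K (fun ω : Om d => ind (num (ω x) a = i) * ind (num (ω y) b = i')) =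
      (1 / 2) ^ a * (1 / 2) ^ b := by
  rw [half_full x ha hi _ (fun r _ ω => by rw [f1_other hxy.symm])]
  congr 1
  have := half_full (K := K) y hb hi' (fun _ => 1) (fun _ _ _ => rfl)
  simpa [Ex_const] using this

variable (x y)

/-- the signs of a hyperbolic layer -/
def sL (n j : ℕ) (ω : Om d) : ℝ := sg (ω x j) * sg (ω y (n - j))

/-- the hyperbolic layer sum, on the right half of the cube -/
noncomputable def GG (n : ℕ) (ω : Om d) : ℝ :=
  ind (ω x 0 = true) * ∑ j ∈ Icc 1 n, sL x y n j ω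

/-- parameters of the layer -/
def PP (n : ℕ) : Finset (Σ _ : ℕ, ℕ × ℕ) :=
  (Icc 1 n).sigma fun j => Ico (2 ^ (j - 1)) (2 ^ j) ×ˢ range (2 ^ (n - j))

/-- index of a layer element -/
def lam (n : ℕ) (q : Σ _ : ℕ, ℕ × ℕ) : Idx d :=
  ix2 x y (some (q.1, q.2.1)) (some (n - q.1, q.2.2))

/-- the layer -/
def LL (n : ℕ) : Finset (Idx d) := (PP n).image (lam x y n)

/-- normalising constant -/
noncomputable def kap (p : ℝ) (n : ℕ) : ℝ := (((2 : ℝ) ^ n) ^ (1 / p))⁻¹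

lemma kap_pos (p : ℝ) (n : ℕ) : 0 < kap p n := by unfold kap; positivity

variable {x y}

lemma lam_inj (hxy : x ≠ y) (n : ℕ) : Function.Injective (lam x y n) := by
  rintro ⟨j, i, i'⟩ ⟨j2, i2, i2'⟩ h
  have h1 := congrFun h x
  have h2 := congrFun h y
  simp only [lam, ix2_x, ix2_y hxy, Option.some.injEq, Prod.mk.injEq] at h1 h2
  obtain ⟨rfl, rfl⟩ := h1
  obtain ⟨-, rfl⟩ := h2
  rfl

lemma card_PP (n : ℕ) : (PP n).card = n * 2 ^ (n - 1) := by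
  unfold PP
  rw [card_sigma]
  have : ∀ j ∈ Icc 1 n, (Ico (2 ^ (j - 1)) (2 ^ j) ×ˢ range (2 ^ (n - j))).card = 2 ^ (n - 1) := by
    intro j hj
    rw [mem_Icc] at hj
    obtain ⟨k, rfl⟩ : ∃ k, j = k + 1 := ⟨j - 1, by omega⟩
    rw [card_product, Nat.card_Ico, card_range, Nat.add_sub_cancel, pow_succ,
      show 2 ^ k * 2 - 2 ^ k = 2 ^ k by omega, ← pow_add]
    congr 1; omega
  rw [sum_congr rfl this, sum_const, Nat.card_Icc, smul_eq_mul, Nat.add_sub_cancel]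

lemma card_LL (hxy : x ≠ y) (n : ℕ) : (LL x y n).card = n * 2 ^ (n - 1) := by
  rw [LL, card_image_of_injective _ (lam_inj hxy n), card_PP]

lemma mem_PP {n : ℕ} {q : Σ _ : ℕ, ℕ × ℕ} (h : q ∈ PP n) :
    1 ≤ q.1 ∧ q.1 ≤ n ∧ q.2.1 < 2 ^ q.1 ∧ q.2.2 < 2 ^ (n - q.1) := by
  simp only [PP, mem_sigma, mem_Icc, mem_product, mem_Ico, mem_range] at h
  exact ⟨h.1.1, h.1.2, h.2.1.2, h.2.2⟩

lemma valid_LL {n K : ℕ} (hK : n < K) {ι : Idx d} (h : ι ∈ LL x y n) : Valid K ι := by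
  obtain ⟨q, hq, rfl⟩ := mem_image.1 h
  have := mem_PP hq
  apply valid_ix2
  · intro a i h
    simp only [Option.some.injEq, Prod.mk.injEq] at h
    obtain ⟨rfl, rfl⟩ := h
    exact ⟨by omega, this.2.2.1⟩
  · intro a i h
    simp only [Option.some.injEq, Prod.mk.injEq] at h
    obtain ⟨rfl, rfl⟩ := h
    exact ⟨by omega, this.2.2.2⟩

lemma kap_psi_lam (hxy : x ≠ y) (p : ℝ) {n : ℕ} {q : Σ _ : ℕ, ℕ × ℕ} (hq : q.1 ≤ n)
    (ω : Om d) : kap p n * psi p (lam x y n q) ω =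
      ind (num (ω x) q.1 = q.2.1) * ind (num (ω y) (n - q.1) = q.2.2) * sL x y n q.1 ω := by
  rw [lam, psi_ix2 hxy]
  simp only [h1, sL]
  have : kap p n * (((2 : ℝ) ^ q.1) ^ (1 / p) * ((2 : ℝ) ^ (n - q.1)) ^ (1 / p)) = 1 := by
    rw [← Real.mul_rpow (by positivity) (by positivity), ← pow_add, Nat.add_sub_cancel' hq, kap,
      inv_mul_cancel₀ (by positivity)]
  linear_combination (ind (num (ω x) q.1 = q.2.1) * ind (num (ω y) (n - q.1) = q.2.2) *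
    (sg (ω x q.1) * sg (ω y (n - q.1)))) * this

lemma sum_ind_mem (S : Finset ℕ) (k : ℕ) : ∑ i ∈ S, ind (k = i) = ind (k ∈ S) := by
  by_cases h : k ∈ S
  · rw [sum_eq_single_of_mem k h (fun j _ hne => ind_neg (Ne.symm hne)), ind_pos rfl, ind_pos h]
  · rw [ind_neg h]
    exact sum_eq_zero fun i hi => ind_neg (by rintro rfl; exact h hi)

lemma GG_eq (hxy : x ≠ y) (p : ℝ) (n : ℕ) (ω : Om d) :
    GG x y n ω = ∑ ι ∈ LL x y n, kap p n * psi p ι ω := by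
  rw [LL, sum_image (fun a _ b _ h => lam_inj hxy n h),
    sum_congr rfl (fun q hq => kap_psi_lam hxy p (mem_PP hq).2.1 ω), PP, sum_sigma, GG, mul_sum]
  apply sum_congr rfl
  intro j hj
  rw [mem_Icc] at hj
  rw [sum_product]
  simp only
  rw [← sum_congr rfl (fun i _ => sum_mul _ _ _), ← sum_mul]
  congr 1
  rw [← sum_mul_sum, sum_ind_mem, sum_ind_mem, ind_pos (mem_range.2 (num_lt _ _)), mul_one]
  apply ind_congr
  obtain ⟨k, rfl⟩ : ∃ k, j = k + 1 := ⟨j - 1, by omega⟩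
  rw [num_first _ k, mem_Ico, Nat.add_sub_cancel]
  exact ⟨fun h => ⟨h, num_lt _ _⟩, fun h => h.1⟩

lemma sL_cases (n j : ℕ) (ω : Om d) : sL x y n j ω = 1 ∨ sL x y n j ω = -1 := by
  unfold sL
  rcases sg_cases (ω x j) with h | h <;> rcases sg_cases (ω y (n - j)) with h' | h' <;>
    rw [h, h'] <;> norm_num

lemma GG_congr (n : ℕ) {ω ω' : Om d} (hx : ∀ j ≤ n, ω x j = ω' x j)
    (hy : ∀ j < n, ω y j = ω' y j) : GG x y n ω = GG x y n ω' := by
  unfold GG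
  rw [hx 0 (Nat.zero_le _)]
  congr 1
  apply sum_congr rfl
  intro j hj
  rw [mem_Icc] at hj
  rw [sL, sL, hx j hj.2, hy (n - j) (by omega)]

lemma abs_GG_le (n : ℕ) (ω : Om d) : |GG x y n ω| ≤ n := by
  unfold GG
  rw [abs_mul, abs_of_nonneg (ind_nonneg _)]
  have h1 : |∑ j ∈ Icc 1 n, sL x y n j ω| ≤ n := by
    refine (abs_sum_le_sum_abs _ _).trans ?_
    have : ∀ j ∈ Icc 1 n, |sL x y n j ω| = 1 := by
      intro j _
      rcases sL_cases (x := x) (y := y) n j ω with h | h <;> rw [h] <;> simp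
    rw [sum_congr rfl this]; simp
  have h2 := ind_le_one (ω x 0 = true)
  have h3 := ind_nonneg (ω x 0 = true)
  have h4 := abs_nonneg (∑ j ∈ Icc 1 n, sL x y n j ω)
  nlinarith

lemma signFam_x (hxy : x ≠ y) {n K : ℕ} (hK : n < K) :
    SignFam K (Icc 1 n) (fun j => f1 x j) (sL x y n) where
  inv j hj := inv_f1 x (by have := (mem_Icc.1 hj).2; omega)
  sgn j _ ω := sL_cases n j ω
  odd j _ ω := by rw [sL, sL, f1_same, f1_other hxy.symm, sg_not]; ring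
  even i _ j _ hij ω := by rw [sL, sL, f1_ne x hij, f1_other hxy.symm]

lemma Ex_first {K : ℕ} (hK : 0 < K) : Ex K (fun ω : Om d => ind (ω x 0 = true)) = 1 / 2 := by
  rw [(inv_f1 x hK).symm', Ex_congr K (v := fun _ => 1), Ex_const, mul_one]
  intro ω
  rw [f1_same]
  cases ω x 0
  · rw [ind_neg (by simp), ind_pos (by simp)]; norm_num
  · rw [ind_pos (by simp), ind_neg (by simp)]; norm_num

lemma abs_GG_rpow {p : ℝ} (hp : 0 < p) (n : ℕ) (ω : Om d) :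
    |GG x y n ω| ^ p = ind (ω x 0 = true) * |∑ j ∈ Icc 1 n, sL x y n j ω| ^ p := by
  unfold GG
  by_cases h : ω x 0 = true
  · rw [ind_pos h, one_mul, one_mul]
  · rw [ind_neg h, zero_mul, zero_mul, abs_zero, Real.zero_rpow hp.ne']

variable (x y)

/-- the thin Haar functions in the left half -/
def bb (k0 s j : ℕ) : Idx d := ix2 x y (some (k0 + 1 + s, j * 2 ^ s)) none

/-- the thin family -/
def BB (k0 s N : ℕ) : Finset (Idx d) := (range N).image (bb x y k0 s)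

variable {x y}

lemma bb_inj (k0 s : ℕ) : Function.Injective (bb x y k0 s) := by
  intro j j' h
  have h1 := congrFun h x
  simp only [bb, ix2_x, Option.some.injEq, Prod.mk.injEq, true_and] at h1
  exact Nat.eq_of_mul_eq_mul_right (by positivity) h1

lemma card_BB (k0 s N : ℕ) : (BB x y k0 s N).card = N := by
  rw [BB, card_image_of_injective _ (bb_inj k0 s), card_range]

lemma BB_x {k0 s N : ℕ} {ι : Idx d} (h : ι ∈ BB x y k0 s N) :
    ∃ j < N, ι x = some (k0 + 1 + s, j * 2 ^ s) := by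
  obtain ⟨j, hj, rfl⟩ := mem_image.1 h
  exact ⟨j, mem_range.1 hj, by rw [bb, ix2_x]⟩

lemma valid_BB {k0 s N K : ℕ} (hN : N ≤ 2 ^ k0) (hK : k0 + 1 + s < K) {ι : Idx d}
    (h : ι ∈ BB x y k0 s N) : Valid K ι := by
  obtain ⟨j, hj, rfl⟩ := mem_image.1 h
  rw [mem_range] at hj
  apply valid_ix2
  · intro a i h
    simp only [Option.some.injEq, Prod.mk.injEq] at h
    obtain ⟨rfl, rfl⟩ := h
    refine ⟨hK, ?_⟩
    rw [pow_add, pow_succ]
    exact Nat.mul_lt_mul_of_pos_right (by omega) (by positivity)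
  · intro a i h; simp at h

lemma BB_supp (p : ℝ) {k0 s N : ℕ} {ι : Idx d} (h : ι ∈ BB x y k0 s N) (ω : Om d)
    (hne : psi p ι ω ≠ 0) : num (ω x) (k0 + 1) < N ∧ ι = bb x y k0 s (num (ω x) (k0 + 1)) ∧
      num (ω x) (k0 + 1 + s) = num (ω x) (k0 + 1) * 2 ^ s := by
  obtain ⟨j, hj, rfl⟩ := mem_image.1 h
  have h1 : num (ω x) (k0 + 1 + s) = j * 2 ^ s := by
    by_contra h2
    exact hne (psi_eq_zero p _ x (by rw [bb, ix2_x]) ω h2)
  have h2 := num_div (ω x) (k0 + 1) s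
  rw [h1, Nat.mul_div_cancel _ (by positivity)] at h2
  rw [← h2]
  exact ⟨mem_range.1 hj, rfl, h1⟩

lemma BB_disj (p : ℝ) (k0 s N : ℕ) (a : Idx d → ℝ) (ω : Om d) :
    ∀ i ∈ BB x y k0 s N, ∀ j ∈ BB x y k0 s N, i ≠ j →
      a i * psi p i ω = 0 ∨ a j * psi p j ω = 0 := by
  intro i hi j hj hne
  by_contra h
  push Not at h
  have h1 := (BB_supp p hi ω (right_ne_zero_of_mul h.1)).2.1
  have h2 := (BB_supp p hj ω (right_ne_zero_of_mul h.2)).2.1
  exact hne (h1.trans h2.symm)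

lemma BB_GG (p : ℝ) {k0 s N : ℕ} (hN : N ≤ 2 ^ k0) (n : ℕ) (a : Idx d → ℝ) (ω : Om d) :
    ∀ i ∈ BB x y k0 s N, a i * psi p i ω = 0 ∨ GG x y n ω = 0 := by
  intro i hi
  by_cases h : psi p i ω = 0
  · left; rw [h, mul_zero]
  · right
    have h1 := (BB_supp p hi ω h).1
    rw [GG, ind_neg, zero_mul]
    rw [num_first _ k0]; omega

lemma abs_psi_BB (hxy : x ≠ y) (p : ℝ) {k0 s N : ℕ} {ι : Idx d} (h : ι ∈ BB x y k0 s N)
    (ω : Om d) (hne : psi p ι ω ≠ 0) : |psi p ι ω| = ((2 : ℝ) ^ (k0 + 1 + s)) ^ (1 / p) := by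
  obtain ⟨j, hj, rfl⟩ := mem_image.1 h
  have h1' : num (ω x) (k0 + 1 + s) = j * 2 ^ s := by
    by_contra h2
    exact hne (psi_eq_zero p _ x (by rw [bb, ix2_x]) ω h2)
  rw [bb, psi_ix2 hxy]
  simp only [h1]
  rw [ind_pos h1', one_mul, mul_one, abs_mul, abs_sg, mul_one, abs_of_nonneg (by positivity)]

lemma Ex_thin {p : ℝ} (hp : 0 < p) {k0 s N K : ℕ} (hN : N ≤ 2 ^ k0) (hK : k0 + 1 + s < K)
    (n : ℕ) (a : Idx d → ℝ) :
    Ex K (fun ω => |GG x y n ω + ∑ ι ∈ BB x y k0 s N, a ι * psi p ι ω| ^ p) =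
      Ex K (fun ω => |GG x y n ω| ^ p) + ∑ ι ∈ BB x y k0 s N, |a ι| ^ p := by
  rw [Ex_congr K (fun ω => disj_sum _ _ _ (fun u => |u| ^ p) (by simp [hp.ne'])
    (BB_disj p k0 s N a ω) (BB_GG p hN n a ω)), Ex_add, Ex_sum]
  congr 1
  apply sum_congr rfl
  intro ι hι
  simp only [abs_mul, Real.mul_rpow (abs_nonneg _) (abs_nonneg _)]
  rw [Ex_mul, psi_norm hp (valid_BB hN hK hι), mul_one]

lemma Ex_thin0 {p : ℝ} (hp : 0 < p) {k0 s N K : ℕ} (hN : N ≤ 2 ^ k0) (hK : k0 + 1 + s < K)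
    (e : ℝ) (he : 0 ≤ e) :
    Ex K (fun ω => |∑ ι ∈ BB x y k0 s N, e * psi p ι ω| ^ p) = N * e ^ p := by
  have := Ex_thin (x := x) (y := y) hp hN hK 0 (fun _ => e)
  have h0 : ∀ ω, GG x y 0 ω = 0 := fun ω => by simp [GG]
  simp only [h0, zero_add, abs_zero, Real.zero_rpow hp.ne', Ex_zero, sum_const, card_BB,
    nsmul_eq_mul, abs_of_nonneg he] at this
  exact this

end two

end Pool.Agent.Lib.MP_4a278a_an
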