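import Pool.Agent.Lib.MP_4a278a_an.Small
import Pool.Agent.Lib.MP_4a278a_an.Large

set_option autoImplicit false

open MeasureTheory Set
open scoped ENNReal RealInnerProductSpace

namespace Pool.Agent.Lib.MP_4a278a_an

lemma dict_norm {d : ℕ} {p : ℝ≥0∞} (hp1 : 1 < p) (hp : p ≠ ⊤) {g : Lp ℝ p (cube d)}
    (hg : g ∈ haarDict d p) : ‖g‖ = 1 := by
  obtain ⟨ι, K, h0, h⟩ := mem_dict hg
  have hr := toReal_gt_one hp1 hp
  rw [h K h0, norm_emb (zero_lt_one.trans hp1).ne' hp, psi_norm (by linarith) h0, Real.one_rpow]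

lemma dict_orth {d : ℕ} {g g' : Lp ℝ 2 (cube d)} (hg : g ∈ haarDict d 2)
    (hg' : g' ∈ haarDict d 2) (hne : g ≠ g') : ⟪g, g'⟫ = 0 := by
  obtain ⟨ι, K, h0, h⟩ := mem_dict hg
  obtain ⟨ι', K', h0', h'⟩ := mem_dict hg'
  have h1 := h0.mono (le_max_left K K')
  have h2 := h0'.mono (le_max_right K K')
  have e1 := h _ h1
  have e2 := h' _ h2
  have hι : ι ≠ ι' := by
    rintro rfl
    exact hne (e1.trans e2.symm)
  rw [L2.inner_def, ← psi_orth (2 : ℝ≥0∞).toReal (2 : ℝ≥0∞).toReal h1 h2 hι, ← integral_bK]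
  apply integral_congr_ae
  filter_upwards [coe_emb 2 (max K K') (psi (2 : ℝ≥0∞).toReal ι),
    coe_emb 2 (max K K') (psi (2 : ℝ≥0∞).toReal ι')] with z hz hz'
  rw [← e1] at hz
  rw [← e2] at hz'
  rw [hz, hz', real_inner_comm]
  simp

theorem main (d : ℕ) (hd : 2 ≤ d) (p : ℝ≥0∞) [Fact (1 ≤ p)] (hp1 : 1 < p) (hp : p ≠ ⊤)
    (t : ℝ) (ht0 : 0 < t) (ht1 : t ≤ 1) :
    (∃ C₁ C₂ : ℝ, ∀ φ f : ℕ → Lp ℝ p (cube d), IsRun (haarDict d p) t φ f →
      ∀ m : ℕ, 1 ≤ m → ‖f ⌈C₁ * m⌉₊‖ ≤ C₂ * bestErr (haarDict d p) m (f 0)) ↔ p = 2 := by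
  have hr := toReal_gt_one hp1 hp
  have hxy : (⟨0, by omega⟩ : Fin d) ≠ ⟨1, by omega⟩ := by simp
  constructor
  · intro h
    rcases lt_trichotomy p.toReal 2 with h2 | h2 | h2
    · exact absurd h (not_greedy_of hp1 hp ht1 fun c C _ _ => small_main hxy hr h2 c C)
    · rw [← ENNReal.ofReal_toReal hp, h2]; simp
    · exact absurd h (not_greedy_of hp1 hp ht1 fun c C hc hC => large_main hxy h2 c C hc hC)
  · rintro rfl
    refine ⟨1, 1 + 2 / t, fun φ f hrun m _ => ?_⟩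
    rw [one_mul, Nat.ceil_natCast]
    exact hilbert_run _ (fun g hg => dict_norm hp1 hp hg)
      (fun g hg g' hg' hne => dict_orth hg hg' hne) t ht0 ht1 φ f hrun m

end Pool.Agent.Lib.MP_4a278a_an
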