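import Pool.Agent.Lib.MP_4a278a_an.Bridge
import Pool.Agent.Lib.MP_4a278a_an.Hilbert

set_option autoImplicit false

open MeasureTheory Set
open scoped ENNReal

namespace Pool.Agent.Lib.MP_4a278a_an

lemma exists_best {X : Type*} [NormedAddCommGroup X] [NormedSpace ℝ X] (W : Submodule ℝ X)
    [FiniteDimensional ℝ W] (f : X) : ∃ G ∈ W, ∀ G' ∈ W, ‖f - G‖ ≤ ‖f - G'‖ := by
  have : ProperSpace W := FiniteDimensional.proper ℝ W
  have hc : Continuous (fun w : W => ‖f - (w : X)‖) := by fun_prop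
  have ht : Filter.Tendsto (fun w : W => ‖f - (w : X)‖) (Filter.cocompact W) Filter.atTop := by
    apply Filter.tendsto_atTop_mono (f := fun w : W => ‖w‖ + (-‖f‖))
    · intro w
      have := norm_sub_norm_le (w : X) f
      rw [norm_sub_rev] at this
      simpa [sub_eq_add_neg] using this
    · exact Filter.tendsto_atTop_add_const_right _ _ (tendsto_norm_cocompact_atTop (E := W))
  obtain ⟨w, hw⟩ := hc.exists_forall_le ht
  exact ⟨w, w.2, fun G' hG' => hw ⟨G', hG'⟩⟩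

/-- a run of the greedy algorithm with `t = 1`, described on digit arrays -/
structure SRun {d : ℕ} (p : ℝ) (K : ℕ) (v0 : Om d → ℝ) (idx : ℕ → Idx d)
    (v : ℕ → Om d → ℝ) : Prop where
  valid : ∀ k, Valid K (idx k)
  span : ∀ k, ∃ a : Idx d → ℝ, ∀ ω,
    v k ω = v0 ω - ∑ ι ∈ (Finset.range k).image idx, a ι * psi p ι ω
  orth : ∀ k, ∀ j < k, Ex K (fun ω => jj p (v k ω) * psi p (idx j) ω) = 0
  max : ∀ k ι, Valid K ι → |Ex K (fun ω => jj p (v k ω) * psi p ι ω)| ≤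
    |Ex K (fun ω => jj p (v k ω) * psi p (idx k) ω)|
  dec : ∀ k, Ex K (fun ω => |v k ω| ^ p) ≤ Ex K (fun ω => |v0 ω| ^ p)

lemma toReal_gt_one {p : ℝ≥0∞} (hp1 : 1 < p) (hp : p ≠ ⊤) : 1 < p.toReal := by
  have := (ENNReal.toReal_lt_toReal ENNReal.one_ne_top hp).2 hp1
  simpa using this

lemma first_order {d K : ℕ} {p : ℝ} (hp : 1 < p) (v g : Om d → ℝ)
    (h : ∀ s : ℝ, Ex K (fun ω => |v ω| ^ p) ≤ Ex K (fun ω => |v ω - s * g ω| ^ p)) :
    Ex K (fun ω => jj p (v ω) * g ω) = 0 := by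
  have hd : HasDerivAt (fun s : ℝ => Ex K (fun ω => |v ω - s * g ω| ^ p))
      (Ex K (fun ω => (-p) * (jj p (v ω) * g ω))) 0 := by
    unfold Ex
    apply HasDerivAt.div_const
    apply HasDerivAt.fun_sum
    intro w _
    have h1 : HasDerivAt (fun s : ℝ => v (ext w) - s * g (ext w)) (- g (ext w)) 0 := by
      simpa using ((hasDerivAt_id (0 : ℝ)).mul_const (g (ext w))).const_sub (v (ext w))
    have h2 := (hasDerivAt_abs_rpow (v (ext w) - 0 * g (ext w)) hp).comp (0 : ℝ) h1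
    have e : -p * (jj p (v (ext w)) * g (ext w)) =
        p * |v (ext w) - 0 * g (ext w)| ^ (p - 2) * (v (ext w) - 0 * g (ext w)) * -g (ext w) := by
      simp only [zero_mul, sub_zero, jj]; ring
    exact h2.congr_deriv e.symm
  have hm : IsLocalMin (fun s : ℝ => Ex K (fun ω => |v ω - s * g ω| ^ p)) 0 := by
    apply Filter.Eventually.of_forall
    intro s
    simpa using h s
  have := hm.hasDerivAt_eq_zero hd
  rw [Ex_mul] at this
  rcases mul_eq_zero.1 this with h1 | h1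
  · linarith
  · exact h1

lemma exists_step {d : ℕ} (K : ℕ) {p : ℝ≥0∞} (hp1 : 1 < p) (hp : p ≠ ⊤) (v0 : Om d → ℝ)
    (S : Finset (Idx d)) : ∃ a : Idx d → ℝ,
      (∀ ι ∈ S, Ex K (fun ω => jj p.toReal (v0 ω - ∑ κ ∈ S, a κ * psi p.toReal κ ω) *
        psi p.toReal ι ω) = 0) ∧
      Ex K (fun ω => |v0 ω - ∑ κ ∈ S, a κ * psi p.toReal κ ω| ^ p.toReal) ≤
        Ex K (fun ω => |v0 ω| ^ p.toReal) := by
  have : Fact (1 ≤ p) := ⟨hp1.le⟩
  have hp0 : p ≠ 0 := (zero_lt_one.trans hp1).ne'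
  have hr := toReal_gt_one hp1 hp
  let W : Submodule ℝ (Lp ℝ p (cube d)) :=
    Submodule.span ℝ ((fun ι => emb p K (psi p.toReal ι)) '' (S : Set (Idx d)))
  have : FiniteDimensional ℝ W := FiniteDimensional.span_of_finite ℝ (S.finite_toSet.image _)
  obtain ⟨G, hG, hmin⟩ := exists_best W (emb p K v0)
  obtain ⟨a, ha⟩ := (Submodule.mem_span_image_finset_iff_exists_fun' ℝ).1 hG
  have hcmp : ∀ (u : Om d → ℝ), emb p K u ∈ W →
      Ex K (fun ω => |v0 ω - ∑ κ ∈ S, a κ * psi p.toReal κ ω| ^ p.toReal) ≤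
        Ex K (fun ω => |v0 ω - u ω| ^ p.toReal) := by
    intro u hu
    have h1 := hmin _ hu
    rw [← ha] at h1
    simp only [← emb_smul] at h1
    rw [← emb_sum, ← emb_sub, ← emb_sub, norm_emb hp0 hp, norm_emb hp0 hp,
      Real.rpow_le_rpow_iff (Ex_nonneg K fun _ => by positivity)
        (Ex_nonneg K fun _ => by positivity) (by positivity)] at h1
    exact h1
  refine ⟨a, ?_, ?_⟩
  · intro ι hι
    apply first_order hr
    intro s
    have := hcmp (fun ω => ∑ κ ∈ S, a κ * psi p.toReal κ ω + s * psi p.toReal ι ω) (by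
      rw [emb_add, emb_sum, emb_smul]
      simp only [emb_smul]
      rw [ha]
      exact W.add_mem hG (W.smul_mem _ (Submodule.subset_span ⟨ι, hι, rfl⟩)))
    simpa only [sub_add_eq_sub_sub] using this
  · have := hcmp (fun _ => 0) (by rw [emb_zero]; exact W.zero_mem)
    simpa only [sub_zero] using this

lemma exists_SRun {d : ℕ} (K : ℕ) {p : ℝ≥0∞} (hp1 : 1 < p) (hp : p ≠ ⊤) (v0 : Om d → ℝ) :
    ∃ idx v, SRun p.toReal K v0 idx v := by
  choose a ha1 ha2 using exists_step K hp1 hp v0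
  let res : Finset (Idx d) → Om d → ℝ := fun S ω => v0 ω - ∑ κ ∈ S, a S κ * psi p.toReal κ ω
  have hmax : ∀ S : Finset (Idx d), ∃ ι0, Valid K ι0 ∧ ∀ ι, Valid K ι →
      |Ex K (fun ω => jj p.toReal (res S ω) * psi p.toReal ι ω)| ≤
        |Ex K (fun ω => jj p.toReal (res S ω) * psi p.toReal ι0 ω)| := by
    intro S
    obtain ⟨ι0, h0, h1⟩ := Set.exists_max_image {ι : Idx d | Valid K ι}
      (fun ι => |Ex K (fun ω => jj p.toReal (res S ω) * psi p.toReal ι ω)|) (valid_finite d K)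
      ⟨fun _ => none, by intro c a i h; simp at h⟩
    exact ⟨ι0, h0, h1⟩
  choose nx hn1 hn2 using hmax
  let T : ℕ → Finset (Idx d) := fun k => Nat.rec ∅ (fun _ S => insert (nx S) S) k
  have hT : ∀ k, T k = (Finset.range k).image (fun j => nx (T j)) := by
    intro k
    induction k with
    | zero => simp [T]
    | succ k ih =>
      rw [Finset.range_add_one, Finset.image_insert, ← ih]
  refine ⟨fun k => nx (T k), fun k => res (T k), fun k => hn1 _, ?_, ?_, fun k => hn2 _,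
    fun k => ha2 _⟩
  · intro k
    refine ⟨a (T k), fun ω => ?_⟩
    rw [← hT]
  · intro k j hj
    apply ha1 (T k)
    rw [hT]
    exact Finset.mem_image.2 ⟨j, Finset.mem_range.2 hj, rfl⟩

section conv
variable {d : ℕ} (K : ℕ) {p : ℝ≥0∞} [Fact (1 ≤ p)]

lemma norming (hp1 : 1 < p) (hp : p ≠ ⊤) (v : Om d → ℝ) (hv : emb p K v ≠ 0) :
    ∃ c : ℝ, 0 < c ∧ ‖c • Phi p K (fun ω => jj p.toReal (v ω))‖ = 1 ∧
      (c • Phi p K (fun ω => jj p.toReal (v ω))) (emb p K v) = ‖emb p K v‖ := by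
  have hp0 : p ≠ 0 := (zero_lt_one.trans hp1).ne'
  have hr := toReal_gt_one hp1 hp
  have hn : 0 < ‖emb p K v‖ := norm_pos_iff.2 hv
  set r := p.toReal with hrdef
  set Z := Ex K (fun ω => |v ω| ^ r) with hZ
  have hZ0 : 0 ≤ Z := Ex_nonneg K fun _ => by positivity
  have hnZ : ‖emb p K v‖ = Z ^ r⁻¹ := norm_emb hp0 hp K v
  have hZn : Z = ‖emb p K v‖ ^ r := by
    rw [hnZ, ← Real.rpow_mul hZ0, inv_mul_cancel₀ (by linarith), Real.rpow_one]
  have hconj : r.HolderConjugate (ENNReal.conjExponent p).toReal :=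
    ENNReal.HolderConjugate.toReal hr
  set q := (ENNReal.conjExponent p).toReal with hq
  have hq1 : 1 < q := hconj.symm.lt
  have hqt : ENNReal.conjExponent p ≠ ⊤ := by
    intro h; rw [h] at hq; simp at hq; linarith
  have hq0 : ENNReal.conjExponent p ≠ 0 := by
    intro h; rw [h] at hq; simp at hq; linarith
  have hqr : (r - 1) * q = r := hconj.sub_one_mul_conj
  have hw : ‖emb (ENNReal.conjExponent p) K (fun ω => jj r (v ω))‖ = ‖emb p K v‖ ^ (r - 1) := by
    rw [norm_emb hq0 hqt, ← hq]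
    have : Ex K (fun ω => |jj r (v ω)| ^ q) = Z := by
      apply Ex_congr
      intro ω
      rw [abs_jj hr, ← Real.rpow_mul (abs_nonneg _), hqr]
    rw [this, hZn, ← Real.rpow_mul hn.le]
    congr 1
    rw [← hqr]; field_simp
    rw [hqr]
  have hval : ((‖emb p K v‖ ^ (r - 1))⁻¹ • Phi p K (fun ω => jj r (v ω))) (emb p K v) =
      ‖emb p K v‖ := by
    rw [smul_apply, Phi_emb, smul_eq_mul]
    have : Ex K (fun ω => jj r (v ω) * v ω) = Z := Ex_congr K fun ω => jj_mul_self hr _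
    rw [this, hZn, ← rpow_pred_mul hr hn.le, ← mul_assoc,
      inv_mul_cancel₀ (Real.rpow_pos_of_pos hn _).ne', one_mul]
  refine ⟨(‖emb p K v‖ ^ (r - 1))⁻¹, inv_pos.2 (Real.rpow_pos_of_pos hn _), ?_, hval⟩
  apply le_antisymm
  · apply ContinuousLinearMap.opNorm_le_bound _ zero_le_one
    intro g
    rw [smul_apply, smul_eq_mul, Real.norm_eq_abs, abs_mul,
      abs_of_pos (inv_pos.2 (Real.rpow_pos_of_pos hn _)), one_mul,
      inv_mul_le_iff₀ (Real.rpow_pos_of_pos hn _), ← hw]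
    exact Phi_le p K _ g
  · have := ((‖emb p K v‖ ^ (r - 1))⁻¹ • Phi p K (fun ω => jj r (v ω))).le_opNorm (emb p K v)
    rw [hval, norm_norm] at this
    exact le_of_mul_le_mul_right (by linarith) hn

lemma SRun.isRun (hp1 : 1 < p) (hp : p ≠ ⊤) {v0 : Om d → ℝ} {idx : ℕ → Idx d}
    {v : ℕ → Om d → ℝ} (h : SRun p.toReal K v0 idx v) {t : ℝ} (ht1 : t ≤ 1) :
    IsRun (haarDict d p) t (fun k => emb p K (psi p.toReal (idx k))) (fun k => emb p K (v k)) ∧
      emb p K (v 0) = emb p K v0 := by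
  have h0 : v 0 = v0 := by
    obtain ⟨a, ha⟩ := h.span 0
    funext ω; simpa using ha ω
  have hspan : ∀ k, emb p K (v 0) - emb p K (v k) ∈
      Submodule.span ℝ ((fun k => emb p K (psi p.toReal (idx k))) '' Iio k) := by
    intro k
    obtain ⟨a, ha⟩ := h.span k
    have : v k = fun ω => v0 ω - ∑ ι ∈ (Finset.range k).image idx, a ι * psi p.toReal ι ω :=
      funext ha
    rw [this, h0, emb_sub, sub_sub_cancel, emb_sum]
    apply Submodule.sum_mem
    intro ι hι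
    rw [emb_smul]
    apply Submodule.smul_mem
    apply Submodule.subset_span
    obtain ⟨j, hj, rfl⟩ := Finset.mem_image.1 hι
    exact ⟨j, Finset.mem_range.1 hj, rfl⟩
  have hbest : ∀ k, ∀ G ∈ Submodule.span ℝ ((fun k => emb p K (psi p.toReal (idx k))) '' Iio k),
      ‖emb p K (v k)‖ ≤ ‖emb p K (v 0) - G‖ := by
    intro k G hG
    by_cases hz : emb p K (v k) = 0
    · rw [hz, norm_zero]; exact norm_nonneg _
    obtain ⟨c, -, h1, h2⟩ := norming K hp1 hp (v k) hz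
    set F := c • Phi p K (fun ω => jj p.toReal (v k ω)) with hF
    have hker : ∀ G ∈ Submodule.span ℝ ((fun k => emb p K (psi p.toReal (idx k))) '' Iio k),
        F G = 0 := by
      intro G hG
      induction hG using Submodule.span_induction with
      | mem x hx =>
        obtain ⟨j, hj, rfl⟩ := hx
        rw [hF, smul_apply, Phi_emb, h.orth k j hj, smul_zero]
      | zero => simp
      | add x y _ _ hx hy => rw [map_add, hx, hy, add_zero]
      | smul a x _ hx => rw [map_smul, hx, smul_zero]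
    have h3 : F (emb p K (v 0) - G) = ‖emb p K (v k)‖ := by
      have h4 := hker _ (hspan k)
      rw [map_sub] at h4
      rw [map_sub, hker G hG, ← h2]; linarith
    have h5 := F.le_opNorm (emb p K (v 0) - G)
    rw [h3, h1, one_mul, norm_norm] at h5
    exact h5
  have hI : ∀ k : ℕ, Iic k = Iio (k + 1) := fun k => by ext j; simp
  refine ⟨fun k => ⟨fun hz => ?_, fun hz => ⟨emb_psi_mem p (h.valid k), ?_, ?_, ?_⟩⟩, by rw [h0]⟩
  · have := hbest (k + 1) _ (Submodule.span_mono (image_mono (Iio_subset_Iio (Nat.le_succ k)))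
      (hspan k))
    simp only at hz
    rw [sub_sub_cancel, hz, norm_zero] at this
    exact norm_eq_zero.1 (le_antisymm this (norm_nonneg _))
  · obtain ⟨c, hc, h1, h2⟩ := norming K hp1 hp (v k) hz
    refine ⟨_, h1, h2, fun g hg => ?_⟩
    refine le_trans (mul_le_of_le_one_left (abs_nonneg _) ht1) ?_
    simp only [smul_apply, smul_eq_mul, abs_mul]
    apply mul_le_mul_of_nonneg_left _ (abs_nonneg _)
    rcases Phi_dict p K (fun ω => jj p.toReal (v k ω)) hg with h3 | ⟨ι, hι, rfl⟩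
    · rw [h3, abs_zero]; exact abs_nonneg _
    · rw [Phi_emb, Phi_emb]; exact h.max k ι hι
  · rw [hI]; exact hspan (k + 1)
  · rw [hI]; exact hbest (k + 1)

lemma bestErr_emb_le (S : Finset (Idx d)) (hS : ∀ ι ∈ S, Valid K ι) (m : ℕ) (hm : S.card ≤ m)
    (a : Idx d → ℝ) (v0 : Om d → ℝ) :
    bestErr (haarDict d p) m (emb p K v0) ≤
      ‖emb p K (fun ω => v0 ω - ∑ ι ∈ S, a ι * psi p.toReal ι ω)‖ := by
  classical
  rw [emb_sub, emb_sum]
  apply bestErr_le _ _ _ (S.image fun ι => emb p K (psi p.toReal ι))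
  · intro g hg
    obtain ⟨ι, hι, rfl⟩ := Finset.mem_image.1 hg
    exact emb_psi_mem p (hS ι hι)
  · exact Finset.card_image_le.trans hm
  · apply Submodule.sum_mem
    intro ι hι
    rw [emb_smul]
    apply Submodule.smul_mem
    apply Submodule.subset_span
    exact Finset.mem_coe.2 (Finset.mem_image.2 ⟨ι, hι, rfl⟩)

/-- reduction of the negative statement to a statement on digit arrays -/
lemma not_greedy_of (hp1 : 1 < p) (hp : p ≠ ⊤) {t : ℝ} (ht1 : t ≤ 1)
    (H : ∀ (c : ℕ) (C : ℝ), 1 ≤ c → 0 ≤ C → ∃ (K m : ℕ) (v0 : Om d → ℝ) (S : Finset (Idx d))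
      (a : Idx d → ℝ), 1 ≤ m ∧ S.card ≤ m ∧ (∀ ι ∈ S, Valid K ι) ∧
      ∀ idx v, SRun p.toReal K v0 idx v → ∀ N ≤ c * m,
        C * Ex K (fun ω => |v0 ω - ∑ ι ∈ S, a ι * psi p.toReal ι ω| ^ p.toReal) <
          Ex K (fun ω => |v N ω| ^ p.toReal)) :
    ¬ ∃ C₁ C₂ : ℝ, ∀ φ f : ℕ → Lp ℝ p (cube d), IsRun (haarDict d p) t φ f →
      ∀ m : ℕ, 1 ≤ m → ‖f ⌈C₁ * m⌉₊‖ ≤ C₂ * bestErr (haarDict d p) m (f 0) := by
  rintro ⟨C₁, C₂, h⟩
  have hp0 : p ≠ 0 := (zero_lt_one.trans hp1).ne'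
  have hr := toReal_gt_one hp1 hp
  obtain ⟨K, m, v0, S, a, hm, hS, hv, hH⟩ := H (⌈C₁⌉₊ + 1) (|C₂| ^ p.toReal) (by omega)
    (by positivity)
  obtain ⟨idx, v, hrun⟩ := exists_SRun K hp1 hp v0
  obtain ⟨h1, h2⟩ := hrun.isRun K hp1 hp ht1
  have h3 := h _ _ h1 m hm
  rw [h2] at h3
  have h4 := bestErr_emb_le K (p := p) S hv m hS a v0
  have h5 := bestErr_nonneg (haarDict d p) m (emb p K v0)
  have hN : ⌈C₁ * m⌉₊ ≤ (⌈C₁⌉₊ + 1) * m := by
    rw [Nat.ceil_le]
    push_cast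
    apply mul_le_mul_of_nonneg_right _ (Nat.cast_nonneg m)
    linarith [Nat.le_ceil C₁]
  have h6 := hH idx v hrun _ hN
  have h7 : ‖emb p K (v ⌈C₁ * m⌉₊)‖ ≤
      |C₂| * ‖emb p K (fun ω => v0 ω - ∑ ι ∈ S, a ι * psi p.toReal ι ω)‖ :=
    h3.trans ((mul_le_mul_of_nonneg_right (le_abs_self _) h5).trans
      (mul_le_mul_of_nonneg_left h4 (abs_nonneg _)))
  have h8 := Real.rpow_le_rpow (norm_nonneg _) h7 (by linarith : 0 ≤ p.toReal)
  rw [Real.mul_rpow (abs_nonneg _) (norm_nonneg _), norm_emb hp0 hp, norm_emb hp0 hp,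
    ← Real.rpow_mul (Ex_nonneg K fun _ => by positivity),
    ← Real.rpow_mul (Ex_nonneg K fun _ => by positivity),
    inv_mul_cancel₀ (by linarith), Real.rpow_one, Real.rpow_one] at h8
  linarith

end conv

end Pool.Agent.Lib.MP_4a278a_an
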