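import Pool.Agent.Lib.MP_4a278a_an.Layer

set_option autoImplicit false

namespace Pool.Agent.Lib.MP_4a278a_an

open Finset

section
variable {d : ℕ} {x y : Fin d}

lemma GG_neg_of (n : ℕ) {ω ω' : Om d} (h0 : ω' x 0 = ω x 0)
    (h : ∀ j, 1 ≤ j → j ≤ n → sL x y n j ω' = - sL x y n j ω) : GG x y n ω' = - GG x y n ω := by
  unfold GG
  rw [h0, sum_congr rfl (fun j hj => h j (mem_Icc.1 hj).1 (mem_Icc.1 hj).2), sum_neg_distrib]
  ring

lemma val_main (hxy : x ≠ y) {p : ℝ} (hp : 1 < p) (hp2 : p ≤ 2) {n K : ℕ} (hK : n < K)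
    {ι : Idx d} (hι : Valid K ι) (hoth : ∀ c, c ≠ x → c ≠ y → ι c = none) {a i b i' : ℕ}
    (hx : ι x = some (a, i)) (hy : ι y = some (b, i')) (ha1 : 1 ≤ a) (han : a ≤ n) (hbn : b < n)
    (hab : n ≤ a + b) :
    |Ex K (fun ω => jj p (GG x y n ω) * psi p ι ω)| ≤
      4 / (1 - tau p) * (n : ℝ) ^ (p / 2 - 1) * tau p ^ n := by
  set A : Finset ℕ := (Icc 1 n).filter (fun j => a ≤ j ∨ j < n - b) with hA
  set A' : Finset ℕ := (Icc 1 n).filter (fun j => ¬ (a ≤ j ∨ j < n - b)) with hA'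
  have memA : ∀ j ∈ A, 1 ≤ j ∧ j ≤ n ∧ (a ≤ j ∨ j < n - b) := by
    intro j hj
    rw [hA, mem_filter, mem_Icc] at hj
    exact ⟨hj.1.1, hj.1.2, hj.2⟩
  have memA' : ∀ j ∈ A', 1 ≤ j ∧ j < a ∧ n - b ≤ j := by
    intro j hj
    rw [hA', mem_filter, mem_Icc] at hj
    omega
  let T : ℕ → Om d → Om d := fun j => if a ≤ j then f1 x j else f1 y (n - j)
  have Tx : ∀ j ∈ A, ∀ ω r, r ≠ j ∨ r < a → T j ω x r = ω x r := by
    intro j _ ω r hr
    simp only [T]
    split_ifs with h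
    · exact f1_ne x (by omega) ω x
    · rw [f1_other hxy]
  have Ty : ∀ j ∈ A, ∀ ω r, r ≠ n - j ∨ r ≤ b → T j ω y r = ω y r := by
    intro j hj ω r hr
    have := memA j hj
    simp only [T]
    split_ifs with h
    · rw [f1_other hxy.symm]
    · exact f1_ne y (by omega) ω y
  have fam : SignFam K A T (sL x y n) := by
    refine ⟨?_, fun j _ ω => sL_cases n j ω, ?_, ?_⟩
    · intro j hj
      have := memA j hj
      simp only [T]
      split_ifs
      · exact inv_f1 x (by omega)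
      · exact inv_f1 y (by omega)
    · intro j _ ω
      simp only [T, sL]
      split_ifs
      · rw [f1_same, f1_other hxy.symm, sg_not]; ring
      · rw [f1_same, f1_other hxy, sg_not]; ring
    · intro i hi j hj hij ω
      have h1 := memA i hi
      have h2 := memA j hj
      rw [sL, sL, Tx j hj ω i (Or.inl hij), Ty j hj ω (n - i) (Or.inl (by omega))]
  let θ : Om d → ℝ := fun ω => ind (ω x 0 = true) *
    (ind (num (ω x) a = i) * ind (num (ω y) b = i')) *
    (((2 : ℝ) ^ a) ^ (1 / p) * ((2 : ℝ) ^ b) ^ (1 / p)) * (sg (ω y b) * sg (ω y (n - a)))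
  let c : Om d → ℝ := fun ω => ∑ j ∈ A', sL x y n j ω
  have hθ : ∀ j ∈ A, ∀ ω, θ (T j ω) = θ ω := by
    intro j hj ω
    simp only [θ]
    rw [Tx j hj ω 0 (Or.inr (by omega)), Ty j hj ω b (Or.inr le_rfl),
      Ty j hj ω (n - a) (Or.inr (by omega)),
      num_congr (fun r hr => Tx j hj ω r (Or.inr hr)),
      num_congr (fun r hr => Ty j hj ω r (Or.inr hr.le))]
  have hc : ∀ j ∈ A, ∀ ω, c (T j ω) = c ω := by
    intro j hj ω
    simp only [c]
    apply sum_congr rfl
    intro r hr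
    have := memA' r hr
    rw [sL, sL, Tx j hj ω r (Or.inr this.2.1), Ty j hj ω (n - r) (Or.inr (by omega))]
  have haA : a ∈ A := by
    rw [hA, mem_filter, mem_Icc]; exact ⟨⟨ha1, han⟩, Or.inl le_rfl⟩
  have key := fam.exch hp hp2 θ c hθ hc haA
  have e1 : ∀ ω, jj p (GG x y n ω) * psi p ι ω =
      θ ω * jj p (c ω + ∑ j ∈ A, sL x y n j ω) * sL x y n a ω := by
    intro ω
    simp only [θ, c]
    rw [psi_two hxy p ι hoth, hx, hy, GG]
    by_cases h0 : ω x 0 = true
    · rw [ind_pos h0, one_mul, one_mul, add_comm, hA, hA', sum_filter_add_sum_filter_not]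
      simp only [h1, sL]
      have := sg_sq (ω y (n - a))
      linear_combination (-(jj p (∑ j ∈ Icc 1 n, sg (ω x j) * sg (ω y (n - j))) *
        ind (num (ω x) a = i) * ind (num (ω y) b = i') * ((2 : ℝ) ^ a) ^ (1 / p) *
        ((2 : ℝ) ^ b) ^ (1 / p) * sg (ω y b) * sg (ω x a))) * this
    · rw [ind_neg h0]; simp [jj_zero]
  rw [Ex_congr K e1]
  refine key.trans ?_
  have e2 : Ex K (fun ω => |θ ω|) ≤ tau p ^ (a + b) := by
    have h3 : ∀ ω, |θ ω| ≤ (((2 : ℝ) ^ a) ^ (1 / p) * ((2 : ℝ) ^ b) ^ (1 / p)) *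
        (ind (num (ω x) a = i) * ind (num (ω y) b = i')) := by
      intro ω
      simp only [θ]
      rw [abs_mul, abs_mul, abs_mul, abs_mul (sg _), abs_sg, abs_sg, mul_one, mul_one,
        abs_of_nonneg (ind_nonneg _), abs_of_nonneg (mul_nonneg (ind_nonneg _) (ind_nonneg _)),
        abs_of_nonneg (by positivity), mul_comm]
      apply mul_le_mul_of_nonneg_left _ (by positivity)
      exact mul_le_of_le_one_left (mul_nonneg (ind_nonneg _) (ind_nonneg _)) (ind_le_one _)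
    refine (Ex_mono K h3).trans ?_
    rw [Ex_mul, Ex_ind2 hxy (by omega) (by omega) (hι x a i hx).2 (hι y b i' hy).2, pow_add,
      ← tau_pow, ← tau_pow]
    apply le_of_eq; ring
  obtain ⟨k, hk⟩ : ∃ k, a + b = n + k := ⟨a + b - n, by omega⟩
  have hcard : n ≤ A.card + k := by
    have h1 := card_filter_add_card_filter_not (s := Icc 1 n) (fun j => a ≤ j ∨ j < n - b)
    have h2 : A'.card ≤ (Ico (n - b) a).card := by
      apply card_le_card
      intro j hj
      have := memA' j hj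
      rw [mem_Ico]; omega
    rw [Nat.card_Ico] at h2
    rw [← hA, ← hA', Nat.card_Icc] at h1
    omega
  have hM1 : 1 ≤ A.card := card_pos.2 ⟨a, haA⟩
  have hnM : (n : ℝ) ≤ A.card * ((k : ℝ) + 1) := by
    have : n ≤ A.card * (k + 1) := by nlinarith
    exact_mod_cast this
  have hM0 : (0 : ℝ) < A.card := by exact_mod_cast hM1
  have hn0 : (0 : ℝ) < n := by exact_mod_cast (by omega : 0 < n)
  have e3 : (A.card : ℝ) ^ (p / 2 - 1) ≤ ((k : ℝ) + 1) * (n : ℝ) ^ (p / 2 - 1) := by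
    have hk1 : (1 : ℝ) ≤ (k : ℝ) + 1 := by have := Nat.cast_nonneg (α := ℝ) k; linarith
    have h1 : (A.card * ((k : ℝ) + 1)) ^ (p / 2 - 1) ≤ (n : ℝ) ^ (p / 2 - 1) :=
      Real.rpow_le_rpow_of_nonpos hn0 hnM (by linarith)
    rw [Real.mul_rpow hM0.le (by linarith)] at h1
    have h2 : ((k : ℝ) + 1) ^ (-1 : ℝ) ≤ ((k : ℝ) + 1) ^ (p / 2 - 1) :=
      Real.rpow_le_rpow_of_exponent_le hk1 (by linarith)
    rw [Real.rpow_neg_one] at h2
    have h3 := mul_le_mul_of_nonneg_left h2 (Real.rpow_nonneg hM0.le (p / 2 - 1))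
    rw [← div_eq_mul_inv, div_le_iff₀ (by linarith)] at h3
    have h4 := mul_le_mul_of_nonneg_right h1 (by linarith : (0 : ℝ) ≤ (k : ℝ) + 1)
    linarith
  have e4 := succ_mul_pow_le (tau_pos p).le (tau_lt_one hp) k
  have hτ := tau_pos p
  have h5 : 0 ≤ (n : ℝ) ^ (p / 2 - 1) := Real.rpow_nonneg hn0.le _
  calc 4 * (A.card : ℝ) ^ (p / 2 - 1) * Ex K (fun ω => |θ ω|)
      ≤ 4 * (((k : ℝ) + 1) * (n : ℝ) ^ (p / 2 - 1)) * tau p ^ (a + b) := by
        apply mul_le_mul _ e2 (Ex_nonneg K fun _ => abs_nonneg _) (by positivity)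
        linarith
    _ = (((k : ℝ) + 1) * tau p ^ k) * (4 * (n : ℝ) ^ (p / 2 - 1) * tau p ^ n) := by
        rw [hk, pow_add]; ring
    _ ≤ (1 / (1 - tau p)) * (4 * (n : ℝ) ^ (p / 2 - 1) * tau p ^ n) :=
        mul_le_mul_of_nonneg_right e4 (by positivity)
    _ = _ := by ring

lemma val_GG (hxy : x ≠ y) {p : ℝ} (hp : 1 < p) (hp2 : p ≤ 2) {n K : ℕ} (hK : n < K)
    {ι : Idx d} (hι : Valid K ι) :
    |Ex K (fun ω => jj p (GG x y n ω) * psi p ι ω)| ≤
      4 / (1 - tau p) * (n : ℝ) ^ (p / 2 - 1) * tau p ^ n := by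
  have hpos : 0 ≤ 4 / (1 - tau p) * (n : ℝ) ^ (p / 2 - 1) * tau p ^ n := by
    have := tau_lt_one hp
    have := tau_pos p
    have : 0 < 1 - tau p := by linarith
    positivity
  have zero : ∀ T : Om d → Om d, Inv K T →
      (∀ ω, jj p (GG x y n (T ω)) * psi p ι (T ω) = - (jj p (GG x y n ω) * psi p ι ω)) →
      |Ex K (fun ω => jj p (GG x y n ω) * psi p ι ω)| ≤
        4 / (1 - tau p) * (n : ℝ) ^ (p / 2 - 1) * tau p ^ n := by
    intro T hT h
    rw [hT.odd h, abs_zero]; exact hpos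
  by_cases hoth : ∀ c, c ≠ x → c ≠ y → ι c = none
  swap
  · push Not at hoth
    obtain ⟨c, hcx, hcy, hc⟩ := hoth
    obtain ⟨⟨a, i⟩, hc⟩ := Option.ne_none_iff_exists'.1 hc
    apply zero _ (inv_f1 c (hι c a i hc).1)
    intro ω
    rw [psi_f1_odd p ι c hc, GG_congr n (ω' := ω) (fun j _ => by rw [f1_other hcx.symm])
      (fun j _ => by rw [f1_other hcy.symm])]
    ring
  rcases hy : ι y with _ | ⟨b, i'⟩
  · apply zero (fl (fun c j => decide (c = y ∧ j < n))) (inv_fl _ (by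
      intro c j h; simp only [decide_eq_true_eq] at h; omega))
    intro ω
    have ex : fl (fun c j => decide (c = y ∧ j < n)) ω x = ω x := by
      funext j; simp [fl, hxy]
    rw [psi_two hxy p ι hoth, psi_two hxy p ι hoth, hy, ex, GG_neg_of n (ω := ω) (by rw [ex]),
      jj_neg]
    · simp only [h1]; ring
    · intro j h1 h2
      have : n - j < n := by omega
      rw [sL, sL, ex]
      simp [fl, this]
  by_cases hbn : n ≤ b
  · apply zero _ (inv_f1 y (hι y b i' hy).1)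
    intro ω
    rw [psi_f1_odd p ι y hy, GG_congr n (ω' := ω) (fun j _ => by rw [f1_other hxy])
      (fun j hj => f1_ne y (by omega) ω y)]
    ring
  push Not at hbn
  by_cases hx0 : ∀ a i, ι x = some (a, i) → a = 0
  · apply zero (fl (fun c j => decide (c = x ∧ 1 ≤ j ∧ j ≤ n))) (inv_fl _ (by
      intro c j h; simp only [decide_eq_true_eq] at h; omega))
    intro ω
    have ey : fl (fun c j => decide (c = x ∧ 1 ≤ j ∧ j ≤ n)) ω y = ω y := by
      funext j; simp [fl, hxy.symm]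
    have e0 : fl (fun c j => decide (c = x ∧ 1 ≤ j ∧ j ≤ n)) ω x 0 = ω x 0 := by simp [fl]
    rw [psi_two hxy p ι hoth, psi_two hxy p ι hoth, ey, GG_neg_of n (ω := ω) e0, jj_neg,
      h1_congr p (ι x) (z' := ω x)]
    · ring
    · intro a i h j hj
      have := hx0 a i h
      rw [show j = 0 by omega, e0]
    · intro j h1 h2
      rw [sL, sL, ey]
      simp [fl, h1, h2]
  push Not at hx0
  obtain ⟨a, i, hx, ha0⟩ := hx0
  by_cases han : n < a
  · apply zero _ (inv_f1 x (hι x a i hx).1)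
    intro ω
    rw [psi_f1_odd p ι x hx, GG_congr n (ω' := ω) (fun j hj => f1_ne x (by omega) ω x)
      (fun j _ => by rw [f1_other hxy.symm])]
    ring
  push Not at han
  by_cases hab : a + b < n
  · apply zero _ ((inv_f1 x (hι x a i hx).1).comp (inv_f1 y (by omega : n - a < K)))
    intro ω
    rw [psi_f1_odd p ι x hx, psi_f1_even p ι y (n - a) (by
      intro a' i'' h; rw [hy] at h; simp only [Option.some.injEq, Prod.mk.injEq] at h; omega)]
    have : GG x y n (f1 x a (f1 y (n - a) ω)) = GG x y n ω := by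
      unfold GG
      rw [f1_ne x (Ne.symm ha0), f1_other hxy]
      congr 1
      apply sum_congr rfl
      intro j hj
      rw [mem_Icc] at hj
      rw [sL, sL, f1_other hxy.symm]
      by_cases hja : j = a
      · subst hja
        rw [f1_same, f1_same, f1_other hxy, sg_not, sg_not]; ring
      · rw [f1_ne x hja, f1_other hxy, f1_ne y (by omega)]
    rw [this]; ring
  exact val_main hxy hp hp2 hK hι hoth hx hy (by omega) han hbn (by omega)

lemma jj_psi_BB (hxy : x ≠ y) {p : ℝ} (hp : 1 < p) {k0 s N K : ℕ} (hN : N ≤ 2 ^ k0)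
    (hK : k0 + 1 + s < K) {κ ι : Idx d} (hκ : κ ∈ BB x y k0 s N) (hι : Valid K ι) :
    Ex K (fun ω => jj p (psi p κ ω) * psi p ι ω) = if κ = ι then 1 else 0 := by
  split_ifs with h
  · subst h
    rw [Ex_congr K (fun ω => jj_mul_self hp _), psi_norm (by linarith) hι]
  · have : ∀ ω, jj p (psi p κ ω) * psi p ι ω =
        (((2 : ℝ) ^ (k0 + 1 + s)) ^ (1 / p)) ^ (p - 2) * (psi p κ ω * psi p ι ω) := by
      intro ω
      by_cases h0 : psi p κ ω = 0
      · rw [h0, jj_zero]; ring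
      · rw [jj, abs_psi_BB hxy p hκ ω h0]; ring
    rw [Ex_congr K this, Ex_mul, psi_orth p p (valid_BB hN hK hκ) hι h, mul_zero]

lemma small_run (hxy : x ≠ y) {p : ℝ} (hp : 1 < p) (hp2 : p ≤ 2) {n k0 N K : ℕ} (hn : 1 ≤ n)
    (hK : n < K) (hN : N ≤ 2 ^ k0) (hK' : k0 + 1 + 0 < K) {e : ℝ}
    (he : jj p e = 2 * (4 / (1 - tau p) * (n : ℝ) ^ (p / 2 - 1) * tau p ^ n))
    {idx : ℕ → Idx d} {v : ℕ → Om d → ℝ}
    (h : SRun p K (fun ω => GG x y n ω + ∑ ι ∈ BB x y k0 0 N, e * psi p ι ω) idx v) :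
    ∀ k ≤ N, Ex K (fun ω => |GG x y n ω| ^ p) ≤ Ex K (fun ω => |v k ω| ^ p) := by
  set δ := 4 / (1 - tau p) * (n : ℝ) ^ (p / 2 - 1) * tau p ^ n with hδ
  have hδ0 : 0 < δ := by
    have := tau_lt_one hp
    have := tau_pos p
    have : 0 < 1 - tau p := by linarith
    have : (0 : ℝ) < n := by exact_mod_cast hn
    positivity
  have form : ∀ k, (∀ j < k, idx j ∈ BB x y k0 0 N) → ∃ a : Idx d → ℝ,
      (∀ ι, ι ∉ (range k).image idx → a ι = e) ∧
      ∀ ω, v k ω = GG x y n ω + ∑ ι ∈ BB x y k0 0 N, a ι * psi p ι ω := by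
    intro k hk
    obtain ⟨a, ha⟩ := h.span k
    refine ⟨fun ι => e - if ι ∈ (range k).image idx then a ι else 0, ?_, fun ω => ?_⟩
    · intro ι hι; simp only [hι, if_false, sub_zero]
    · have hsub : (range k).image idx ⊆ BB x y k0 0 N := by
        intro ι hι
        obtain ⟨j, hj, rfl⟩ := mem_image.1 hι
        exact hk j (mem_range.1 hj)
      rw [ha]
      simp only [sub_mul, sum_sub_distrib, ite_mul, zero_mul, sum_ite_mem, inter_eq_right.2 hsub]
      ring
  have val : ∀ (a : Idx d → ℝ) (ι : Idx d), Valid K ι →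
      Ex K (fun ω => jj p (GG x y n ω + ∑ κ ∈ BB x y k0 0 N, a κ * psi p κ ω) * psi p ι ω) =
        Ex K (fun ω => jj p (GG x y n ω) * psi p ι ω) +
          if ι ∈ BB x y k0 0 N then jj p (a ι) else 0 := by
    intro a ι hι
    have e1 : ∀ ω, jj p (GG x y n ω + ∑ κ ∈ BB x y k0 0 N, a κ * psi p κ ω) * psi p ι ω =
        jj p (GG x y n ω) * psi p ι ω +
          ∑ κ ∈ BB x y k0 0 N, jj p (a κ) * (jj p (psi p κ ω) * psi p ι ω) := by
      intro ω
      rw [disj_sum _ _ _ (jj p) (jj_zero p) (BB_disj p k0 0 N a ω) (BB_GG p hN n a ω), add_mul,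
        sum_mul]
      simp only [jj_mul, mul_assoc]
    rw [Ex_congr K e1, Ex_add, Ex_sum]
    congr 1
    rw [sum_congr rfl (fun κ hκ => by rw [Ex_mul, jj_psi_BB hxy hp hN hK' hκ hι])]
    simp only [mul_ite, mul_one, mul_zero, sum_ite_eq']
  have chosen : ∀ k ≤ N, ∀ j < k, idx j ∈ BB x y k0 0 N := by
    intro k
    induction k with
    | zero => intro _ j hj; omega
    | succ k ih =>
      intro hk j hj
      have ih' := ih (by omega)
      rcases Nat.lt_succ_iff_lt_or_eq.1 hj with h1 | h1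
      · exact ih' j h1
      subst h1
      obtain ⟨a, ha1, ha2⟩ := form j ih'
      obtain ⟨ι0, hι0, hι0'⟩ : ∃ ι0 ∈ BB x y k0 0 N, ι0 ∉ (range j).image idx := by
        apply exists_mem_notMem_of_card_lt_card
        rw [card_BB]
        exact lt_of_le_of_lt (card_image_le.trans (card_range j).le) (by omega)
      have hv0 := valid_BB hN hK' hι0
      have h2 := h.max j ι0 hv0
      simp only [ha2] at h2
      rw [val a ι0 hv0, val a _ (h.valid j), if_pos hι0, ha1 ι0 hι0', he] at h2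
      by_contra hnot
      rw [if_neg hnot, add_zero] at h2
      have h3 := val_GG hxy hp hp2 hK (h.valid j)
      have h4 : Ex K (fun ω => jj p (GG x y n ω) * psi p ι0 ω) = 0 := by
        rw [← Ex_zero (d := d) K]
        apply Ex_congr
        intro ω
        rcases BB_GG p hN n (fun _ => 1) ω ι0 hι0 with h5 | h5
        · rw [one_mul] at h5; rw [h5, mul_zero]
        · rw [h5, jj_zero, zero_mul]
      rw [h4, zero_add, abs_of_pos (by linarith)] at h2
      linarith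
  intro k hk
  obtain ⟨a, -, ha2⟩ := form k (chosen k hk)
  simp only [ha2]
  rw [Ex_thin (by linarith) hN hK']
  exact le_add_of_nonneg_right (sum_nonneg fun _ _ => by positivity)

lemma small_main (hxy : x ≠ y) {p : ℝ} (hp : 1 < p) (hp2 : p < 2) (c : ℕ) (C : ℝ) :
    ∃ (K m : ℕ) (v0 : Om d → ℝ) (S : Finset (Idx d))
      (a : Idx d → ℝ), 1 ≤ m ∧ S.card ≤ m ∧ (∀ ι ∈ S, Valid K ι) ∧
      ∀ idx v, SRun p K v0 idx v → ∀ N ≤ c * m,
        C * Ex K (fun ω => |v0 ω - ∑ ι ∈ S, a ι * psi p ι ω| ^ p) <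
          Ex K (fun ω => |v N ω| ^ p) := by
  obtain ⟨b, hb, hkl⟩ := khin_lower
  have hτ0 := tau_pos p
  have hτ1 : 0 < 1 - tau p := by linarith [tau_lt_one hp]
  have hp1 : 0 < p - 1 := by linarith
  set q := p / (p - 1) with hq
  have hq1 : 1 < q := by rw [hq, one_lt_div hp1]; linarith
  set C1 := 2 * (4 / (1 - tau p)) with hC1
  have hC10 : 0 < C1 := by positivity
  obtain ⟨n, hn, hbig⟩ := exists_nat_rpow_gt (e := (1 - p / 2) * (q - 1))
    (mul_pos (by linarith) (by linarith)) (C * c * C1 ^ q / b)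
  have hn0 : (0 : ℝ) < n := by exact_mod_cast hn
  set m := n * 2 ^ (n - 1) with hm
  set N := c * m with hN
  set e := (C1 * (n : ℝ) ^ (p / 2 - 1) * tau p ^ n) ^ (1 / (p - 1)) with he
  have he0 : 0 ≤ e := by positivity
  have hN2 : N ≤ 2 ^ N := Nat.lt_two_pow_self.le
  have hK : n < N + n + 2 := by omega
  have hK' : N + 1 + 0 < N + n + 2 := by omega
  refine ⟨N + n + 2, m, fun ω => GG x y n ω + ∑ ι ∈ BB x y N 0 N, e * psi p ι ω, LL x y n,
    fun _ => kap p n, ?_, (card_LL hxy n).le, fun ι hι => valid_LL hK hι, ?_⟩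
  · exact Nat.mul_pos hn (by positivity)
  intro idx v hrun k hk
  have hje : jj p e = 2 * (4 / (1 - tau p) * (n : ℝ) ^ (p / 2 - 1) * tau p ^ n) := by
    rw [jj_of_nonneg hp he0, he, ← Real.rpow_mul (by positivity), one_div_mul_cancel hp1.ne',
      Real.rpow_one, hC1]; ring
  refine lt_of_lt_of_le ?_ (small_run hxy hp hp2.le hn hK hN2 hK' hje hrun k hk)
  simp only [← GG_eq hxy p n, add_sub_cancel_left]
  rw [Ex_thin0 (by linarith) hN2 hK' e he0]
  have hlow := hkl p hp.le hp2.le d _ _ _ _ (signFam_x hxy hK) (nonempty_Icc.2 hn)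
    (fun ω => ind (ω x 0 = true)) (fun _ => ind_nonneg _) (fun j hj ω => by
      rw [f1_ne x (by have := (mem_Icc.1 hj).1; omega)])
  rw [Ex_first (by omega), Nat.card_Icc, Nat.add_sub_cancel] at hlow
  simp only [abs_GG_rpow (by linarith : 0 < p)]
  refine lt_of_lt_of_le ?_ hlow
  have hep : e ^ p = C1 ^ q * (n : ℝ) ^ ((p / 2 - 1) * q) * (1 / 2) ^ n := by
    rw [he, ← Real.rpow_mul (by positivity), show 1 / (p - 1) * p = q by rw [hq]; ring,
      Real.mul_rpow (by positivity) (by positivity), Real.mul_rpow (by positivity) (by positivity),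
      ← Real.rpow_mul hn0.le, tau_pow_conj hp]
  have hNc : (N : ℝ) * (1 / 2) ^ n = c * n / 2 := by
    rw [hN, Nat.cast_mul, mul_assoc, hm, card_half hn]; ring
  have hsplit : (n : ℝ) ^ (p / 2) =
      (n : ℝ) ^ ((1 - p / 2) * (q - 1)) * ((n : ℝ) ^ ((p / 2 - 1) * q) * n) := by
    rw [← Real.rpow_add_one hn0.ne', ← Real.rpow_add hn0]
    congr 1; ring
  rw [div_lt_iff₀ hb] at hbig
  have hpos : 0 < (n : ℝ) ^ ((p / 2 - 1) * q) * n / 2 := by positivity
  calc C * ((N : ℝ) * e ^ p)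
      = C * C1 ^ q * (n : ℝ) ^ ((p / 2 - 1) * q) * ((N : ℝ) * (1 / 2) ^ n) := by rw [hep]; ring
    _ = (C * c * C1 ^ q) * ((n : ℝ) ^ ((p / 2 - 1) * q) * n / 2) := by rw [hNc]; ring
    _ < ((n : ℝ) ^ ((1 - p / 2) * (q - 1)) * b) * ((n : ℝ) ^ ((p / 2 - 1) * q) * n / 2) :=
        mul_lt_mul_of_pos_right hbig hpos
    _ = _ := by rw [hsplit]; ring

end

end Pool.Agent.Lib.MP_4a278a_an
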